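import Pool.Agent.Q231.FP.Step

set_option autoImplicit false

/-!
# The mean deviation controls the probability of slow passage times
-/

namespace Pool.Agent.Q231.FP

open MeasureTheory ProbabilityTheory Filter Topology Asymptotics
open scoped ENNReal Pointwise

theorem ev_exp {ε : ℝ} (hε : 0 < ε) (p : ℝ) :
    ∀ᶠ n : ℝ in atTop, Real.exp (-(n ^ ε)) ≤ n ^ (-p) := by
  have h := (isLittleO_exp_neg_mul_rpow_atTop one_pos (-(p / ε))).bound one_pos
  filter_upwards [(tendsto_rpow_atTop hε).eventually h, eventually_gt_atTop 0] with n h1 h2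
  rw [Real.norm_of_nonneg (Real.exp_pos _).le, Real.norm_of_nonneg (Real.rpow_nonneg
    (Real.rpow_nonneg h2.le _) _), ← Real.rpow_mul h2.le, one_mul] at h1
  have e : ε * (-(p / ε)) = -p := by field_simp
  rw [e] at h1
  simpa using h1

variable {Ω : Type*} [MeasurableSpace Ω] {P : Measure Ω} {X : Sym2 V → Ω → ℝ} {μ : ℝ × ℝ → ℝ}

theorem IsFPP.slow_one (hF : IsFPP P X μ) : Slow P X μ 1 := by
  have hP := hF.env.prob
  intro ε hε q hq
  apply of_large (by linarith) hq (fun _ _ => measureReal_le_one)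
  obtain ⟨s0, hs0⟩ := eventually_atTop.mp
    ((ev_exp (show 0 < ε / (1 + ε) by positivity) (q + 1)).and (eventually_ge_atTop 1))
  refine ⟨1, s0, zero_le_one, fun v s hs hvs => ?_⟩
  obtain ⟨h1, h2⟩ := hs0 s hs
  have hs00 : 0 < s := by linarith
  have h3 : 1 + (l1 v : ℝ) ≤ s ^ (1 / (1 + ε)) := by
    calc 1 + (l1 v : ℝ) = ((1 + (l1 v : ℝ)) ^ (1 + ε)) ^ (1 / (1 + ε)) := by
          rw [← Real.rpow_mul (by positivity)]
          have : (1 + ε) * (1 / (1 + ε)) = 1 := by field_simp
          rw [this, Real.rpow_one]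
      _ ≤ s ^ (1 / (1 + ε)) := Real.rpow_le_rpow (by positivity) hvs (by positivity)
  have h4 : s ^ (1 / (1 + ε)) * s ^ (ε / (1 + ε)) = s := by
    rw [← Real.rpow_add hs00]
    have : 1 / (1 + ε) + ε / (1 + ε) = 1 := by field_simp
    rw [this, Real.rpow_one]
  have h5 : (l1 v : ℝ) * s ^ (ε / (1 + ε)) ≤ s := by
    calc (l1 v : ℝ) * s ^ (ε / (1 + ε)) ≤ s ^ (1 / (1 + ε)) * s ^ (ε / (1 + ε)) := by
          apply mul_le_mul_of_nonneg_right (by linarith) (Real.rpow_nonneg hs00.le _)
      _ = s := h4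
  have h6 := hF.env.upper v (s ^ (ε / (1 + ε))) (Real.rpow_nonneg hs00.le _)
  have hmu0 := hF.nonneg (cv v)
  have h7 : P.real {ω | μ (cv v) + s < tau (fld X ω) Set.univ 0 v} ≤
      (l1 v : ℝ) * Real.exp (-(s ^ (ε / (1 + ε)))) := by
    rw [measureReal_def]
    apply ENNReal.toReal_le_of_le_ofReal (by positivity)
    refine le_trans (measure_mono ?_) h6
    intro ω hω
    have h9 : μ (cv v) + s < tau (fld X ω) Set.univ 0 v := hω
    have h10 : (l1 v : ℝ) * s ^ (ε / (1 + ε)) < tau (fld X ω) Set.univ 0 v := by linarith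
    exact h10
  have h8 : (l1 v : ℝ) ≤ s := by
    have : s ^ (1 / (1 + ε)) ≤ s ^ (1 : ℝ) := by
      apply Real.rpow_le_rpow_of_exponent_le h2
      rw [div_le_one (by linarith)]; linarith
    rw [Real.rpow_one] at this
    linarith
  calc P.real {ω | μ (cv v) + s < tau (fld X ω) Set.univ 0 v}
      ≤ (l1 v : ℝ) * Real.exp (-(s ^ (ε / (1 + ε)))) := h7
    _ ≤ s * s ^ (-(q + 1)) := by gcongr
    _ = 1 * s ^ (-q) := by
        nth_rewrite 1 [← Real.rpow_one s]
        rw [← Real.rpow_add hs00, one_mul]; congr 1; ring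

/-- the estimate at the natural scale gives the estimate at all scales -/
theorem IsFPP.slow_of_ptp (hF : IsFPP P X μ) {κ : ℝ} (hκ : 0 < κ)
    (h : ∀ ε : ℝ, 0 < ε → ∀ q : ℝ, 0 < q → ∃ C : ℝ, 0 ≤ C ∧ ∀ᶠ n : ℝ in atTop, ∀ v : V,
      (l1 v : ℝ) = n → P.real {ω | μ (cv v) + n ^ (κ + ε) < tau (fld X ω) Set.univ 0 v} ≤
        C * n ^ (-q)) : Slow P X μ κ := by
  have hP := hF.env.prob
  intro ε hε q hq
  set p := κ + ε + 2 with hp
  obtain ⟨C, hC0, hC⟩ := h ε hε (q * p) (by positivity)
  obtain ⟨n0, hn0⟩ := eventually_atTop.mp hC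
  obtain ⟨C', hC'0, hC'⟩ := hF.slow_one 1 one_pos q hq
  apply of_large (by linarith) hq (fun _ _ => measureReal_le_one)
  refine ⟨max (C * 2 ^ (q * p)) C', (1 + max n0 1) ^ p + 1, by positivity, fun v s hs hvs => ?_⟩
  have hbase : (1 : ℝ) ≤ 1 + max n0 1 := by have := le_max_right n0 1; linarith
  have hs1 : 1 ≤ s := by
    have := Real.one_le_rpow hbase (show 0 ≤ p by positivity)
    linarith
  have hspos : 0 < s ^ (-q) := Real.rpow_pos_of_pos (by linarith) _
  rcases le_or_gt s ((1 + (l1 v : ℝ)) ^ p) with hA | hB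
  · have h1 : 1 + max n0 1 < 1 + (l1 v : ℝ) := by
      by_contra hcon
      push Not at hcon
      have : (1 + (l1 v : ℝ)) ^ p ≤ (1 + max n0 1) ^ p :=
        Real.rpow_le_rpow (by positivity) hcon (by positivity)
      linarith
    have h2 : n0 ≤ (l1 v : ℝ) := by have := le_max_left n0 1; linarith
    have h3 : 1 ≤ (l1 v : ℝ) := by have := le_max_right n0 1; linarith
    have h4 := hn0 (l1 v) h2 v rfl
    have h5 : P.real {ω | μ (cv v) + s < tau (fld X ω) Set.univ 0 v} ≤
        P.real {ω | μ (cv v) + (l1 v : ℝ) ^ (κ + ε) < tau (fld X ω) Set.univ 0 v} := by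
      refine measureReal_mono ?_ (measure_ne_top _ _)
      intro ω hω
      have h6 : μ (cv v) + s < tau (fld X ω) Set.univ 0 v := hω
      have h7 : (l1 v : ℝ) ^ (κ + ε) ≤ (1 + (l1 v : ℝ)) ^ (κ + ε) :=
        Real.rpow_le_rpow (by positivity) (by linarith) (by linarith)
      have h8 : μ (cv v) + (l1 v : ℝ) ^ (κ + ε) < tau (fld X ω) Set.univ 0 v := by linarith
      exact h8
    have h6 : (l1 v : ℝ) ^ (-(q * p)) ≤ 2 ^ (q * p) * s ^ (-q) := by
      calc (l1 v : ℝ) ^ (-(q * p)) ≤ ((1 + (l1 v : ℝ)) / 2) ^ (-(q * p)) :=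
            Real.rpow_le_rpow_of_nonpos (by positivity) (by linarith)
              (by have : 0 < q * p := by positivity
                  linarith)
        _ = 2 ^ (q * p) * ((1 + (l1 v : ℝ)) ^ p) ^ (-q) := by
            rw [div_eq_mul_inv, Real.mul_rpow (by positivity) (by norm_num),
              Real.inv_rpow (by norm_num), Real.rpow_neg (by norm_num : (0 : ℝ) ≤ 2), inv_inv,
              ← Real.rpow_mul (by positivity), mul_comm]
            congr 2; ring
        _ ≤ 2 ^ (q * p) * s ^ (-q) := by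
            apply mul_le_mul_of_nonneg_left _ (by positivity)
            exact Real.rpow_le_rpow_of_nonpos (by linarith) hA (by linarith)
    calc P.real {ω | μ (cv v) + s < tau (fld X ω) Set.univ 0 v}
        ≤ C * (l1 v : ℝ) ^ (-(q * p)) := h5.trans h4
      _ ≤ C * (2 ^ (q * p) * s ^ (-q)) := by gcongr
      _ = (C * 2 ^ (q * p)) * s ^ (-q) := by ring
      _ ≤ max (C * 2 ^ (q * p)) C' * s ^ (-q) := by
          gcongr
          exact le_max_left _ _
  · have h1 : (1 + (l1 v : ℝ)) ^ ((1 : ℝ) + 1) ≤ s := by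
      refine le_trans ?_ hB.le
      apply Real.rpow_le_rpow_of_exponent_le
      · have : (0 : ℝ) ≤ l1 v := by positivity
        linarith
      · linarith
    refine (hC' v s h1).trans ?_
    gcongr
    exact le_max_right _ _

/-- mean excess -/
theorem IsFPP.excess (hF : IsFPP P X μ) {κ : ℝ} (hκ : 0 ≤ κ) (hS : Slow P X μ κ) (ε : ℝ)
    (hε : 0 < ε) : ∃ C : ℝ, 0 ≤ C ∧ ∀ v : V,
      Integrable (fun ω => max (tau (fld X ω) Set.univ 0 v - μ (cv v)) 0) P ∧
      ∫ ω, max (tau (fld X ω) Set.univ 0 v - μ (cv v)) 0 ∂P ≤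
        C * (1 + (l1 v : ℝ)) ^ (κ + ε) := by
  have hP := hF.env.prob
  obtain ⟨C, hC0, hC⟩ := hS ε hε 2 (by norm_num)
  refine ⟨1 + C, by positivity, fun v => ?_⟩
  set s0 := (1 + (l1 v : ℝ)) ^ (κ + ε) with hs0
  have hs1 : 1 ≤ s0 := Real.one_le_rpow (by have : (0 : ℝ) ≤ l1 v := by positivity
                                            linarith) (by linarith)
  have hm : Measurable (fun ω => max (tau (fld X ω) Set.univ 0 v - μ (cv v)) 0) :=
    ((hF.env.mtau _ _ _).sub_const _).max measurable_const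
  have h1 := lintegral_eq_lintegral_meas_lt P
    (f := fun ω => max (tau (fld X ω) Set.univ 0 v - μ (cv v)) 0)
    (ae_of_all _ fun ω => le_max_right _ _) hm.aemeasurable
  have h2 : ∫⁻ t in Set.Ioi (0 : ℝ), P {ω | t < max (tau (fld X ω) Set.univ 0 v - μ (cv v)) 0} ≤
      ENNReal.ofReal s0 + ENNReal.ofReal (C * (s0)⁻¹) := by
    have hun : Set.Ioi (0 : ℝ) = Set.Ioc 0 s0 ∪ Set.Ioi s0 :=
      (Set.Ioc_union_Ioi_eq_Ioi (by linarith)).symm
    rw [hun]
    refine (lintegral_union_le _ _ _).trans (add_le_add ?_ ?_)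
    · calc ∫⁻ t in Set.Ioc (0 : ℝ) s0, P {ω | t < max (tau (fld X ω) Set.univ 0 v - μ (cv v)) 0}
          ≤ ∫⁻ t in Set.Ioc (0 : ℝ) s0, 1 := lintegral_mono fun t => prob_le_one
        _ = ENNReal.ofReal s0 := by simp
    · calc ∫⁻ t in Set.Ioi s0, P {ω | t < max (tau (fld X ω) Set.univ 0 v - μ (cv v)) 0}
          ≤ ∫⁻ t in Set.Ioi s0, ENNReal.ofReal (C * t ^ (-2 : ℝ)) := by
            apply setLIntegral_mono' measurableSet_Ioi
            intro t ht
            have ht' : s0 < t := ht
            have h3 := hC v t ht'.le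
            rw [measureReal_def] at h3
            have h4 := (ENNReal.le_ofReal_iff_toReal_le (measure_ne_top P _)
              (by have : 0 ≤ t ^ (-2 : ℝ) := Real.rpow_nonneg (by linarith) _
                  positivity)).mpr h3
            refine le_trans (measure_mono ?_) h4
            intro ω hω
            have h5 : t < max (tau (fld X ω) Set.univ 0 v - μ (cv v)) 0 := hω
            rcases lt_max_iff.mp h5 with h6 | h6
            · have h7 : μ (cv v) + t < tau (fld X ω) Set.univ 0 v := by linarith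
              exact h7
            · linarith
        _ = ENNReal.ofReal (C * (s0)⁻¹) := by
            rw [← ofReal_integral_eq_lintegral_ofReal]
            · rw [integral_const_mul, integral_Ioi_rpow_of_lt (by norm_num) (by linarith)]
              congr 2
              have e : (-2 : ℝ) + 1 = -1 := by norm_num
              rw [e, Real.rpow_neg_one]
              ring
            · exact (integrableOn_Ioi_rpow_of_lt (by norm_num) (by linarith)).const_mul C
            · rw [EventuallyLE, ae_restrict_iff' measurableSet_Ioi]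
              refine ae_of_all _ fun t ht => ?_
              have ht' : s0 < t := ht
              have : 0 ≤ t ^ (-2 : ℝ) := Real.rpow_nonneg (by linarith) _
              simp only [Pi.zero_apply]
              positivity
  rw [← h1, ← ENNReal.ofReal_add (by linarith) (by positivity)] at h2
  have hint : Integrable (fun ω => max (tau (fld X ω) Set.univ 0 v - μ (cv v)) 0) P := by
    refine ⟨hm.aestronglyMeasurable, ?_⟩
    rw [hasFiniteIntegral_iff_ofReal
      (f := fun ω => max (tau (fld X ω) Set.univ 0 v - μ (cv v)) 0)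
      (ae_of_all _ fun ω => le_max_right _ _)]
    exact h2.trans_lt ENNReal.ofReal_lt_top
  refine ⟨hint, ?_⟩
  have h3 : ENNReal.ofReal (∫ ω, max (tau (fld X ω) Set.univ 0 v - μ (cv v)) 0 ∂P) ≤
      ENNReal.ofReal (s0 + C * (s0)⁻¹) := by
    rw [ofReal_integral_eq_lintegral_ofReal hint (ae_of_all _ fun ω => le_max_right _ _)]
    exact h2
  have h4 := (ENNReal.ofReal_le_ofReal_iff (by positivity)).mp h3
  refine h4.trans ?_
  have : (s0)⁻¹ ≤ 1 := inv_le_one_of_one_le₀ hs1
  nlinarith

theorem IsFPP.integrable (hF : IsFPP P X μ) (v : V) :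
    Integrable (fun ω => tau (fld X ω) Set.univ 0 v) P := by
  obtain ⟨C, -, h⟩ := hF.excess zero_le_one hF.slow_one 1 one_pos
  have hP := hF.env.prob
  refine Integrable.mono' ((h v).1.add (integrable_const (μ (cv v))))
    (hF.env.mtau _ _ _).aestronglyMeasurable ?_
  filter_upwards [hF.env.ae_nonneg] with ω hω
  rw [Real.norm_of_nonneg (tau_nonneg hω _ _ _), Pi.add_apply]
  have := le_max_left (tau (fld X ω) Set.univ 0 v - μ (cv v)) 0
  linarith

/-- the mean passage time is at least the time constant -/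
theorem IsFPP.mean_ge (hF : IsFPP P X μ) (v : V) :
    μ (cv v) ≤ ∫ ω, tau (fld X ω) Set.univ 0 v ∂P := by
  have hP := hF.env.prob
  set m := ∫ ω, tau (fld X ω) Set.univ 0 v ∂P with hm
  have hm0 : 0 ≤ m := integral_nonneg_of_ae (by
    filter_upwards [hF.env.ae_nonneg] with ω hω
    exact tau_nonneg hω _ _ _)
  have hsub : ∀ n : ℕ, ∫ ω, tau (fld X ω) Set.univ 0 ((n : ℤ) • v) ∂P ≤ n * m := by
    intro n
    induction n with
    | zero =>
      simp only [Nat.cast_zero, zero_smul, zero_mul]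
      apply le_of_eq
      rw [integral_eq_zero_of_ae]
      filter_upwards [hF.env.ae_nonneg] with ω hω
      exact tau_self hω 0
    | succ n ih =>
      have e : ((n + 1 : ℕ) : ℤ) • v - (n : ℤ) • v = v := by
        rw [← sub_smul]; push_cast; simp
      have h1 : ∫ ω, tau (fld X ω) Set.univ ((n : ℤ) • v) (((n + 1 : ℕ) : ℤ) • v) ∂P = m := by
        have := hF.env.integral_tau ((n : ℤ) • v) (((n + 1 : ℕ) : ℤ) • v) measurable_id
        rw [e] at this
        exact this
      have hi : Integrable (fun ω => tau (fld X ω) Set.univ ((n : ℤ) • v)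
          (((n + 1 : ℕ) : ℤ) • v)) P := by
        apply hF.env.integrable_tau _ _ measurable_id
        rw [e]
        exact hF.integrable v
      calc ∫ ω, tau (fld X ω) Set.univ 0 (((n + 1 : ℕ) : ℤ) • v) ∂P
          ≤ ∫ ω, (tau (fld X ω) Set.univ 0 ((n : ℤ) • v) +
              tau (fld X ω) Set.univ ((n : ℤ) • v) (((n + 1 : ℕ) : ℤ) • v)) ∂P := by
            apply integral_mono_ae (hF.integrable _) ((hF.integrable _).add hi)
            filter_upwards [hF.env.ae_nonneg] with ω hω
            exact tau_tri hω _ _ _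
        _ ≤ ((n + 1 : ℕ) : ℝ) * m := by
            rw [integral_add (hF.integrable _) hi, h1]
            push_cast
            linarith
  have hfat : ∫⁻ ω, liminf (fun n : ℕ => ENNReal.ofReal
      (tau (fld X ω) Set.univ 0 ((n : ℤ) • v) / n)) atTop ∂P ≤
      liminf (fun n : ℕ => ∫⁻ ω, ENNReal.ofReal
        (tau (fld X ω) Set.univ 0 ((n : ℤ) • v) / n) ∂P) atTop :=
    lintegral_liminf_le fun n => ((hF.env.mtau _ _ _).div_const _).ennreal_ofReal
  have hl : ∫⁻ ω, liminf (fun n : ℕ => ENNReal.ofReal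
      (tau (fld X ω) Set.univ 0 ((n : ℤ) • v) / n)) atTop ∂P = ENNReal.ofReal (μ (cv v)) := by
    rw [lintegral_congr_ae (g := fun _ => ENNReal.ofReal (μ (cv v)))]
    · simp
    · filter_upwards [hF.lim v] with ω hω
      exact ((ENNReal.continuous_ofReal.tendsto _).comp hω).liminf_eq
  have hr : liminf (fun n : ℕ => ∫⁻ ω, ENNReal.ofReal
        (tau (fld X ω) Set.univ 0 ((n : ℤ) • v) / n) ∂P) atTop ≤ ENNReal.ofReal m := by
    apply liminf_le_of_frequently_le'
    apply Eventually.frequently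
    filter_upwards [eventually_gt_atTop 0] with n hn
    have hn0 : (0 : ℝ) < n := by exact_mod_cast hn
    rw [← ofReal_integral_eq_lintegral_ofReal ((hF.integrable _).div_const _)]
    · apply ENNReal.ofReal_le_ofReal
      rw [integral_div, div_le_iff₀ hn0]
      have := hsub n
      linarith
    · filter_upwards [hF.env.ae_nonneg] with ω hω
      have := tau_nonneg hω Set.univ 0 ((n : ℤ) • v)
      simp only [Pi.zero_apply]
      positivity
  rw [hl] at hfat
  exact (ENNReal.ofReal_le_ofReal_iff hm0).mp (hfat.trans hr)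

/-- the mean deviation has exponent `χ` -/
def MeanDev (P : Measure Ω) (X : Sym2 V → Ω → ℝ) (μ : ℝ × ℝ → ℝ) (χ : ℝ) : Prop :=
  ∀ ε : ℝ, 0 < ε → ∃ C : ℝ, 0 ≤ C ∧ ∀ v : V,
    ∫ ω, |tau (fld X ω) Set.univ 0 v - μ (cv v)| ∂P ≤ C * (1 + (l1 v : ℝ)) ^ (χ + ε)

theorem IsFPP.meanDev_of_slow (hF : IsFPP P X μ) {χ : ℝ} (hχ : 0 ≤ χ) (hS : Slow P X μ χ) :
    MeanDev P X μ χ := by
  have hP := hF.env.prob
  intro ε hε
  obtain ⟨C, hC0, hC⟩ := hF.excess hχ hS ε hε
  refine ⟨2 * C, by positivity, fun v => ?_⟩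
  obtain ⟨hi, hle⟩ := hC v
  have h1 : ∀ ω, |tau (fld X ω) Set.univ 0 v - μ (cv v)| =
      2 * max (tau (fld X ω) Set.univ 0 v - μ (cv v)) 0 -
        (tau (fld X ω) Set.univ 0 v - μ (cv v)) := by
    intro ω
    rcases le_total 0 (tau (fld X ω) Set.univ 0 v - μ (cv v)) with h | h
    · rw [abs_of_nonneg h, max_eq_left h]; ring
    · rw [abs_of_nonpos h, max_eq_right h]; ring
  simp_rw [h1]
  have hs : Integrable (fun ω => tau (fld X ω) Set.univ 0 v - μ (cv v)) P :=
    (hF.integrable v).sub (integrable_const _)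
  rw [integral_sub (hi.const_mul 2) hs,
    integral_const_mul, integral_sub (hF.integrable v) (integrable_const _)]
  have h2 := hF.mean_ge v
  simp only [integral_const, probReal_univ, smul_eq_mul, one_mul]
  linarith

end Pool.Agent.Q231.FP
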