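import Mathlib

set_option autoImplicit false

/-!
# Lattice first-passage percolation: deterministic part
-/

namespace Pool.Agent.Q231.FP

/-- the square lattice -/
abbrev V := ℤ × ℤ

/-- nearest neighbours -/
def Adj (a b : V) : Prop := |b.1 - a.1| + |b.2 - a.2| = 1

/-- weights of the edges -/
abbrev W := Sym2 V → ℝ

/-- passage times of the walks from `x` to `y` in `B` -/
def sums (w : W) (B : Set V) (x y : V) : Set ℝ :=
  {s | ∃ n : ℕ, ∃ p : ℕ → V, p 0 = x ∧ p n = y ∧ (∀ i < n, Adj (p i) (p (i + 1))) ∧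
    (∀ i ≤ n, p i ∈ B) ∧ s = ∑ i ∈ Finset.range n, w s(p i, p (i + 1))}

/-- passage time from `x` to `y` in `B` -/
noncomputable def tau (w : W) (B : Set V) (x y : V) : ℝ := sInf (sums w B x y)

/-- number of steps -/
def l1 (v : V) : ℕ := v.1.natAbs + v.2.natAbs

theorem sums_bdd {w : W} (hw : ∀ e, 0 ≤ w e) (B : Set V) (x y : V) : BddBelow (sums w B x y) := by
  refine ⟨0, ?_⟩
  rintro s ⟨n, p, -, -, -, -, rfl⟩
  exact Finset.sum_nonneg fun i _ => hw _

theorem tau_nonneg {w : W} (hw : ∀ e, 0 ≤ w e) (B : Set V) (x y : V) : 0 ≤ tau w B x y := by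
  apply Real.sInf_nonneg
  rintro s ⟨n, p, -, -, -, -, rfl⟩
  exact Finset.sum_nonneg fun i _ => hw _

theorem tau_le {w : W} (hw : ∀ e, 0 ≤ w e) {B : Set V} {x y : V} {n : ℕ} {p : ℕ → V}
    (h0 : p 0 = x) (h1 : p n = y) (ha : ∀ i < n, Adj (p i) (p (i + 1))) (hB : ∀ i ≤ n, p i ∈ B) :
    tau w B x y ≤ ∑ i ∈ Finset.range n, w s(p i, p (i + 1)) :=
  csInf_le (sums_bdd hw B x y) ⟨n, p, h0, h1, ha, hB, rfl⟩

theorem l1_zero : l1 0 = 0 := by simp [l1]

theorem l1_add (u v : V) : l1 (u + v) ≤ l1 u + l1 v := by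
  simp only [l1, Prod.fst_add, Prod.snd_add]
  omega

theorem l1_neg (u : V) : l1 (-u) = l1 u := by simp [l1]

theorem Adj.l1 {a b : V} (h : Adj a b) : l1 (b - a) = 1 := by
  unfold Adj at h
  simp only [FP.l1, Prod.fst_sub, Prod.snd_sub]
  rcases abs_cases (b.1 - a.1) with ⟨h1, h2⟩ | ⟨h1, h2⟩ <;>
    rcases abs_cases (b.2 - a.2) with ⟨h3, h4⟩ | ⟨h3, h4⟩ <;> rw [h1, h3] at h <;> omega

/-- the straight path -/
theorem exists_path (x y : V) : ∃ p : ℕ → V, p 0 = x ∧ p (l1 (y - x)) = y ∧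
    (∀ i < l1 (y - x), Adj (p i) (p (i + 1))) ∧
    (∀ i ≤ l1 (y - x), (min x.1 y.1 ≤ (p i).1 ∧ (p i).1 ≤ max x.1 y.1) ∧
      (min x.2 y.2 ≤ (p i).2 ∧ (p i).2 ≤ max x.2 y.2)) := by
  obtain ⟨x1, x2⟩ := x
  obtain ⟨y1, y2⟩ := y
  simp only [l1, Prod.fst_sub, Prod.snd_sub]
  set a := (y1 - x1).natAbs with ha
  set b := (y2 - x2).natAbs with hb
  set s1 : ℤ := if x1 ≤ y1 then 1 else -1 with hs1
  set s2 : ℤ := if x2 ≤ y2 then 1 else -1 with hs2
  have h1 : x1 + s1 * a = y1 := by
    rw [hs1, ha]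
    split_ifs with h <;> omega
  have h2 : x2 + s2 * b = y2 := by
    rw [hs2, hb]
    split_ifs with h <;> omega
  have e1 : s1 = 1 ∧ x1 ≤ y1 ∨ s1 = -1 ∧ y1 ≤ x1 := by
    rw [hs1]; split_ifs with h
    · exact Or.inl ⟨rfl, h⟩
    · exact Or.inr ⟨rfl, by omega⟩
  have e2 : s2 = 1 ∧ x2 ≤ y2 ∨ s2 = -1 ∧ y2 ≤ x2 := by
    rw [hs2]; split_ifs with h
    · exact Or.inl ⟨rfl, h⟩
    · exact Or.inr ⟨rfl, by omega⟩
  refine ⟨fun i => (x1 + s1 * (min i a : ℕ), x2 + s2 * ((i - a : ℕ) : ℤ)), ?_, ?_, ?_, ?_⟩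
  · simp
  · simp only [Prod.mk.injEq]
    constructor
    · rw [Nat.min_eq_right (by omega)]; exact h1
    · rw [show a + b - a = b by omega]; exact h2
  · intro i hi
    simp only [Adj]
    rcases lt_or_ge i a with h | h
    · rw [show min (i + 1) a = i + 1 by omega, show min i a = i by omega,
        show i + 1 - a = 0 by omega, show i - a = 0 by omega]
      push_cast
      rcases e1 with ⟨e, -⟩ | ⟨e, -⟩ <;> rw [e] <;> ring_nf <;> norm_num
    · rw [show min (i + 1) a = a by omega, show min i a = a by omega,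
        show i + 1 - a = (i - a) + 1 by omega]
      push_cast
      rcases e2 with ⟨e, -⟩ | ⟨e, -⟩ <;> rw [e] <;> ring_nf <;> norm_num
  · intro i hi
    simp only
    rcases e1 with ⟨e, h⟩ | ⟨e, h⟩ <;> rcases e2 with ⟨e', h'⟩ | ⟨e', h'⟩ <;>
      rw [e, e'] at * <;> omega

theorem sums_nonempty (w : W) {B : Set V} {x y : V}
    (hB : ∀ v : V, (min x.1 y.1 ≤ v.1 ∧ v.1 ≤ max x.1 y.1) ∧
      (min x.2 y.2 ≤ v.2 ∧ v.2 ≤ max x.2 y.2) → v ∈ B) : (sums w B x y).Nonempty := by
  obtain ⟨p, h0, h1, ha, hb⟩ := exists_path x y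
  exact ⟨_, _, p, h0, h1, ha, fun i hi => hB _ (hb i hi), rfl⟩

theorem univ_nonempty (w : W) (x y : V) : (sums w Set.univ x y).Nonempty :=
  sums_nonempty w fun _ _ => trivial

/-- a walk whose passage time is almost the infimum -/
theorem exists_walk {w : W} {B : Set V} {x y : V} (hne : (sums w B x y).Nonempty) {s : ℝ}
    (hs : tau w B x y < s) : ∃ n : ℕ, ∃ p : ℕ → V, p 0 = x ∧ p n = y ∧
      (∀ i < n, Adj (p i) (p (i + 1))) ∧ (∀ i ≤ n, p i ∈ B) ∧
      ∑ i ∈ Finset.range n, w s(p i, p (i + 1)) < s := by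
  obtain ⟨_, ⟨n, p, h0, h1, h2, h3, rfl⟩, h⟩ := exists_lt_of_csInf_lt hne hs
  exact ⟨n, p, h0, h1, h2, h3, h⟩

theorem tau_tri {w : W} (hw : ∀ e, 0 ≤ w e) (x y z : V) :
    tau w Set.univ x z ≤ tau w Set.univ x y + tau w Set.univ y z := by
  apply le_of_forall_pos_le_add
  intro ε hε
  obtain ⟨n, p, h0, h1, h2, -, h4⟩ := exists_walk (univ_nonempty w x y)
    (show tau w Set.univ x y < tau w Set.univ x y + ε / 2 by linarith)
  obtain ⟨m, q, g0, g1, g2, -, g4⟩ := exists_walk (univ_nonempty w y z)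
    (show tau w Set.univ y z < tau w Set.univ y z + ε / 2 by linarith)
  set r : ℕ → V := fun i => if i ≤ n then p i else q (i - n) with hr
  have hr1 : ∀ i, i ≤ n → r i = p i := fun i hi => by simp [hr, hi]
  have hr2 : ∀ i, r (n + i) = q i := by
    intro i
    rcases Nat.eq_zero_or_pos i with h | h
    · subst h; simp [hr, h1, g0]
    · simp only [hr]
      rw [if_neg (by omega), show n + i - n = i by omega]
  have key := tau_le hw (B := Set.univ) (x := x) (y := z) (n := n + m) (p := r)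
    (by rw [hr1 0 (by omega), h0]) (by rw [hr2, g1]) (by
      intro i hi
      rcases lt_or_ge i n with h | h
      · rw [hr1 i h.le, hr1 (i + 1) h]; exact h2 i h
      · obtain ⟨k, rfl⟩ := Nat.exists_eq_add_of_le h
        rw [hr2, show n + k + 1 = n + (k + 1) by ring, hr2]
        exact g2 k (by omega)) (fun _ _ => trivial)
  rw [Finset.sum_range_add] at key
  have e1 : ∑ i ∈ Finset.range n, w s(r i, r (i + 1)) =
      ∑ i ∈ Finset.range n, w s(p i, p (i + 1)) := by
    apply Finset.sum_congr rfl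
    intro i hi
    have := Finset.mem_range.mp hi
    rw [hr1 i this.le, hr1 (i + 1) this]
  have e2 : ∑ i ∈ Finset.range m, w s(r (n + i), r (n + i + 1)) =
      ∑ i ∈ Finset.range m, w s(q i, q (i + 1)) := by
    apply Finset.sum_congr rfl
    intro i hi
    rw [hr2, show n + i + 1 = n + (i + 1) by ring, hr2]
  rw [e1, e2] at key
  linarith

theorem tau_mono {w : W} (hw : ∀ e, 0 ≤ w e) {B C : Set V} (h : B ⊆ C) {x y : V}
    (hne : (sums w B x y).Nonempty) : tau w C x y ≤ tau w B x y := by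
  apply csInf_le_csInf (sums_bdd hw C x y) hne
  rintro s ⟨n, p, h0, h1, h2, h3, rfl⟩
  exact ⟨n, p, h0, h1, h2, fun i hi => h (h3 i hi), rfl⟩

theorem tau_self {w : W} (hw : ∀ e, 0 ≤ w e) (x : V) : tau w Set.univ x x = 0 := by
  apply le_antisymm _ (tau_nonneg hw _ _ _)
  have := tau_le hw (B := Set.univ) (x := x) (y := x) (n := 0) (p := fun _ => x) rfl rfl
    (by simp) (by simp)
  simpa using this

/-- shifted weights -/
def shift (a : V) (w : W) : W := fun e => w (Sym2.map (· + a) e)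

theorem tau_shift (w : W) (a x y : V) :
    tau (shift a w) Set.univ x y = tau w Set.univ (x + a) (y + a) := by
  unfold tau
  congr 1
  ext s
  constructor
  · rintro ⟨n, p, h0, h1, h2, -, rfl⟩
    refine ⟨n, fun i => p i + a, by simp [h0], by simp [h1], ?_, fun _ _ => trivial, ?_⟩
    · intro i hi
      have := h2 i hi
      simp only [Adj, Prod.fst_add, Prod.snd_add] at *
      rw [← this]
      congr 2 <;> ring
    · simp [shift]
  · rintro ⟨n, p, h0, h1, h2, -, rfl⟩
    refine ⟨n, fun i => p i - a, by simp [h0], by simp [h1], ?_, fun _ _ => trivial, ?_⟩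
    · intro i hi
      have := h2 i hi
      simp only [Adj, Prod.fst_sub, Prod.snd_sub] at *
      rw [← this]
      congr 2 <;> ring
    · simp [shift]

/-- loop erasure -/
theorem loop_erase {w : W} (hw : ∀ e, 0 ≤ w e) (n : ℕ) : ∀ (p : ℕ → V),
    (∀ i < n, Adj (p i) (p (i + 1))) → ∃ m : ℕ, ∃ q : ℕ → V, q 0 = p 0 ∧ q m = p n ∧
      (∀ i < m, Adj (q i) (q (i + 1))) ∧ Set.InjOn q (Set.Iic m) ∧
      ∑ i ∈ Finset.range m, w s(q i, q (i + 1)) ≤ ∑ i ∈ Finset.range n, w s(p i, p (i + 1)) := by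
  induction n using Nat.strong_induction_on with
  | _ n ih =>
    intro p hp
    by_cases hinj : Set.InjOn p (Set.Iic n)
    · exact ⟨n, p, rfl, rfl, hp, hinj, le_rfl⟩
    · have : ∃ i j : ℕ, i < j ∧ j ≤ n ∧ p i = p j := by
        simp only [Set.InjOn, Set.mem_Iic, not_forall] at hinj
        obtain ⟨i, hi, j, hj, hij, hne⟩ := hinj
        rcases lt_or_gt_of_ne hne with h | h
        · exact ⟨i, j, h, hj, hij⟩
        · exact ⟨j, i, h, hi, hij.symm⟩
      obtain ⟨i, j, hij, hj, he⟩ := this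
      set q : ℕ → V := fun k => if k ≤ i then p k else p (k + (j - i)) with hq
      have hq1 : ∀ k, k ≤ i → q k = p k := fun k hk => by simp [hq, hk]
      have hq2 : ∀ k, q (i + k) = p (j + k) := by
        intro k
        rcases Nat.eq_zero_or_pos k with h | h
        · subst h; simp [hq, he]
        · simp only [hq]
          rw [if_neg (by omega)]
          congr 1; omega
      have hm : n - (j - i) < n := by omega
      have hqa : ∀ k < n - (j - i), Adj (q k) (q (k + 1)) := by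
        intro k hk
        rcases lt_or_ge k i with h | h
        · rw [hq1 k h.le, hq1 (k + 1) h]; exact hp k (by omega)
        · obtain ⟨l, rfl⟩ := Nat.exists_eq_add_of_le h
          rw [hq2, show i + l + 1 = i + (l + 1) by ring, hq2]
          exact hp (j + l) (by omega)
      obtain ⟨m, r, r0, r1, r2, r3, r4⟩ := ih _ hm q hqa
      refine ⟨m, r, by rw [r0, hq1 0 (by omega)], ?_, r2, r3, r4.trans ?_⟩
      · rw [r1, show n - (j - i) = i + (n - j) by omega, hq2]
        congr 1; omega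
      · rw [show n - (j - i) = i + (n - j) by omega, Finset.sum_range_add]
        have hn : n = j + (n - j) := by omega
        conv_rhs => rw [hn, Finset.sum_range_add]
        apply add_le_add
        · rw [Finset.sum_congr rfl (g := fun k => w s(p k, p (k + 1)))]
          · exact Finset.sum_le_sum_of_subset_of_nonneg (Finset.range_mono hij.le)
              fun _ _ _ => hw _
          · intro k hk
            have := Finset.mem_range.mp hk
            rw [hq1 k this.le, hq1 (k + 1) this]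
        · apply le_of_eq
          apply Finset.sum_congr rfl
          intro k _
          rw [hq2, show i + k + 1 = i + (k + 1) by ring, hq2]
          rfl

theorem edge_inj {q : ℕ → V} {m : ℕ} (h : Set.InjOn q (Set.Iic m)) :
    Set.InjOn (fun i => s(q i, q (i + 1))) (Set.Iio m) := by
  intro i hi j hj hij
  simp only [Set.mem_Iio] at hi hj
  simp only [Sym2.eq, Sym2.rel_iff', Prod.mk.injEq, Prod.swap_prod_mk] at hij
  rcases hij with ⟨h1, -⟩ | ⟨h1, h2⟩
  · exact h (by simp; omega) (by simp; omega) h1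
  · have e1 := h (by simp; omega) (by simp; omega) h1
    have e2 := h (by simp; omega) (by simp; omega) h2
    omega

theorem l1_walk {p : ℕ → V} {n : ℕ} (h : ∀ i < n, Adj (p i) (p (i + 1))) :
    ∀ i ≤ n, l1 (p i - p 0) ≤ i := by
  intro i
  induction i with
  | zero => intro _; simp [l1]
  | succ i ih =>
    intro hi
    have h1 := ih (by omega)
    have h2 := (h i (by omega)).l1
    have := l1_add (p (i + 1) - p i) (p i - p 0)
    rw [sub_add_sub_cancel] at this
    omega

end Pool.Agent.Q231.FP
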