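import Pool.Agent.Q231.FP.Boot

set_option autoImplicit false

/-!
# The bootstrap
-/

namespace Pool.Agent.Q231.FP

open MeasureTheory ProbabilityTheory Filter Topology Asymptotics
open scoped ENNReal Pointwise

variable {Ω : Type*} [MeasurableSpace Ω] {P : Measure Ω} {X : Sym2 V → Ω → ℝ} {μ : ℝ × ℝ → ℝ}

theorem IsFPP.boot (hF : IsFPP P X μ) {χ κ : ℝ} (hχ0 : 0 < χ) (hχ1 : χ < 1)
    (hL : MeanDev P X μ χ) (hκ : χ < κ) (hκ1 : κ ≤ 1) (hS : Slow P X μ κ) :
    Slow P X μ (χ + (1 - χ / 2) * (κ - χ)) := by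
  have hP := hF.env.prob
  obtain ⟨M, hM1, hM2, hMl⟩ := hF.upper
  set κ' := χ + (1 - χ / 2) * (κ - χ) with hκ'
  set θ := (κ - χ) / 2 with hθ
  have hθ0 : 0 < θ := by rw [hθ]; linarith
  have hθ1 : θ < 1 / 2 := by rw [hθ]; linarith
  have hd1 : θ + (1 - θ) * χ ≤ κ' := by rw [hκ', hθ]; nlinarith
  have hd2 : (1 - θ) * κ ≤ κ' := by rw [hκ', hθ]; nlinarith
  have hd3 : θ ≤ κ' := by
    have : 0 ≤ (1 - θ) * χ := mul_nonneg (by linarith) hχ0.le
    linarith
  have hκ'0 : 0 < κ' := by linarith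
  obtain ⟨Ci, -, hint⟩ := hF.excess zero_le_one hF.slow_one 1 one_pos
  apply hF.slow_of_ptp hκ'0
  intro ε hε q hq
  set η := min (ε / 5) (1 / 2) with hη
  have hη0 : 0 < η := lt_min (by linarith) (by norm_num)
  have hη1 : η ≤ 1 / 2 := min_le_right _ _
  have hη2 : 5 * η ≤ ε := by have := min_le_left (ε / 5) (1 / 2); linarith
  obtain ⟨C1, hC10, hC1⟩ := hL η hη0
  set q' := (q + 2) / ((1 - θ) * κ) with hq'
  have hκ0 : 0 < κ := by linarith
  have h1θ : 0 < 1 - θ := by linarith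
  have hq'0 : 0 < q' := by rw [hq']; positivity
  obtain ⟨C2, hC20, hC2⟩ := hS η hη0 q' hq'0
  refine ⟨2 + 2 * C2 + 6413, by positivity, ?_⟩
  filter_upwards [eventually_ge_atTop 2, (tendsto_rpow_atTop h1θ).eventually_ge_atTop 3,
    (tendsto_rpow_atTop hθ0).eventually_ge_atTop 1, ev_exp hη0 (q + 5),
    (tendsto_rpow_atTop hη0).eventually_ge_atTop (4 * M + 16 * C1 + 4 + 25652)]
    with n hn2 hn3 hnθ hnexp hnη
  intro v hv
  have hn0 : 0 < n := by linarith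
  have hn1 : 1 ≤ n := by linarith
  have hnη1 : 1 ≤ n ^ η := by linarith
  have hA : 1 ≤ n ^ (1 - θ) * n ^ η := one_le_mul_of_one_le_of_one_le (by linarith) hnη1
  -- parameters
  set m : ℕ := ⌈n ^ θ⌉₊ with hm
  have hm1 : 1 ≤ m := Nat.one_le_ceil_iff.mpr (by linarith)
  have hmlow : n ^ θ ≤ m := Nat.le_ceil _
  have hmup : (m : ℝ) ≤ 2 * n ^ θ := by
    have := (Nat.ceil_lt_add_one (show 0 ≤ n ^ θ by linarith)).le
    linarith
  set L : ℝ := n ^ (1 - θ) + 2 with hLd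
  have hsplit : n ^ (1 - θ) * n ^ θ = n := by
    rw [← Real.rpow_add hn0]
    have : 1 - θ + θ = 1 := by ring
    rw [this, Real.rpow_one]
  have hnθ0 : 0 < n ^ θ := by linarith
  have hL1 : (l1 v : ℝ) / m + 2 ≤ L := by
    rw [hv, hLd]
    have : n / m ≤ n ^ (1 - θ) := by
      rw [div_le_iff₀ (by linarith)]
      calc n = n ^ (1 - θ) * n ^ θ := hsplit.symm
        _ ≤ n ^ (1 - θ) * m := by gcongr
    linarith
  have hL0 : 5 ≤ L := by rw [hLd]; linarith
  set R : ℕ := ⌈400 * L * n ^ η⌉₊ with hRd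
  have hRlow : 400 * L * n ^ η ≤ R := Nat.le_ceil _
  have hRup : (R : ℝ) ≤ 801 * n ^ (1 - θ) * n ^ η := by
    have h1 := (Nat.ceil_lt_add_one (show 0 ≤ 400 * L * n ^ η by positivity)).le
    have h2 : L ≤ 2 * n ^ (1 - θ) := by rw [hLd]; linarith
    have h3 : 400 * L * n ^ η ≤ 800 * n ^ (1 - θ) * n ^ η := by
      have : 400 * L ≤ 800 * n ^ (1 - θ) := by linarith
      gcongr
    linarith
  have hLR : L ≤ R := by
    have : L ≤ 400 * L * n ^ η := by
      calc L ≤ 400 * L * 1 := by linarith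
        _ ≤ 400 * L * n ^ η := by gcongr
    linarith
  have hgR : L * n ^ η < R / 200 := by
    have : 0 < L * n ^ η := by positivity
    linarith
  set K : ℕ := ⌊(4 * (R : ℝ) + 2) * m / n⌋₊ + 1 with hKd
  have hK0 : 0 < K := Nat.succ_pos _
  have hKlow : (4 * (R : ℝ) + 2) * m / n < K := by
    rw [hKd]; push_cast; exact Nat.lt_floor_add_one _
  have hm0 : (0 : ℝ) < m := by linarith
  have hK1 : 4 * (R : ℝ) + 2 < K * ((l1 v : ℝ) / m) := by
    rw [hv]
    rw [div_lt_iff₀ hn0] at hKlow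
    have : (K : ℝ) * (n / m) = K * n / m := by ring
    rw [this, lt_div_iff₀ hm0]
    exact hKlow
  have hKup : (K : ℝ) ≤ 6413 * n ^ η := by
    have h1 : ((⌊(4 * (R : ℝ) + 2) * m / n⌋₊ : ℕ) : ℝ) ≤ (4 * (R : ℝ) + 2) * m / n :=
      Nat.floor_le (by positivity)
    have h2 : (4 * (R : ℝ) + 2) * m / n ≤ 6412 * n ^ η := by
      rw [div_le_iff₀ hn0]
      have h3 : 4 * (R : ℝ) + 2 ≤ 3206 * (n ^ (1 - θ) * n ^ η) := by
        linarith
      calc (4 * (R : ℝ) + 2) * m ≤ 3206 * (n ^ (1 - θ) * n ^ η) * (2 * n ^ θ) := by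
            apply mul_le_mul h3 hmup hm0.le (by positivity)
        _ = 6412 * n ^ η * (n ^ (1 - θ) * n ^ θ) := by ring
        _ = 6412 * n ^ η * n := by rw [hsplit]
    rw [hKd]; push_cast; linarith
  set b : ℝ := (1 + L) ^ (κ + η) with hbd
  have hb0 : 0 < b := Real.rpow_pos_of_pos (by linarith) _
  have hL2 : 1 + L ≤ 2 * n ^ (1 - θ) := by rw [hLd]; linarith
  have hpowL : ∀ a : ℝ, 0 ≤ a → a ≤ 1 → (1 + L) ^ (a + η) ≤ 4 * (n ^ ((1 - θ) * a) * n ^ η) := by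
    intro a ha0 ha1
    calc (1 + L) ^ (a + η) ≤ (2 * n ^ (1 - θ)) ^ (a + η) :=
          Real.rpow_le_rpow (by linarith) hL2 (by linarith)
      _ = 2 ^ (a + η) * n ^ ((1 - θ) * (a + η)) := by
          rw [Real.mul_rpow (by norm_num) (by positivity), ← Real.rpow_mul hn0.le]
      _ ≤ 2 ^ (2 : ℝ) * n ^ ((1 - θ) * a + η) := by
          apply mul_le_mul
          · exact Real.rpow_le_rpow_of_exponent_le (by norm_num) (by linarith)
          · apply Real.rpow_le_rpow_of_exponent_le hn1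
            have : (1 - θ) * η ≤ 1 * η := by gcongr; linarith
            linarith
          · positivity
          · positivity
      _ = 4 * (n ^ ((1 - θ) * a) * n ^ η) := by
          rw [Real.rpow_add hn0]; norm_num
  have hbup : b ≤ 4 * (n ^ ((1 - θ) * κ) * n ^ η) := hpowL κ hκ0.le hκ1
  have hblow : n ^ ((1 - θ) * κ) ≤ b := by
    calc n ^ ((1 - θ) * κ) = (n ^ (1 - θ)) ^ κ := Real.rpow_mul hn0.le _ _
      _ ≤ (1 + L) ^ κ := Real.rpow_le_rpow (by positivity) (by linarith) hκ0.le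
      _ ≤ b := Real.rpow_le_rpow_of_exponent_le (by linarith) (by linarith)
  set D : ℝ := (16 / 25 : ℝ) ^ R + L * Real.exp (-(n ^ η)) with hD
  have hLn : 1 + L ≤ 2 * n := by
    have : n ^ (1 - θ) ≤ n := by
      calc n ^ (1 - θ) ≤ n ^ (1 : ℝ) := Real.rpow_le_rpow_of_exponent_le hn1 (by linarith)
        _ = n := Real.rpow_one n
    linarith
  have hnpow : ∀ a c : ℝ, n ^ a * n ^ c = n ^ (a + c) := fun a c => (Real.rpow_add hn0 a c).symm
  have hD1 : D ≤ 2 * n ^ (-(q + 4)) := by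
    have h1 : (16 / 25 : ℝ) ^ R ≤ Real.exp (-(n ^ η)) := by
      have h2 : (16 / 25 : ℝ) ≤ Real.exp (-(1 / 400)) := by
        have := Real.add_one_le_exp (-(1 / 400) : ℝ); linarith
      calc (16 / 25 : ℝ) ^ R ≤ Real.exp (-(1 / 400)) ^ R :=
            pow_le_pow_left₀ (by norm_num) h2 _
        _ = Real.exp (-(R / 400)) := by rw [← Real.exp_nat_mul]; congr 1; ring
        _ ≤ Real.exp (-(n ^ η)) := by
            rw [Real.exp_le_exp]
            have : 1 * n ^ η ≤ L * n ^ η := by gcongr; linarith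
            linarith
    calc D ≤ Real.exp (-(n ^ η)) + L * Real.exp (-(n ^ η)) := by rw [hD]; linarith
      _ = (1 + L) * Real.exp (-(n ^ η)) := by ring
      _ ≤ (2 * n) * n ^ (-(q + 5)) := by gcongr
      _ = 2 * (n ^ (1 : ℝ) * n ^ (-(q + 5))) := by rw [Real.rpow_one]; ring
      _ = 2 * n ^ (-(q + 4)) := by rw [hnpow]; congr 2; ring
  have hD0 : 0 ≤ D := by positivity
  have hbD : b * D ≤ 1 := by
    have h1 : b ≤ 4 * n ^ (2 : ℝ) := by
      refine hbup.trans ?_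
      rw [hnpow]
      have : n ^ ((1 - θ) * κ + η) ≤ n ^ (2 : ℝ) := by
        apply Real.rpow_le_rpow_of_exponent_le hn1
        have : (1 - θ) * κ ≤ 1 * 1 := by gcongr; linarith
        linarith
      linarith
    have h2 : n ^ (-(q + 4)) ≤ n ^ (-4 : ℝ) :=
      Real.rpow_le_rpow_of_exponent_le hn1 (by linarith)
    have h3 : (4 : ℝ) * n ^ (2 : ℝ) * (2 * n ^ (-4 : ℝ)) = 8 * n ^ (-2 : ℝ) := by
      rw [show (4 : ℝ) * n ^ (2 : ℝ) * (2 * n ^ (-4 : ℝ)) = 8 * (n ^ (2 : ℝ) * n ^ (-4 : ℝ)) by ring,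
        hnpow]
      norm_num
    have h4 : n ^ (-2 : ℝ) ≤ 1 / 8 := by
      have h5 : (3 : ℝ) ≤ n := by
        refine hn3.trans ?_
        calc n ^ (1 - θ) ≤ n ^ (1 : ℝ) := Real.rpow_le_rpow_of_exponent_le hn1 (by linarith)
          _ = n := Real.rpow_one n
      rw [Real.rpow_neg hn0.le, show (2 : ℝ) = ((2 : ℕ) : ℝ) by norm_num, Real.rpow_natCast,
        one_div]
      exact inv_anti₀ (by norm_num) (by nlinarith only [h5])
    calc b * D ≤ (4 * n ^ (2 : ℝ)) * (2 * n ^ (-4 : ℝ)) :=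
          mul_le_mul h1 (hD1.trans (by linarith)) hD0 (by positivity)
      _ = 8 * n ^ (-2 : ℝ) := h3
      _ ≤ 1 := by linarith
  set a0 : ℝ := C1 * (1 + L) ^ (χ + η) with ha0
  have ha0up : a0 ≤ 4 * C1 * (n ^ ((1 - θ) * χ) * n ^ η) := by
    have := hpowL χ hχ0.le hχ1.le
    calc a0 ≤ C1 * (4 * (n ^ ((1 - θ) * χ) * n ^ η)) := mul_le_mul_of_nonneg_left this hC10
      _ = 4 * C1 * (n ^ ((1 - θ) * χ) * n ^ η) := by ring
  set β : ℝ := C2 * b ^ (-q') with hβ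
  have hβ0 : 0 ≤ β := by
    have : 0 ≤ b ^ (-q') := Real.rpow_nonneg hb0.le _
    positivity
  have hβ1 : β ≤ C2 * n ^ (-(q + 2)) := by
    rw [hβ]
    apply mul_le_mul_of_nonneg_left _ hC20
    calc b ^ (-q') ≤ (n ^ ((1 - θ) * κ)) ^ (-q') :=
          Real.rpow_le_rpow_of_nonpos (by positivity) hblow (by linarith)
      _ = n ^ (-(q + 2)) := by
          rw [← Real.rpow_mul hn0.le]; congr 1
          rw [hq']; field_simp
  -- the quantitative step
  have key := hF.step hMl (by linarith) v (m := m) hm1 (L := L) (g := n ^ η) (b := b)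
    (a := a0 + 1) (a0 := a0) (x := n ^ η) (β := β) (R := R) (K := K) hL1 hLR (by positivity) hgR
    hK0 hK1 hb0 (fun u => (hint u).1) (by
      intro u hu
      calc ∫ ω, max (tau (fld X ω) Set.univ 0 u - μ (cv u)) 0 ∂P
          ≤ ∫ ω, |tau (fld X ω) Set.univ 0 u - μ (cv u)| ∂P := by
            apply integral_mono (hint u).1
            · exact ((hF.integrable u).sub (integrable_const _)).abs
            · intro ω
              exact max_le (le_abs_self _) (abs_nonneg _)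
        _ ≤ C1 * (1 + (l1 u : ℝ)) ^ (χ + η) := hC1 u
        _ ≤ a0 := by
            rw [ha0]
            gcongr) (by linarith) (by
      intro u hu
      apply hC2
      rw [hbd]
      gcongr)
  have hfin1 : 2 * M * m + 2 * m * (a0 + 1) + K * (b * n ^ η) ≤ n ^ (κ' + ε) := by
    have e1 : 2 * M * m ≤ 4 * M * n ^ θ := by
      calc 2 * M * m ≤ 2 * M * (2 * n ^ θ) := by gcongr
        _ = 4 * M * n ^ θ := by ring
    have e2 : 2 * m * (a0 + 1) ≤ 4 * n ^ θ * (4 * C1 * (n ^ ((1 - θ) * χ) * n ^ η) + 1) := by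
      have : 0 ≤ a0 + 1 := by positivity
      calc 2 * m * (a0 + 1) ≤ 2 * (2 * n ^ θ) * (a0 + 1) := by gcongr
        _ ≤ 2 * (2 * n ^ θ) * (4 * C1 * (n ^ ((1 - θ) * χ) * n ^ η) + 1) := by gcongr
        _ = _ := by ring
    have e3 : K * (b * n ^ η) ≤ 25652 * (n ^ ((1 - θ) * κ) * n ^ (3 * η)) := by
      calc K * (b * n ^ η) ≤ (6413 * n ^ η) * (4 * (n ^ ((1 - θ) * κ) * n ^ η) * n ^ η) := by
            gcongr
        _ = 25652 * (n ^ ((1 - θ) * κ) * (n ^ η * n ^ η * n ^ η)) := by ring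
        _ = 25652 * (n ^ ((1 - θ) * κ) * n ^ (3 * η)) := by
            rw [hnpow, hnpow]; congr 3; ring
    have f1 : n ^ θ ≤ n ^ (κ' + 3 * η) := Real.rpow_le_rpow_of_exponent_le hn1 (by linarith)
    have f2 : n ^ θ * (n ^ ((1 - θ) * χ) * n ^ η) ≤ n ^ (κ' + 3 * η) := by
      rw [hnpow, hnpow]
      exact Real.rpow_le_rpow_of_exponent_le hn1 (by linarith)
    have f3 : n ^ ((1 - θ) * κ) * n ^ (3 * η) ≤ n ^ (κ' + 3 * η) := by
      rw [hnpow]
      exact Real.rpow_le_rpow_of_exponent_le hn1 (by linarith)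
    have f4 : (4 * M + 16 * C1 + 4 + 25652) * n ^ (κ' + 3 * η) ≤ n ^ (κ' + ε) := by
      calc (4 * M + 16 * C1 + 4 + 25652) * n ^ (κ' + 3 * η) ≤ n ^ η * n ^ (κ' + 3 * η) := by
            gcongr
        _ = n ^ (κ' + 4 * η) := by rw [hnpow]; congr 1; ring
        _ ≤ n ^ (κ' + ε) := Real.rpow_le_rpow_of_exponent_le hn1 (by linarith)
    have g1 : 4 * M * n ^ θ ≤ 4 * M * n ^ (κ' + 3 * η) := by gcongr
    have g2 : 16 * C1 * (n ^ θ * (n ^ ((1 - θ) * χ) * n ^ η)) ≤ 16 * C1 * n ^ (κ' + 3 * η) := by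
      gcongr
    have g3 : 4 * n ^ θ * (4 * C1 * (n ^ ((1 - θ) * χ) * n ^ η) + 1) =
        16 * C1 * (n ^ θ * (n ^ ((1 - θ) * χ) * n ^ η)) + 4 * n ^ θ := by ring
    linarith
  have hfin2 : m * (D + β) + K * Real.exp (-(n ^ η)) ≤ (2 + 2 * C2 + 6413) * n ^ (-q) := by
    have hmn : (m : ℝ) ≤ 2 * n := by
      have : n ^ θ ≤ n := by
        calc n ^ θ ≤ n ^ (1 : ℝ) := Real.rpow_le_rpow_of_exponent_le hn1 (by linarith)
          _ = n := Real.rpow_one n
      linarith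
    have hn1r : n ^ (1 : ℝ) = n := Real.rpow_one n
    have e1 : m * (D + β) ≤ 2 * n * (2 * n ^ (-(q + 4)) + C2 * n ^ (-(q + 2))) := by
      have : D + β ≤ 2 * n ^ (-(q + 4)) + C2 * n ^ (-(q + 2)) := by linarith
      exact mul_le_mul hmn this (by positivity) (by positivity)
    have e2 : K * Real.exp (-(n ^ η)) ≤ 6413 * n * n ^ (-(q + 5)) := by
      have : n ^ η ≤ n := by
        calc n ^ η ≤ n ^ (1 : ℝ) := Real.rpow_le_rpow_of_exponent_le hn1 (by linarith)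
          _ = n := hn1r
      have h3 : (K : ℝ) ≤ 6413 * n := by linarith
      exact mul_le_mul h3 hnexp (Real.exp_pos _).le (by positivity)
    have f1 : n * n ^ (-(q + 4)) = n ^ (-(q + 3)) := by
      nth_rewrite 1 [← hn1r]
      rw [hnpow]; congr 1; ring
    have f2 : n * n ^ (-(q + 2)) = n ^ (-(q + 1)) := by
      nth_rewrite 1 [← hn1r]
      rw [hnpow]; congr 1; ring
    have f3 : n * n ^ (-(q + 5)) = n ^ (-(q + 4)) := by
      nth_rewrite 1 [← hn1r]
      rw [hnpow]; congr 1; ring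
    have k1 : n ^ (-(q + 3)) ≤ n ^ (-q) * (1 / 4) := by
      rw [show -(q + 3) = -q + (-3) by ring, ← hnpow]
      have : n ^ (-3 : ℝ) ≤ 1 / 4 := by
        rw [Real.rpow_neg hn0.le, show (3 : ℝ) = ((3 : ℕ) : ℝ) by norm_num, Real.rpow_natCast,
          one_div]
        apply inv_anti₀ (by norm_num)
        linarith [pow_le_pow_left₀ (by norm_num : (0:ℝ) ≤ 2) hn2 3]
      gcongr
    have k2 : n ^ (-(q + 1)) ≤ n ^ (-q) := Real.rpow_le_rpow_of_exponent_le hn1 (by linarith)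
    have k3 : n ^ (-(q + 4)) ≤ n ^ (-q) := Real.rpow_le_rpow_of_exponent_le hn1 (by linarith)
    have k0 : 0 < n ^ (-q) := Real.rpow_pos_of_pos hn0 _
    have t1 : 2 * n * (2 * n ^ (-(q + 4)) + C2 * n ^ (-(q + 2))) =
        4 * n ^ (-(q + 3)) + 2 * C2 * n ^ (-(q + 1)) := by
      rw [← f1, ← f2]; ring
    have t2 : 6413 * n * n ^ (-(q + 5)) = 6413 * n ^ (-(q + 4)) := by rw [← f3]; ring
    have t3 : 2 * C2 * n ^ (-(q + 1)) ≤ 2 * C2 * n ^ (-q) := by gcongr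
    rw [t1] at e1
    rw [t2] at e2
    linarith
  refine le_trans ?_ (key.trans hfin2)
  refine measureReal_mono ?_ (measure_ne_top _ _)
  intro ω hω
  have h1 : μ (cv v) + n ^ (κ' + ε) < tau (fld X ω) Set.univ 0 v := hω
  have h2 : μ (cv v) + 2 * M * m + 2 * m * (a0 + 1) + K * (b * n ^ η) <
      tau (fld X ω) Set.univ 0 v := by linarith
  exact h2

theorem IsFPP.slow_of_meanDev (hF : IsFPP P X μ) {χ : ℝ} (hχ0 : 0 < χ) (hχ1 : χ < 1)
    (hL : MeanDev P X μ χ) : Slow P X μ χ := by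
  have hρ0 : 0 < 1 - χ / 2 := by linarith
  have hρ1 : 1 - χ / 2 < 1 := by linarith
  have hall : ∀ i : ℕ, Slow P X μ (χ + (1 - χ / 2) ^ i * (1 - χ)) := by
    intro i
    induction i with
    | zero =>
      rw [pow_zero, one_mul, add_sub_cancel]
      exact hF.slow_one
    | succ i ih =>
      have h1 : (1 - χ / 2) ^ i ≤ 1 := pow_le_one₀ hρ0.le hρ1.le
      have h2 : 0 < (1 - χ / 2) ^ i := pow_pos hρ0 i
      have := hF.boot hχ0 hχ1 hL (κ := χ + (1 - χ / 2) ^ i * (1 - χ)) (by nlinarith)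
        (by nlinarith) ih
      rw [add_sub_cancel_left] at this
      rw [pow_succ, mul_comm ((1 - χ / 2) ^ i), mul_assoc]
      exact this
  intro ε hε q hq
  obtain ⟨i, hi⟩ := exists_pow_lt_of_lt_one (show 0 < ε / 2 by linarith) hρ1
  obtain ⟨C, hC0, hC⟩ := hall i (ε / 2) (by linarith) q hq
  refine ⟨C, hC0, fun v s hs => hC v s (le_trans ?_ hs)⟩
  apply Real.rpow_le_rpow_of_exponent_le
  · have : (0 : ℝ) ≤ l1 v := by positivity
    linarith
  · have h2 : 0 < (1 - χ / 2) ^ i := pow_pos hρ0 i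
    nlinarith

theorem IsFPP.slow_iff (hF : IsFPP P X μ) {χ : ℝ} (hχ0 : 0 < χ) (hχ1 : χ < 1) :
    Slow P X μ χ ↔ MeanDev P X μ χ :=
  ⟨hF.meanDev_of_slow hχ0.le, hF.slow_of_meanDev hχ0 hχ1⟩

end Pool.Agent.Q231.FP
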