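import Pool.Agent.Q231.FP.PTP

set_option autoImplicit false

/-!
# Local passage times and sums of independent local functions
-/

namespace Pool.Agent.Q231.FP

open MeasureTheory ProbabilityTheory Filter Topology Asymptotics
open scoped ENNReal Pointwise

/-- boxes -/
noncomputable def box (c : V) (R : ℕ) : Finset V :=
  Finset.Icc (c.1 - R) (c.1 + R) ×ˢ Finset.Icc (c.2 - R) (c.2 + R)

/-- edges of boxes -/
noncomputable def edg (c : V) (R : ℕ) : Finset (Sym2 V) := (box c R).sym2

theorem mem_box {c v : V} {R : ℕ} (h : l1 (v - c) ≤ R) : v ∈ box c R := by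
  simp only [l1, Prod.fst_sub, Prod.snd_sub] at h
  simp only [box, Finset.mem_product, Finset.mem_Icc]
  omega

/-- `Y` depends on the weights in `S` only -/
def Dep (S : Finset (Sym2 V)) (Y : W → ℝ) : Prop :=
  ∀ w w' : W, (∀ e ∈ S, w e = w' e) → Y w = Y w'

theorem dep_tau (c : V) (R : ℕ) (x y : V) : Dep (edg c R) (fun w => tau w (box c R) x y) := by
  intro w w' h
  simp only
  unfold tau
  congr 1
  ext s
  constructor
  · rintro ⟨n, p, h0, h1, h2, h3, rfl⟩
    refine ⟨n, p, h0, h1, h2, h3, ?_⟩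
    apply Finset.sum_congr rfl
    intro i hi
    have := Finset.mem_range.mp hi
    apply h
    rw [edg, Finset.mk_mem_sym2_iff]
    exact ⟨h3 i this.le, h3 (i + 1) this⟩
  · rintro ⟨n, p, h0, h1, h2, h3, rfl⟩
    refine ⟨n, p, h0, h1, h2, h3, ?_⟩
    apply Finset.sum_congr rfl
    intro i hi
    have := Finset.mem_range.mp hi
    symm
    apply h
    rw [edg, Finset.mk_mem_sym2_iff]
    exact ⟨h3 i this.le, h3 (i + 1) this⟩

theorem edg_disjoint {c d : V} {R : ℕ} (h : 4 * R < l1 (d - c)) : Disjoint (edg c R) (edg d R) := by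
  rw [Finset.disjoint_left]
  intro e h1 h2
  induction e using Sym2.ind with
  | _ a b =>
    rw [edg, Finset.mk_mem_sym2_iff] at h1 h2
    have h3 := h1.1
    have h4 := h2.1
    simp only [box, Finset.mem_product, Finset.mem_Icc] at h3 h4
    simp only [l1, Prod.fst_sub, Prod.snd_sub] at h
    omega

/-- extension by zero -/
noncomputable def ext0 (U : Finset (Sym2 V)) (u : U → ℝ) : W :=
  open Classical in fun e => if h : e ∈ U then u ⟨e, h⟩ else 0

theorem meas_ext0 (U : Finset (Sym2 V)) : Measurable (ext0 U) := by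
  classical
  apply measurable_pi_iff.2
  intro e
  unfold ext0
  by_cases h : e ∈ U
  · simp only [h, dite_true]
    exact measurable_pi_apply _
  · simp only [h, dite_false]
    exact measurable_const

theorem ext0_eq {U S : Finset (Sym2 V)} (hS : S ⊆ U) {Y : W → ℝ} (hY : Dep S Y) (w : W) :
    Y (ext0 U (fun e => w e)) = Y w := by
  apply hY
  intro e he
  simp [ext0, hS he]

variable {Ω : Type*} [MeasurableSpace Ω] {P : Measure Ω} {X : Sym2 V → Ω → ℝ}

theorem exp_le_lin {z : ℝ} (h0 : 0 ≤ z) (h1 : z ≤ 1) : Real.exp z ≤ 1 + 2 * z := by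
  have h := convexOn_exp.2 (Set.mem_univ (0 : ℝ)) (Set.mem_univ (1 : ℝ))
    (show 0 ≤ 1 - z by linarith) h0 (by ring)
  simp only [smul_eq_mul, mul_zero, mul_one, zero_add, Real.exp_zero] at h
  have := Real.exp_one_lt_d9
  nlinarith

theorem IsEnv.mgf_local (hX : IsEnv P X) (J : Finset ℕ) (S : ℕ → Finset (Sym2 V))
    (Y : ℕ → W → ℝ)
    (hd : ∀ i ∈ J, ∀ j ∈ J, i ≠ j → Disjoint (S i) (S j)) (hm : ∀ j, Measurable (Y j))
    (hdep : ∀ j, Dep (S j) (Y j)) (h0 : ∀ j w, 0 ≤ Y j w) (h1 : ∀ j w, Y j w ≤ 1) {a : ℝ}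
    (ha : ∀ j ∈ J, ∫ ω, Y j (fld X ω) ∂P ≤ a) :
    mgf (fun ω => ∑ j ∈ J, Y j (fld X ω)) P 1 ≤ Real.exp (2 * J.card * a) := by
  classical
  have hP := hX.prob
  induction J using Finset.induction_on with
  | empty => simp [mgf]
  | insert k J hk ih =>
    have ih' := ih (fun i hi j hj => hd i (Finset.mem_insert_of_mem hi) j
      (Finset.mem_insert_of_mem hj)) (fun j hj => ha j (Finset.mem_insert_of_mem hj))
    set U := J.biUnion S with hU
    have hdisj : Disjoint U (S k) := by
      rw [hU, Finset.disjoint_biUnion_left]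
      intro j hj
      exact hd j (Finset.mem_insert_of_mem hj) k (Finset.mem_insert_self _ _)
        (fun h => hk (h ▸ hj))
    have hind := hX.indep.indepFun_finset U (S k) hdisj hX.meas
    have hφ : Measurable (fun u : U → ℝ => ∑ j ∈ J, Y j (ext0 U u)) :=
      Finset.measurable_sum _ fun j _ => (hm j).comp (meas_ext0 U)
    have hψ : Measurable (fun u : S k → ℝ => Y k (ext0 (S k) u)) := (hm k).comp (meas_ext0 _)
    have hind2 := hind.comp hφ hψ
    have e1 : (fun u : U → ℝ => ∑ j ∈ J, Y j (ext0 U u)) ∘ (fun a (i : U) => X i a) =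
        fun ω => ∑ j ∈ J, Y j (fld X ω) := by
      funext ω
      simp only [Function.comp_apply]
      apply Finset.sum_congr rfl
      intro j hj
      exact ext0_eq (Finset.subset_biUnion_of_mem S hj) (hdep j) (fld X ω)
    have e2 : (fun u : S k → ℝ => Y k (ext0 (S k) u)) ∘ (fun a (i : S k) => X i a) =
        fun ω => Y k (fld X ω) := by
      funext ω
      exact ext0_eq (Finset.Subset.refl _) (hdep k) (fld X ω)
    rw [e1, e2] at hind2
    have hmJ : Measurable (fun ω => ∑ j ∈ J, Y j (fld X ω)) :=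
      Finset.measurable_sum _ fun j _ => (hm j).comp hX.mfld
    have hmk : Measurable (fun ω => Y k (fld X ω)) := (hm k).comp hX.mfld
    have key := hind2.mgf_add' (t := 1) hmJ.aestronglyMeasurable hmk.aestronglyMeasurable
    have e3 : (fun ω => ∑ j ∈ insert k J, Y j (fld X ω)) =
        (fun ω => ∑ j ∈ J, Y j (fld X ω)) + fun ω => Y k (fld X ω) := by
      funext ω
      rw [Finset.sum_insert hk, Pi.add_apply, add_comm]
    rw [e3, key]
    have hk1 : mgf (fun ω => Y k (fld X ω)) P 1 ≤ Real.exp (2 * a) := by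
      have hint : Integrable (fun ω => Y k (fld X ω)) P :=
        Integrable.of_bound (C := 1) hmk.aestronglyMeasurable
          (ae_of_all _ fun ω => by rw [Real.norm_of_nonneg (h0 _ _)]; exact h1 _ _)
      calc mgf (fun ω => Y k (fld X ω)) P 1 ≤ ∫ ω, (1 + 2 * Y k (fld X ω)) ∂P := by
            unfold mgf
            apply integral_mono_of_nonneg
            · exact ae_of_all _ fun _ => (Real.exp_pos _).le
            · exact (integrable_const _).add (hint.const_mul 2)
            · exact ae_of_all _ fun ω => by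
                simp only [one_mul]
                exact exp_le_lin (h0 _ _) (h1 _ _)
        _ = 1 + 2 * ∫ ω, Y k (fld X ω) ∂P := by
            rw [integral_add (integrable_const _) (hint.const_mul 2), integral_const_mul]
            simp
        _ ≤ 1 + 2 * a := by linarith [ha k (Finset.mem_insert_self _ _)]
        _ ≤ Real.exp (2 * a) := by linarith [Real.add_one_le_exp (2 * a)]
    calc mgf (fun ω => ∑ j ∈ J, Y j (fld X ω)) P 1 * mgf (fun ω => Y k (fld X ω)) P 1
        ≤ Real.exp (2 * J.card * a) * Real.exp (2 * a) :=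
          mul_le_mul ih' hk1 mgf_nonneg (Real.exp_pos _).le
      _ = Real.exp (2 * (insert k J).card * a) := by
          rw [← Real.exp_add, Finset.card_insert_of_notMem hk]
          congr 1; push_cast; ring

/-- Chernoff bound for sums of independent local functions -/
theorem IsEnv.chernoff (hX : IsEnv P X) (J : Finset ℕ) (S : ℕ → Finset (Sym2 V))
    (Y : ℕ → W → ℝ)
    (hd : ∀ i ∈ J, ∀ j ∈ J, i ≠ j → Disjoint (S i) (S j)) (hm : ∀ j, Measurable (Y j))
    (hdep : ∀ j, Dep (S j) (Y j)) {b : ℝ} (hb : 0 < b) (h0 : ∀ j w, 0 ≤ Y j w)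
    (h1 : ∀ j w, Y j w ≤ b) {a : ℝ} (ha : ∀ j ∈ J, ∫ ω, Y j (fld X ω) ∂P ≤ a) (x : ℝ) :
    P.real {ω | 2 * J.card * a + b * x ≤ ∑ j ∈ J, Y j (fld X ω)} ≤ Real.exp (-x) := by
  have hP := hX.prob
  have key := hX.mgf_local J S (fun j w => Y j w / b) hd (fun j => (hm j).div_const b)
    (fun j w w' h => by simp only; rw [hdep j w w' h]) (fun j w => div_nonneg (h0 j w) hb.le)
    (fun j w => by rw [div_le_one hb]; exact h1 j w) (a := a / b) (fun j hj => by
      rw [integral_div]
      exact div_le_div_of_nonneg_right (ha j hj) hb.le)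
  have hmJ : Measurable (fun ω => ∑ j ∈ J, Y j (fld X ω) / b) :=
    Finset.measurable_sum _ fun j _ => ((hm j).div_const b).comp hX.mfld
  have hint : Integrable (fun ω => Real.exp (1 * ∑ j ∈ J, Y j (fld X ω) / b)) P := by
    apply Integrable.of_bound (C := Real.exp J.card)
    · exact (Real.measurable_exp.comp (hmJ.const_mul 1)).aestronglyMeasurable
    · refine ae_of_all _ fun ω => ?_
      rw [Real.norm_eq_abs, abs_of_pos (Real.exp_pos _), Real.exp_le_exp, one_mul]
      calc ∑ j ∈ J, Y j (fld X ω) / b ≤ ∑ j ∈ J, (1 : ℝ) := by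
            apply Finset.sum_le_sum
            intro j _
            rw [div_le_one hb]; exact h1 _ _
        _ = J.card := by simp
  have h2 := measure_ge_le_exp_mul_mgf (μ := P) (X := fun ω => ∑ j ∈ J, Y j (fld X ω) / b) (t := 1)
    (2 * J.card * (a / b) + x) zero_le_one hint
  have h3 : {ω | 2 * J.card * a + b * x ≤ ∑ j ∈ J, Y j (fld X ω)} =
      {ω | 2 * J.card * (a / b) + x ≤ ∑ j ∈ J, Y j (fld X ω) / b} := by
    ext ω
    simp only [Set.mem_ofPred_eq]
    rw [← Finset.sum_div, le_div_iff₀ hb]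
    have : (2 * J.card * (a / b) + x) * b = 2 * J.card * a + b * x := by field_simp
    rw [this]
  rw [h3]
  refine h2.trans ?_
  calc Real.exp (-1 * (2 * J.card * (a / b) + x)) *
        mgf (fun ω => ∑ j ∈ J, Y j (fld X ω) / b) P 1
      ≤ Real.exp (-1 * (2 * J.card * (a / b) + x)) * Real.exp (2 * J.card * (a / b)) := by
        gcongr
    _ = Real.exp (-x) := by rw [← Real.exp_add]; congr 1; ring

/-- if far points take long, then the passage time is attained in a box -/
theorem local_eq {w : W} (hw : ∀ e, 0 ≤ w e) {x y : V} {R : ℕ} {s : ℝ}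
    (hfar : ∀ z : V, R ≤ l1 (z - x) → s ≤ tau w Set.univ x z) (hs : tau w Set.univ x y < s) :
    tau w (box x R) x y ≤ tau w Set.univ x y := by
  apply le_of_forall_pos_le_add
  intro ε hε
  obtain ⟨n, p, h0, h1, h2, -, h4⟩ := exists_walk (univ_nonempty w x y)
    (show tau w Set.univ x y < min s (tau w Set.univ x y + ε) from lt_min hs (by linarith))
  have hin : ∀ i ≤ n, p i ∈ box x R := by
    intro i hi
    apply mem_box
    by_contra hcon
    have h5 := hfar (p i) (by omega)
    have h6 := tau_le hw (B := Set.univ) (x := x) (y := p i) (n := i) (p := p) h0 rfl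
      (fun k hk => h2 k (by omega)) (fun _ _ => trivial)
    have h7 : ∑ k ∈ Finset.range i, w s(p k, p (k + 1)) ≤
        ∑ k ∈ Finset.range n, w s(p k, p (k + 1)) :=
      Finset.sum_le_sum_of_subset_of_nonneg (Finset.range_mono hi) fun _ _ _ => hw _
    have h8 := min_le_left s (tau w Set.univ x y + ε)
    linarith
  have h5 := tau_le hw (B := box x R) h0 h1 h2 (fun i hi => by exact_mod_cast hin i hi)
  have h8 := min_le_right s (tau w Set.univ x y + ε)
  linarith

/-- far points take long, from any starting point -/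
theorem IsEnv.far' (hX : IsEnv P X) (x : V) (n : ℕ) :
    P {ω | ∃ z : V, n ≤ l1 (z - x) ∧ tau (fld X ω) Set.univ x z < (n : ℝ) / 200} ≤
      ENNReal.ofReal ((16 / 25 : ℝ) ^ n) := by
  refine le_trans (le_of_eq ?_) (hX.far n)
  have hm : MeasurableSet {w : W | ∃ z : V, n ≤ l1 z ∧ tau w Set.univ 0 z < (n : ℝ) / 200} := by
    have : {w : W | ∃ z : V, n ≤ l1 z ∧ tau w Set.univ 0 z < (n : ℝ) / 200} =
        ⋃ z : V, ⋃ _ : n ≤ l1 z, {w : W | tau w Set.univ 0 z < (n : ℝ) / 200} := by
      ext w; simp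
    rw [this]
    refine MeasurableSet.iUnion fun z => MeasurableSet.iUnion fun _ => ?_
    exact measurableSet_lt (meas_tau _ _ _) measurable_const
  have h := hX.prob_shift x hm
  simp only [Set.mem_ofPred_eq, tau_shift, zero_add] at h
  rw [← h]
  congr 1
  ext ω
  simp only [Set.mem_ofPred_eq]
  constructor
  · rintro ⟨z, h1, h2⟩
    exact ⟨z - x, h1, by rw [sub_add_cancel]; exact h2⟩
  · rintro ⟨z, h1, h2⟩
    exact ⟨z + x, by rw [add_sub_cancel_right]; exact h1, h2⟩

end Pool.Agent.Q231.FP
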