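import Pool.Agent.Q231.FP.Iter

set_option autoImplicit false

/-!
# The outer half and the mean
-/

namespace Pool.Agent.Q231.FP

open MeasureTheory ProbabilityTheory Filter Topology Asymptotics
open scoped ENNReal Pointwise

variable {Ω : Type*} [MeasurableSpace Ω] {P : Measure Ω} {X : Sym2 V → Ω → ℝ} {μ : ℝ × ℝ → ℝ}

/-- the mean is close to the time constant -/
def MeanUp (P : Measure Ω) (X : Sym2 V → Ω → ℝ) (μ : ℝ × ℝ → ℝ) (χ : ℝ) : Prop :=
  ∀ ε : ℝ, 0 < ε → ∃ C : ℝ, 0 ≤ C ∧ ∀ v : V,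
    ∫ ω, tau (fld X ω) Set.univ 0 v ∂P ≤ μ (cv v) + C * (1 + (l1 v : ℝ)) ^ (χ + ε)

theorem IsFPP.meanUp_of_dev (hF : IsFPP P X μ) {χ : ℝ} (h : MeanDev P X μ χ) : MeanUp P X μ χ := by
  have hP := hF.env.prob
  intro ε hε
  obtain ⟨C, hC0, hC⟩ := h ε hε
  refine ⟨C, hC0, fun v => ?_⟩
  have hs : Integrable (fun ω => tau (fld X ω) Set.univ 0 v - μ (cv v)) P :=
    (hF.integrable v).sub (integrable_const _)
  have h1 : ∫ ω, (tau (fld X ω) Set.univ 0 v - μ (cv v)) ∂P ≤
      ∫ ω, |tau (fld X ω) Set.univ 0 v - μ (cv v)| ∂P :=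
    integral_mono hs hs.abs fun ω => le_abs_self _
  rw [integral_sub (hF.integrable v) (integrable_const _)] at h1
  simp only [integral_const, probReal_univ, smul_eq_mul, one_mul] at h1
  linarith [hC v]

/-- fast passage times contribute little to the mean -/
theorem IsFPP.deficit (hF : IsFPP P X μ) {χ : ℝ} (hχ : 0 < χ) (hf : Fast P X μ χ) (ε : ℝ)
    (hε : 0 < ε) : ∃ C : ℝ, 0 ≤ C ∧ ∀ v : V,
      Integrable (fun ω => max (μ (cv v) - tau (fld X ω) Set.univ 0 v) 0) P ∧
      ∫ ω, max (μ (cv v) - tau (fld X ω) Set.univ 0 v) 0 ∂P ≤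
        C * (1 + (l1 v : ℝ)) ^ (χ + ε) := by
  have hP := hF.env.prob
  obtain ⟨M, hM1, hM2, -⟩ := hF.upper
  obtain ⟨C, hC0, hC⟩ := hf ε hε (1 / (χ + ε)) (by positivity)
  refine ⟨1 + M * C, by positivity, fun v => ?_⟩
  set s0 := (1 + (l1 v : ℝ)) ^ (χ + ε) with hs0
  have hb : (1 : ℝ) ≤ 1 + (l1 v : ℝ) := by
    have : (0 : ℝ) ≤ l1 v := by positivity
    linarith
  have hs1 : 1 ≤ s0 := Real.one_le_rpow hb (by linarith)
  have hmu0 := hF.nonneg (cv v)
  have hmu := hM2 (cv v)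
  rw [nm_cv] at hmu
  have hm : Measurable (fun ω => max (μ (cv v) - tau (fld X ω) Set.univ 0 v) 0) :=
    ((hF.env.mtau _ _ _).const_sub _).max measurable_const
  have hint : Integrable (fun ω => max (μ (cv v) - tau (fld X ω) Set.univ 0 v) 0) P := by
    apply Integrable.of_bound (C := μ (cv v)) hm.aestronglyMeasurable
    filter_upwards [hF.env.ae_nonneg] with ω hω
    rw [Real.norm_of_nonneg (le_max_right _ _)]
    exact max_le (by linarith [tau_nonneg hω Set.univ 0 v]) hmu0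
  refine ⟨hint, ?_⟩
  set B : Set Ω := {ω | tau (fld X ω) Set.univ 0 v < μ (cv v) - s0} with hB
  have hBm : MeasurableSet B := measurableSet_lt (hF.env.mtau _ _ _) measurable_const
  have h1 : ∫ ω, max (μ (cv v) - tau (fld X ω) Set.univ 0 v) 0 ∂P ≤
      ∫ ω, (s0 + B.indicator (fun _ => μ (cv v)) ω) ∂P := by
    apply integral_mono_ae hint ((integrable_const _).add ((integrable_const _).indicator hBm))
    filter_upwards [hF.env.ae_nonneg] with ω hω
    change max (μ (cv v) - tau (fld X ω) Set.univ 0 v) 0 ≤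
      s0 + B.indicator (fun _ => μ (cv v)) ω
    rw [Set.indicator_apply]
    split_ifs with h
    · refine max_le ?_ (by linarith)
      linarith [tau_nonneg hω Set.univ 0 v]
    · have h2 : μ (cv v) - s0 ≤ tau (fld X ω) Set.univ 0 v := not_lt.mp h
      exact max_le (by linarith) (by linarith)
  have h2 : P.real B ≤ C * (1 + (l1 v : ℝ))⁻¹ := by
    refine (hC v s0 le_rfl).trans (le_of_eq ?_)
    rw [hs0, ← Real.rpow_mul (by positivity)]
    congr 1
    have : (χ + ε) * (-(1 / (χ + ε))) = -1 := by field_simp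
    rw [this, Real.rpow_neg_one]
  rw [integral_add (integrable_const _) ((integrable_const _).indicator hBm),
    integral_indicator_const _ hBm] at h1
  simp only [integral_const, probReal_univ, smul_eq_mul, one_mul] at h1
  have h3 : P.real B * μ (cv v) ≤ M * C := by
    calc P.real B * μ (cv v) ≤ (C * (1 + (l1 v : ℝ))⁻¹) * (M * (1 + (l1 v : ℝ))) := by
          apply mul_le_mul h2 _ hmu0 (by positivity)
          nlinarith
      _ = M * C := by field_simp
  nlinarith [mul_nonneg (mul_nonneg (show (0:ℝ) ≤ M by linarith) hC0)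
    (show (0:ℝ) ≤ s0 - 1 by linarith)]

theorem IsFPP.dev_of_fast (hF : IsFPP P X μ) {χ : ℝ} (hχ : 0 < χ) (hf : Fast P X μ χ)
    (hu : MeanUp P X μ χ) : MeanDev P X μ χ := by
  have hP := hF.env.prob
  intro ε hε
  obtain ⟨C, hC0, hC⟩ := hF.deficit hχ hf ε hε
  obtain ⟨C', hC'0, hC'⟩ := hu ε hε
  refine ⟨2 * C + C', by positivity, fun v => ?_⟩
  obtain ⟨hi, hle⟩ := hC v
  have h1 : ∀ ω, |tau (fld X ω) Set.univ 0 v - μ (cv v)| =
      2 * max (μ (cv v) - tau (fld X ω) Set.univ 0 v) 0 +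
        (tau (fld X ω) Set.univ 0 v - μ (cv v)) := by
    intro ω
    rcases le_total 0 (tau (fld X ω) Set.univ 0 v - μ (cv v)) with h | h
    · rw [abs_of_nonneg h, max_eq_right (by linarith)]; ring
    · rw [abs_of_nonpos h, max_eq_left (by linarith)]; ring
  simp_rw [h1]
  have hs : Integrable (fun ω => tau (fld X ω) Set.univ 0 v - μ (cv v)) P :=
    (hF.integrable v).sub (integrable_const _)
  rw [integral_add (hi.const_mul 2) hs,
    integral_const_mul, integral_sub (hF.integrable v) (integrable_const _)]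
  simp only [integral_const, probReal_univ, smul_eq_mul, one_mul]
  have := hC' v
  nlinarith

theorem IsFPP.inner_iff (hF : IsFPP P X μ) : Inner P X μ ↔ MeanDev P X μ (1 / 3) := by
  rw [← hF.slow_iff (by norm_num) (by norm_num)]
  exact ⟨hF.slow_of_inner, hF.inner_of_slow⟩

theorem IsFPP.both_iff (hF : IsFPP P X μ) :
    (Outer P X μ ∧ Inner P X μ) ↔ (Outer P X μ ∧ MeanUp P X μ (1 / 3)) := by
  constructor
  · rintro ⟨h1, h2⟩
    exact ⟨h1, hF.meanUp_of_dev (hF.inner_iff.mp h2)⟩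
  · rintro ⟨h1, h2⟩
    exact ⟨h1, hF.inner_iff.mpr (hF.dev_of_fast (by norm_num) (hF.fast_of_outer h1) h2)⟩

end Pool.Agent.Q231.FP
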