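import Pool.Agent.Q231.FP.Prob

set_option autoImplicit false

/-!
# Lattice first-passage percolation: the time constant is a norm
-/

namespace Pool.Agent.Q231.FP

open MeasureTheory ProbabilityTheory Filter Topology
open scoped ENNReal

/-- lattice points as points of the plane -/
def cv (v : V) : ℝ × ℝ := ((v.1 : ℝ), (v.2 : ℝ))

/-- `ℓ¹` norm -/
def nm (x : ℝ × ℝ) : ℝ := |x.1| + |x.2|

theorem nm_nonneg (x : ℝ × ℝ) : 0 ≤ nm x := by unfold nm; positivity

theorem nm_cv (v : V) : nm (cv v) = l1 v := by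
  simp [nm, cv, l1]

theorem cv_add (u v : V) : cv (u + v) = cv u + cv v := by
  simp [cv]

theorem cv_sub (u v : V) : cv (u - v) = cv u - cv v := by
  simp [cv]

theorem cv_zero : cv 0 = 0 := by simp [cv]

theorem cv_smul (n : ℤ) (v : V) : cv (n • v) = (n : ℝ) • cv v := by
  simp [cv]

theorem l1_smul (n : ℕ) (v : V) : l1 ((n : ℤ) • v) = n * l1 v := by
  simp [l1, Int.natAbs_mul, mul_add]

theorem nm_add (x y : ℝ × ℝ) : nm (x + y) ≤ nm x + nm y := by
  unfold nm
  have := abs_add_le x.1 y.1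
  have := abs_add_le x.2 y.2
  simp only [Prod.fst_add, Prod.snd_add]
  linarith

theorem nm_smul (c : ℝ) (x : ℝ × ℝ) : nm (c • x) = |c| * nm x := by
  simp [nm, abs_mul, mul_add]

theorem nm_neg (x : ℝ × ℝ) : nm (-x) = nm x := by simp [nm]

/-- first-passage percolation with time constant `μ` -/
structure IsFPP {Ω : Type*} [MeasurableSpace Ω] (P : Measure Ω) (X : Sym2 V → Ω → ℝ)
    (μ : ℝ × ℝ → ℝ) : Prop where
  env : IsEnv P X
  homog : ∀ (x : ℝ × ℝ) (c : ℝ), 0 ≤ c → μ (c • x) = c * μ x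
  cont : Continuous μ
  lim : ∀ z : V, ∀ᵐ ω ∂P, Tendsto (fun n : ℕ =>
    tau (fld X ω) Set.univ 0 ((n : ℤ) • z) / (n : ℝ)) atTop (𝓝 (μ (cv z)))

variable {Ω : Type*} [MeasurableSpace Ω] {P : Measure Ω} {X : Sym2 V → Ω → ℝ} {μ : ℝ × ℝ → ℝ}
  (hF : IsFPP P X μ)

include hF

theorem IsFPP.zero : μ 0 = 0 := by
  have := hF.homog 0 0 le_rfl
  simpa using this

theorem IsFPP.lower_int (z : V) : (l1 z : ℝ) / 200 ≤ μ (cv z) := by
  have hP := hF.env.prob
  have h1 : ∀ n : ℕ, P {ω | tau (fld X ω) Set.univ 0 ((n : ℤ) • z) <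
      ((n * l1 z : ℕ) : ℝ) / 200} ≤ ENNReal.ofReal ((16 / 25 : ℝ) ^ (n * l1 z)) := by
    intro n
    refine (measure_mono ?_).trans (hF.env.far (n * l1 z))
    intro ω hω
    exact ⟨_, by rw [l1_smul], hω⟩
  rcases Nat.eq_zero_or_pos (l1 z) with h0 | h0
  · have hz : z = 0 := by
      unfold l1 at h0
      have a : z.1 = 0 := by omega
      have b : z.2 = 0 := by omega
      exact Prod.ext a b
    rw [h0, hz, cv_zero, hF.zero]; simp
  have hsum : ∑' n : ℕ, P {ω | tau (fld X ω) Set.univ 0 ((n : ℤ) • z) <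
      ((n * l1 z : ℕ) : ℝ) / 200} ≠ ∞ := by
    apply ne_top_of_le_ne_top _ (ENNReal.tsum_le_tsum h1)
    have hs : Summable (fun n : ℕ => ((16 / 25 : ℝ) ^ (n * l1 z))) := by
      have : ∀ n : ℕ, ((16 / 25 : ℝ) ^ (n * l1 z)) = ((16 / 25 : ℝ) ^ (l1 z)) ^ n := by
        intro n; rw [← pow_mul, mul_comm]
      simp_rw [this]
      apply summable_geometric_of_lt_one (by positivity)
      exact pow_lt_one₀ (by norm_num) (by norm_num) (by omega)
    rw [← ENNReal.ofReal_tsum_of_nonneg (fun n => by positivity) hs]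
    exact ENNReal.ofReal_ne_top
  have h2 := ae_eventually_notMem hsum
  obtain ⟨ω, ha, hb⟩ := (h2.and (hF.lim z)).exists
  apply ge_of_tendsto hb
  filter_upwards [ha, eventually_gt_atTop 0] with n hn hpos
  have hn' : ((n * l1 z : ℕ) : ℝ) / 200 ≤ tau (fld X ω) Set.univ 0 ((n : ℤ) • z) := not_lt.mp hn
  rw [le_div_iff₀ (by exact_mod_cast hpos)]
  push_cast at hn'
  linarith

theorem IsFPP.inMeas (z : V) {δ : ℝ} (hδ : 0 < δ) :
    Tendsto (fun n : ℕ => P {ω | δ ≤ |tau (fld X ω) Set.univ 0 ((n : ℤ) • z) / (n : ℝ) -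
      μ (cv z)|}) atTop (𝓝 0) := by
  have hP := hF.env.prob
  have h := tendstoInMeasure_of_tendsto_ae (μ := P)
    (f := fun (n : ℕ) ω => tau (fld X ω) Set.univ 0 ((n : ℤ) • z) / (n : ℝ))
    (g := fun _ => μ (cv z))
    (fun n => ((hF.env.mtau _ _ _).div_const _).aestronglyMeasurable) (hF.lim z)
  rw [tendstoInMeasure_iff_norm] at h
  exact h δ hδ

theorem IsFPP.sub_int (u v : V) : μ (cv (u + v)) ≤ μ (cv u) + μ (cv v) := by
  have hP := hF.env.prob
  by_contra hcon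
  push Not at hcon
  set δ := (μ (cv (u + v)) - (μ (cv u) + μ (cv v))) / 4 with hδ
  have hδ0 : 0 < δ := by rw [hδ]; linarith
  have h1 := hF.inMeas (u + v) hδ0
  have h2 := hF.inMeas u hδ0
  have h3 := hF.inMeas v hδ0
  have h4 := (h1.add h2).add h3
  rw [add_zero, add_zero] at h4
  have h5 := (h4.eventually (gt_mem_nhds (show (0 : ℝ≥0∞) < 1 by norm_num))).and
    (eventually_gt_atTop 0)
  obtain ⟨n, hn, hpos⟩ := h5.exists
  have hn0 : (0 : ℝ) < n := by exact_mod_cast hpos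
  apply absurd hn
  push Not
  have hlaw : P {ω | δ ≤ |tau (fld X ω) Set.univ ((n : ℤ) • u) ((n : ℤ) • (u + v)) / (n : ℝ) -
      μ (cv v)|} = P {ω | δ ≤ |tau (fld X ω) Set.univ 0 ((n : ℤ) • v) / (n : ℝ) - μ (cv v)|} := by
    have := hF.env.tau_law ((n : ℤ) • u) ((n : ℤ) • (u + v))
      (A := {t : ℝ | δ ≤ |t / (n : ℝ) - μ (cv v)|})
      (measurableSet_le measurable_const (by fun_prop))
    rw [smul_add, add_sub_cancel_left] at this
    rw [smul_add]
    exact this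
  rw [← hlaw]
  refine le_trans ?_ (add_le_add (measure_union_le _ _) le_rfl)
  refine le_trans ?_ (measure_union_le _ _)
  rw [← measure_univ (μ := P)]
  apply measure_mono_ae
  filter_upwards [hF.env.ae_nonneg] with ω hω _
  by_contra hno
  have b1 : ¬ (δ ≤ |tau (fld X ω) Set.univ 0 ((n : ℤ) • (u + v)) / (n : ℝ) - μ (cv (u + v))|) :=
    fun h => hno (Or.inl (Or.inl h))
  have b2 : ¬ (δ ≤ |tau (fld X ω) Set.univ 0 ((n : ℤ) • u) / (n : ℝ) - μ (cv u)|) :=
    fun h => hno (Or.inl (Or.inr h))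
  have b3 : ¬ (δ ≤ |tau (fld X ω) Set.univ ((n : ℤ) • u) ((n : ℤ) • (u + v)) / (n : ℝ) -
      μ (cv v)|) := fun h => hno (Or.inr h)
  have a1 := abs_lt.mp (not_le.mp b1)
  have a2 := abs_lt.mp (not_le.mp b2)
  have a3 := abs_lt.mp (not_le.mp b3)
  have tri := tau_tri hω 0 ((n : ℤ) • u) ((n : ℤ) • (u + v))
  have b : tau (fld X ω) Set.univ 0 ((n : ℤ) • (u + v)) / n ≤
      tau (fld X ω) Set.univ 0 ((n : ℤ) • u) / n +
        tau (fld X ω) Set.univ ((n : ℤ) • u) ((n : ℤ) • (u + v)) / n := by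
    rw [← add_div]
    gcongr
  linarith [a1.1, a2.2, a3.2]

omit hF in
/-- integer points near multiples of `x` -/
theorem approx (x : ℝ × ℝ) : Tendsto (fun n : ℕ => ((n : ℝ))⁻¹ •
    cv (⌊(n : ℝ) * x.1⌋, ⌊(n : ℝ) * x.2⌋)) atTop (𝓝 x) := by
  have key : ∀ a : ℝ, Tendsto (fun n : ℕ => ((n : ℝ))⁻¹ * (⌊(n : ℝ) * a⌋ : ℝ)) atTop (𝓝 a) := by
    intro a
    have h := (tendsto_nat_floor_mul_div_atTop (R := ℝ) (a := |a|) (abs_nonneg a))
    have h0 : Tendsto (fun n : ℕ => a - ((n : ℝ))⁻¹) atTop (𝓝 a) := by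
      simpa using tendsto_const_nhds.sub (tendsto_inv_atTop_nhds_zero_nat (𝕜 := ℝ))
    refine tendsto_of_tendsto_of_tendsto_of_le_of_le' h0 tendsto_const_nhds ?_ ?_
    · filter_upwards [eventually_gt_atTop 0] with n hn
      have hn0 : (0 : ℝ) < n := by exact_mod_cast hn
      have := Int.lt_floor_add_one ((n : ℝ) * a)
      rw [← sub_nonneg]
      have : 0 ≤ ((n : ℝ))⁻¹ * ((⌊(n : ℝ) * a⌋ : ℝ) + 1 - n * a) := by
        apply mul_nonneg (by positivity); linarith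
      have e : ((n : ℝ))⁻¹ * ((⌊(n : ℝ) * a⌋ : ℝ) + 1 - n * a) =
          ((n : ℝ))⁻¹ * (⌊(n : ℝ) * a⌋ : ℝ) - (a - ((n : ℝ))⁻¹) := by
        field_simp
        ring
      rwa [e] at this
    · filter_upwards [eventually_gt_atTop 0] with n hn
      have hn0 : (0 : ℝ) < n := by exact_mod_cast hn
      have := Int.floor_le ((n : ℝ) * a)
      calc ((n : ℝ))⁻¹ * (⌊(n : ℝ) * a⌋ : ℝ) ≤ ((n : ℝ))⁻¹ * (n * a) := by gcongr
        _ = a := by field_simp
  exact (key x.1).prodMk_nhds (key x.2)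

theorem IsFPP.lim_mu (x : ℝ × ℝ) : Tendsto (fun n : ℕ => ((n : ℝ))⁻¹ *
    μ (cv (⌊(n : ℝ) * x.1⌋, ⌊(n : ℝ) * x.2⌋))) atTop (𝓝 (μ x)) := by
  have h := (hF.cont.tendsto x).comp (approx x)
  refine h.congr fun n => ?_
  simp only [Function.comp_apply]
  rw [hF.homog _ _ (by positivity)]

theorem IsFPP.lower (x : ℝ × ℝ) : nm x / 200 ≤ μ x := by
  have h1 := hF.lim_mu x
  have h2 : Tendsto (fun n : ℕ => nm (((n : ℝ))⁻¹ •
      cv (⌊(n : ℝ) * x.1⌋, ⌊(n : ℝ) * x.2⌋)) / 200) atTop (𝓝 (nm x / 200)) := by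
    have hc : Continuous nm := by unfold nm; fun_prop
    exact ((hc.tendsto x).comp (approx x)).div_const 200
  refine le_of_tendsto_of_tendsto' h2 h1 fun n => ?_
  rw [nm_smul, abs_of_nonneg (by positivity), nm_cv, mul_div_assoc]
  exact mul_le_mul_of_nonneg_left (hF.lower_int _) (by positivity)

theorem IsFPP.nonneg (x : ℝ × ℝ) : 0 ≤ μ x :=
  (div_nonneg (nm_nonneg x) (by norm_num)).trans (hF.lower x)

theorem IsFPP.sub (x y : ℝ × ℝ) : μ (x + y) ≤ μ x + μ y := by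
  have h1 := (hF.lim_mu x).add (hF.lim_mu y)
  have h2 : Tendsto (fun n : ℕ => μ (((n : ℝ))⁻¹ • cv (⌊(n : ℝ) * x.1⌋, ⌊(n : ℝ) * x.2⌋) +
      ((n : ℝ))⁻¹ • cv (⌊(n : ℝ) * y.1⌋, ⌊(n : ℝ) * y.2⌋))) atTop (𝓝 (μ (x + y))) :=
    (hF.cont.tendsto _).comp ((approx x).add (approx y))
  refine le_of_tendsto_of_tendsto' h2 h1 fun n => ?_
  rw [← smul_add, ← cv_add, hF.homog _ _ (by positivity), ← mul_add]
  exact mul_le_mul_of_nonneg_left (hF.sub_int _ _) (by positivity)

theorem IsFPP.upper : ∃ M : ℝ, 1 ≤ M ∧ (∀ x, μ x ≤ M * nm x) ∧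
    ∀ x y, |μ x - μ y| ≤ M * nm (x - y) := by
  set M := 1 + (μ (1, 0) + μ (-1, 0) + μ (0, 1) + μ (0, -1)) with hM
  have h1 := hF.nonneg (1, 0)
  have h2 := hF.nonneg (-1, 0)
  have h3 := hF.nonneg (0, 1)
  have h4 := hF.nonneg (0, -1)
  have key : ∀ x, μ x ≤ M * nm x := by
    rintro ⟨a, b⟩
    have ha : μ (a, 0) ≤ M * |a| := by
      rcases le_total 0 a with h | h
      · have := hF.homog (1, 0) a h
        simp only [Prod.smul_mk, smul_eq_mul, mul_one, mul_zero] at this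
        rw [this, abs_of_nonneg h, mul_comm]
        gcongr; linarith
      · have := hF.homog (-1, 0) (-a) (by linarith)
        simp only [Prod.smul_mk, smul_eq_mul, mul_neg, mul_one, neg_neg, mul_zero] at this
        rw [this, abs_of_nonpos h, mul_comm]
        gcongr
        · linarith
        · linarith
    have hb : μ (0, b) ≤ M * |b| := by
      rcases le_total 0 b with h | h
      · have := hF.homog (0, 1) b h
        simp only [Prod.smul_mk, smul_eq_mul, mul_one, mul_zero] at this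
        rw [this, abs_of_nonneg h, mul_comm]
        gcongr; linarith
      · have := hF.homog (0, -1) (-b) (by linarith)
        simp only [Prod.smul_mk, smul_eq_mul, mul_neg, mul_one, neg_neg, mul_zero] at this
        rw [this, abs_of_nonpos h, mul_comm]
        gcongr
        · linarith
        · linarith
    have := hF.sub (a, 0) (0, b)
    simp only [Prod.mk_add_mk, add_zero, zero_add] at this
    simp only [nm]
    linarith
  refine ⟨M, by linarith, key, fun x y => ?_⟩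
  rw [abs_le]
  have e1 := hF.sub y (x - y)
  have e2 := hF.sub x (y - x)
  rw [add_sub_cancel] at e1 e2
  have e3 := key (x - y)
  have e4 := key (y - x)
  rw [← neg_sub x y, nm_neg, neg_sub] at e4
  constructor <;> linarith

end Pool.Agent.Q231.FP
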