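import Pool.Agent.Q231.FP.Mu

set_option autoImplicit false

/-!
# Shape fluctuations and point-to-point fluctuations
-/

namespace Pool.Agent.Q231.FP

open MeasureTheory ProbabilityTheory Filter Topology Asymptotics
open scoped ENNReal Pointwise

theorem ev_pow {a b : ℝ} (K c : ℝ) (ha : 0 < a) (hab : b < a) :
    ∀ᶠ t : ℝ in atTop, K * t ^ b + c ≤ t ^ a := by
  have h1 : Tendsto (fun t : ℝ => K * t ^ (-(a - b))) atTop (𝓝 (K * 0)) :=
    (tendsto_rpow_neg_atTop (by linarith)).const_mul K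
  rw [mul_zero] at h1
  filter_upwards [h1.eventually (gt_mem_nhds (show (0 : ℝ) < 1 / 2 by norm_num)),
    (tendsto_rpow_atTop ha).eventually_ge_atTop (2 * c), eventually_gt_atTop 0] with t h2 h3 h4
  have h5 : K * t ^ b = (K * t ^ (-(a - b))) * t ^ a := by
    rw [mul_assoc, ← Real.rpow_add h4]; congr 2; ring
  have h6 : 0 < t ^ a := Real.rpow_pos_of_pos h4 _
  rw [h5]
  nlinarith

variable {Ω : Type*} [MeasurableSpace Ω]

/-- passage times longer than expected are unlikely -/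
def Slow (P : Measure Ω) (X : Sym2 V → Ω → ℝ) (μ : ℝ × ℝ → ℝ) (κ : ℝ) : Prop :=
  ∀ ε : ℝ, 0 < ε → ∀ q : ℝ, 0 < q → ∃ C : ℝ, 0 ≤ C ∧ ∀ (v : V) (s : ℝ), (1 + (l1 v : ℝ)) ^ (κ + ε) ≤ s →
    P.real {ω | μ (cv v) + s < tau (fld X ω) Set.univ 0 v} ≤ C * s ^ (-q)

/-- passage times shorter than expected are unlikely -/
def Fast (P : Measure Ω) (X : Sym2 V → Ω → ℝ) (μ : ℝ × ℝ → ℝ) (κ : ℝ) : Prop :=
  ∀ ε : ℝ, 0 < ε → ∀ q : ℝ, 0 < q → ∃ C : ℝ, 0 ≤ C ∧ ∀ (v : V) (s : ℝ), (1 + (l1 v : ℝ)) ^ (κ + ε) ≤ s →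
    P.real {ω | tau (fld X ω) Set.univ 0 v < μ (cv v) - s} ≤ C * s ^ (-q)

/-- the fattened cluster -/
def fat (X : Sym2 V → Ω → ℝ) (ω : Ω) (t : ℝ) : Set (ℝ × ℝ) :=
  {x | ∃ v : V, tau (fld X ω) Set.univ 0 v ≤ t ∧ |x.1 - (v.1 : ℝ)| ≤ 1 / 2 ∧
    |x.2 - (v.2 : ℝ)| ≤ 1 / 2}

/-- the inner estimate fails -/
def BI (X : Sym2 V → Ω → ℝ) (μ : ℝ × ℝ → ℝ) (ζ t : ℝ) : Set Ω :=
  {ω | ¬ (((1 - t ^ (-(2 / 3 : ℝ) + ζ)) * t) • {x : ℝ × ℝ | μ x ≤ 1} ⊆ fat X ω t)}

/-- the outer estimate fails -/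
def BO (X : Sym2 V → Ω → ℝ) (μ : ℝ × ℝ → ℝ) (ζ t : ℝ) : Set Ω :=
  {ω | ¬ (fat X ω t ⊆ ((1 + t ^ (-(2 / 3 : ℝ) + ζ)) * t) • {x : ℝ × ℝ | μ x ≤ 1})}

variable {P : Measure Ω} {X : Sym2 V → Ω → ℝ} {μ : ℝ × ℝ → ℝ}

theorem of_large {κ q : ℝ} {f : V → ℝ → ℝ} (hκ : 0 ≤ κ) (hq : 0 < q) (hf : ∀ v s, f v s ≤ 1)
    (h : ∃ C : ℝ, ∃ s0 : ℝ, 0 ≤ C ∧ ∀ (v : V) (s : ℝ), s0 ≤ s → (1 + (l1 v : ℝ)) ^ κ ≤ s →
      f v s ≤ C * s ^ (-q)) :
    ∃ C : ℝ, 0 ≤ C ∧ ∀ (v : V) (s : ℝ), (1 + (l1 v : ℝ)) ^ κ ≤ s → f v s ≤ C * s ^ (-q) := by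
  obtain ⟨C, s0, hC, h⟩ := h
  refine ⟨max C ((max s0 1) ^ q), le_max_of_le_left hC, fun v s hs => ?_⟩
  have h1 : 1 ≤ s := by
    refine le_trans ?_ hs
    exact Real.one_le_rpow (by have : (0 : ℝ) ≤ l1 v := by positivity
                               linarith) hκ
  have h2 : 0 < s ^ (-q) := Real.rpow_pos_of_pos (by linarith) _
  rcases le_or_gt s0 s with h3 | h3
  · refine (h v s h3 hs).trans ?_
    gcongr
    exact le_max_left _ _
  · refine (hf v s).trans ?_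
    calc (1 : ℝ) = s ^ q * s ^ (-q) := by
          rw [← Real.rpow_add (by linarith)]; simp
      _ ≤ max C ((max s0 1) ^ q) * s ^ (-q) := by
          gcongr
          refine le_trans ?_ (le_max_right _ _)
          gcongr
          exact h3.le.trans (le_max_left _ _)

/-- union bound over a box -/
theorem box_union [IsProbabilityMeasure P] {S : Set Ω} {A : V → Set Ω} {R δ : ℝ} (hR : 0 ≤ R)
    (h : ∀ᵐ ω ∂P, ω ∈ S → ∃ v : V, (l1 v : ℝ) ≤ R ∧ ω ∈ A v)
    (hδ : ∀ v : V, (l1 v : ℝ) ≤ R → P.real (A v) ≤ δ) :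
    P.real S ≤ (2 * R + 1) ^ 2 * δ := by
  classical
  have hδ0 : 0 ≤ δ := measureReal_nonneg.trans (hδ 0 (by rw [l1_zero]; simpa using hR))
  set N : ℤ := ⌊R⌋ with hN
  have hN0 : 0 ≤ N := Int.floor_nonneg.mpr hR
  set F : Finset V := (Finset.Icc (-N) N ×ˢ Finset.Icc (-N) N).filter
    (fun v => (l1 v : ℝ) ≤ R) with hFd
  have hsub : P S ≤ P (⋃ v ∈ F, A v) := by
    apply measure_mono_ae
    filter_upwards [h] with ω hω hS
    obtain ⟨v, hv, hA⟩ := hω hS
    refine Set.mem_iUnion₂.mpr ⟨v, ?_, hA⟩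
    rw [hFd, Finset.mem_filter]
    refine ⟨?_, hv⟩
    have h1 : (l1 v : ℤ) ≤ N := by
      rw [hN, Int.le_floor]; exact_mod_cast hv
    unfold l1 at h1
    rw [Finset.mem_product, Finset.mem_Icc, Finset.mem_Icc]
    omega
  have h2 : P.real S ≤ ∑ v ∈ F, P.real (A v) := by
    refine le_trans ?_ (measureReal_biUnion_finset_le _ _)
    exact ENNReal.toReal_mono (measure_ne_top _ _) hsub
  have h3 : ∑ v ∈ F, P.real (A v) ≤ F.card * δ := by
    rw [← nsmul_eq_mul, ← Finset.sum_const]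
    apply Finset.sum_le_sum
    intro v hv
    rw [hFd, Finset.mem_filter] at hv
    exact hδ v hv.2
  have h4 : (F.card : ℝ) ≤ (2 * R + 1) ^ 2 := by
    have : F.card ≤ ((2 * N + 1).toNat) ^ 2 := by
      refine (Finset.card_filter_le _ _).trans ?_
      rw [Finset.card_product, Int.card_Icc]
      apply le_of_eq
      rw [sq]
      congr 2 <;> ring_nf
    have h5 : (((2 * N + 1).toNat : ℕ) : ℝ) ≤ 2 * R + 1 := by
      have : (((2 * N + 1).toNat : ℕ) : ℤ) = 2 * N + 1 := Int.toNat_of_nonneg (by omega)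
      have h6 : (((2 * N + 1).toNat : ℕ) : ℝ) = 2 * (N : ℝ) + 1 := by exact_mod_cast this
      rw [h6]
      have := Int.floor_le R
      linarith
    calc (F.card : ℝ) ≤ (((2 * N + 1).toNat ^ 2 : ℕ) : ℝ) := by exact_mod_cast this
      _ = (((2 * N + 1).toNat : ℕ) : ℝ) ^ 2 := by push_cast; rfl
      _ ≤ (2 * R + 1) ^ 2 := by gcongr
  calc P.real S ≤ F.card * δ := h2.trans h3
    _ ≤ (2 * R + 1) ^ 2 * δ := by gcongr

theorem IsFPP.ball (hF : IsFPP P X μ) {r : ℝ} (hr : 0 < r) :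
    r • {x : ℝ × ℝ | μ x ≤ 1} = {x | μ x ≤ r} := by
  ext x
  rw [Set.mem_smul_set_iff_inv_smul_mem₀ hr.ne']
  simp only [Set.mem_ofPred_eq]
  rw [hF.homog _ _ (by positivity), inv_mul_le_iff₀ hr, mul_one]

theorem rad {t : ℝ} (ht : 0 < t) (ζ : ℝ) : t ^ (-(2 / 3 : ℝ) + ζ) * t = t ^ (1 / 3 + ζ) := by
  nth_rewrite 2 [← Real.rpow_one t]
  rw [← Real.rpow_add ht]; congr 1; ring

theorem rad_pos {t ζ : ℝ} (ht : 1 < t) (hζ : ζ < 2 / 3) : 0 < (1 - t ^ (-(2 / 3 : ℝ) + ζ)) * t := by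
  have : t ^ (-(2 / 3 : ℝ) + ζ) < 1 := Real.rpow_lt_one_of_one_lt_of_neg ht (by linarith)
  apply mul_pos <;> linarith

theorem IsFPP.memBI (hF : IsFPP P X μ) {t ζ : ℝ} (ht : 1 < t) (hζ : ζ < 2 / 3) {v : V} {ω : Ω}
    (hv : μ (cv v) ≤ t - t ^ (1 / 3 + ζ)) (hT : t < tau (fld X ω) Set.univ 0 v) :
    ω ∈ BI X μ ζ t := by
  intro hsub
  rw [hF.ball (rad_pos ht hζ)] at hsub
  have hmem : cv v ∈ {x | μ x ≤ (1 - t ^ (-(2 / 3 : ℝ) + ζ)) * t} := by
    simp only [Set.mem_ofPred_eq]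
    rw [sub_mul, one_mul, rad (by linarith)]
    exact hv
  obtain ⟨u, h1, h2, h3⟩ := hsub hmem
  have : u = v := by
    simp only [cv] at h2 h3
    have a : |v.1 - u.1| < 1 := by
      have : |(v.1 : ℝ) - u.1| < 1 := by linarith
      exact_mod_cast this
    have b : |v.2 - u.2| < 1 := by
      have : |(v.2 : ℝ) - u.2| < 1 := by linarith
      exact_mod_cast this
    rw [Int.abs_lt_one_iff] at a b
    exact Prod.ext (by omega) (by omega)
  rw [this] at h1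
  linarith

theorem IsFPP.ofBI (hF : IsFPP P X μ) {M : ℝ} (hM : 0 ≤ M)
    (hMl : ∀ x y, |μ x - μ y| ≤ M * nm (x - y)) {t ζ : ℝ}
    (ht : 1 < t) (hζ : ζ < 2 / 3) {ω : Ω} (h : ω ∈ BI X μ ζ t) :
    ∃ v : V, μ (cv v) ≤ t - t ^ (1 / 3 + ζ) + M ∧ t < tau (fld X ω) Set.univ 0 v := by
  unfold BI at h
  rw [hF.ball (rad_pos ht hζ)] at h
  simp only [Set.mem_ofPred_eq, Set.not_subset] at h
  obtain ⟨x, h1, h2⟩ := h
  have hr1 := abs_sub_round x.1
  have hr2 := abs_sub_round x.2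
  refine ⟨(round x.1, round x.2), ?_, ?_⟩
  · have h3 := (abs_le.mp (hMl x (cv (round x.1, round x.2)))).1
    have h4 : nm (x - cv (round x.1, round x.2)) ≤ 1 := by
      simp only [nm, cv, Prod.fst_sub, Prod.snd_sub]
      linarith
    rw [sub_mul, one_mul, rad (by linarith)] at h1
    nlinarith
  · by_contra hcon
    exact h2 ⟨(round x.1, round x.2), not_lt.mp hcon, hr1, hr2⟩

theorem IsFPP.memBO (hF : IsFPP P X μ) {t ζ : ℝ} (ht : 0 < t) {v : V} {ω : Ω}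
    (hv : t + t ^ (1 / 3 + ζ) < μ (cv v)) (hT : tau (fld X ω) Set.univ 0 v ≤ t) :
    ω ∈ BO X μ ζ t := by
  intro hsub
  have hp : 0 < (1 + t ^ (-(2 / 3 : ℝ) + ζ)) * t := by
    have := Real.rpow_pos_of_pos ht (-(2 / 3 : ℝ) + ζ)
    positivity
  rw [hF.ball hp] at hsub
  have := hsub (show cv v ∈ fat X ω t from ⟨v, hT, by simp [cv], by simp [cv]⟩)
  simp only [Set.mem_ofPred_eq] at this
  rw [add_mul, one_mul, rad ht] at this
  linarith

theorem IsFPP.ofBO (hF : IsFPP P X μ) {M : ℝ} (hM : 0 ≤ M)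
    (hMl : ∀ x y, |μ x - μ y| ≤ M * nm (x - y)) {t ζ : ℝ}
    (ht : 0 < t) {ω : Ω} (hω : ∀ e, 0 ≤ fld X ω e) (hpos : M ≤ t + t ^ (1 / 3 + ζ))
    (h : ω ∈ BO X μ ζ t) :
    ∃ v : V, t + t ^ (1 / 3 + ζ) - M < μ (cv v) ∧ μ (cv v) ≤ t + t ^ (1 / 3 + ζ) ∧
      tau (fld X ω) Set.univ 0 v < t + 1 := by
  classical
  have hp : 0 < (1 + t ^ (-(2 / 3 : ℝ) + ζ)) * t := by
    have := Real.rpow_pos_of_pos ht (-(2 / 3 : ℝ) + ζ)
    positivity
  unfold BO at h
  rw [hF.ball hp] at h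
  simp only [Set.mem_ofPred_eq, Set.not_subset] at h
  obtain ⟨x, ⟨v, h1, h2, h3⟩, h4⟩ := h
  simp only [Set.mem_ofPred_eq, not_le] at h4
  rw [add_mul, one_mul, rad ht] at h4
  have h5 : t + t ^ (1 / 3 + ζ) - M < μ (cv v) := by
    have h6 := (abs_le.mp (hMl x (cv v))).2
    have h7 : nm (x - cv v) ≤ 1 := by
      simp only [nm, cv, Prod.fst_sub, Prod.snd_sub]
      linarith
    nlinarith
  obtain ⟨n, p, p0, p1, p2, -, p4⟩ := exists_walk (univ_nonempty _ 0 v)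
    (show tau (fld X ω) Set.univ 0 v < t + 1 by linarith)
  have hex : ∃ i, t + t ^ (1 / 3 + ζ) - M < μ (cv (p i)) ∧ i ≤ n := ⟨n, by rw [p1]; exact h5, le_rfl⟩
  set i := Nat.find hex with hi
  obtain ⟨hi1, hi2⟩ := Nat.find_spec hex
  have hi0 : i ≠ 0 := by
    intro h0
    rw [← hi, h0, p0, cv_zero, hF.zero] at hi1
    linarith
  obtain ⟨j, hj⟩ := Nat.exists_eq_succ_of_ne_zero hi0
  have hjlt : ¬ (t + t ^ (1 / 3 + ζ) - M < μ (cv (p j)) ∧ j ≤ n) :=
    Nat.find_min hex (by rw [← hi]; omega)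
  refine ⟨p i, hi1, ?_, ?_⟩
  · have hj2 : μ (cv (p j)) ≤ t + t ^ (1 / 3 + ζ) - M := by
      by_contra hcon
      exact hjlt ⟨not_le.mp hcon, by omega⟩
    have h6 := (abs_le.mp (hMl (cv (p i)) (cv (p j)))).2
    have h7 : nm (cv (p i) - cv (p j)) = 1 := by
      rw [← cv_sub, nm_cv, hj, (p2 j (by omega)).l1]; simp
    rw [h7] at h6
    linarith
  · have h6 := tau_le hω (B := Set.univ) (x := 0) (y := p i) (n := i) (p := p) p0 rfl
      (fun k hk => p2 k (by omega)) (fun _ _ => trivial)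
    have h7 : ∑ k ∈ Finset.range i, fld X ω s(p k, p (k + 1)) ≤
        ∑ k ∈ Finset.range n, fld X ω s(p k, p (k + 1)) :=
      Finset.sum_le_sum_of_subset_of_nonneg (Finset.range_mono hi2) fun _ _ _ => hω _
    linarith

/-- the inner half of the shape estimate -/
def Inner (P : Measure Ω) (X : Sym2 V → Ω → ℝ) (μ : ℝ × ℝ → ℝ) : Prop :=
  ∀ ζ : ℝ, 0 < ζ → ζ < 2 / 3 → ∀ q : ℝ, 0 < q →
    (fun t : ℝ => (P (BI X μ ζ t)).toReal) =O[atTop] (fun t : ℝ => t ^ (-q))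

/-- the outer half of the shape estimate -/
def Outer (P : Measure Ω) (X : Sym2 V → Ω → ℝ) (μ : ℝ × ℝ → ℝ) : Prop :=
  ∀ ζ : ℝ, 0 < ζ → ζ < 2 / 3 → ∀ q : ℝ, 0 < q →
    (fun t : ℝ => (P (BO X μ ζ t)).toReal) =O[atTop] (fun t : ℝ => t ^ (-q))

/-- the power inequality behind the translation -/
theorem pow_small {a b M : ℝ} (hM : 1 ≤ M) (ha : 0 < a) (hb : 0 < b) (hb1 : b < 1) (hab : b < a) :
    ∃ s0 : ℝ, 1 ≤ s0 ∧ ∀ (n s : ℝ), 0 ≤ n → s0 ≤ s → (1 + n) ^ a ≤ s →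
      (M * n + s) ^ b < s / 2 := by
  have h1 := (ev_pow (a := 1) (b := b / a) (4 * M) 0 one_pos (by rw [div_lt_one ha]; exact hab)).and
    ((ev_pow (a := 1) (b := b) 8 0 one_pos hb1).and (eventually_ge_atTop 1))
  obtain ⟨s0, hs0⟩ := eventually_atTop.mp h1
  refine ⟨max s0 1, le_max_right _ _, fun n s hn hs hns => ?_⟩
  obtain ⟨e1, e2, e3⟩ := hs0 s ((le_max_left _ _).trans hs)
  rw [Real.rpow_one, add_zero] at e1 e2
  have h2 : (M * n + s) ^ b ≤ (M * (1 + n)) ^ b + s ^ b := by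
    refine le_trans ?_ (Real.rpow_add_le_add_rpow (by positivity) (by linarith) hb.le hb1.le)
    apply Real.rpow_le_rpow (by positivity) _ hb.le
    nlinarith
  have h3 : (M * (1 + n)) ^ b ≤ M * s ^ (b / a) := by
    rw [Real.mul_rpow (by linarith) (by linarith)]
    have e4 : M ^ b ≤ M := by
      calc M ^ b ≤ M ^ (1 : ℝ) := Real.rpow_le_rpow_of_exponent_le hM hb1.le
        _ = M := Real.rpow_one M
    have e5 : (1 + n) ^ b ≤ s ^ (b / a) := by
      calc (1 + n) ^ b = ((1 + n) ^ a) ^ (b / a) := by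
            rw [← Real.rpow_mul (by linarith)]; congr 1; field_simp
        _ ≤ s ^ (b / a) := by
            apply Real.rpow_le_rpow (by positivity) hns (by positivity)
    gcongr
  have : 0 < s ^ b := Real.rpow_pos_of_pos (by linarith) _
  nlinarith

theorem IsFPP.slow_of_inner (hF : IsFPP P X μ) (h : Inner P X μ) : Slow P X μ (1 / 3) := by
  have hP := hF.env.prob
  obtain ⟨M, hM1, hM2, -⟩ := hF.upper
  intro ε hε q hq
  set ζ := min (ε / 2) (1 / 3) with hζ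
  have hζ0 : 0 < ζ := lt_min (by linarith) (by norm_num)
  have hζ1 : ζ ≤ 1 / 3 := min_le_right _ _
  have hζ2 : ζ < ε := (min_le_left _ _).trans_lt (by linarith)
  obtain ⟨C, hC0, hC⟩ := (h ζ hζ0 (by linarith) q hq).exists_nonneg
  obtain ⟨t0, ht0⟩ := eventually_atTop.mp hC.bound
  obtain ⟨s1, hs1, hs2⟩ := pow_small hM1 (show 0 < 1 / 3 + ε by linarith)
    (show 0 < 1 / 3 + ζ by linarith) (by linarith) (by linarith)
  apply of_large (by linarith) hq (fun _ _ => measureReal_le_one)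
  refine ⟨C, max s1 (max t0 2), hC0, fun v s hs hvs => ?_⟩
  have a1 : s1 ≤ s := (le_max_left _ _).trans hs
  have a2 : t0 ≤ s := (le_max_left _ _).trans ((le_max_right _ _).trans hs)
  have a3 : 2 ≤ s := (le_max_right _ _).trans ((le_max_right _ _).trans hs)
  have hmu0 := hF.nonneg (cv v)
  have hmu := hM2 (cv v)
  rw [nm_cv] at hmu
  have hp := hs2 (l1 v) s (by positivity) a1 hvs
  set t := μ (cv v) + s with ht
  have h1 : t ^ (1 / 3 + ζ) ≤ s := by
    have : t ^ (1 / 3 + ζ) ≤ (M * l1 v + s) ^ (1 / 3 + ζ) :=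
      Real.rpow_le_rpow (by positivity) (by linarith) (by linarith)
    linarith
  have h2 := ht0 t (by linarith)
  rw [Real.norm_of_nonneg ENNReal.toReal_nonneg, Real.norm_of_nonneg
    (Real.rpow_nonneg (by linarith) _)] at h2
  calc P.real {ω | t < tau (fld X ω) Set.univ 0 v} ≤ P.real (BI X μ ζ t) := by
        refine measureReal_mono ?_ (measure_ne_top _ _)
        intro ω hω
        exact hF.memBI (by linarith) (by linarith) (by linarith) hω
    _ ≤ C * t ^ (-q) := h2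
    _ ≤ C * s ^ (-q) := by
        apply mul_le_mul_of_nonneg_left _ hC0
        exact Real.rpow_le_rpow_of_nonpos (by linarith) (by linarith) (by linarith)

theorem IsFPP.fast_of_outer (hF : IsFPP P X μ) (h : Outer P X μ) : Fast P X μ (1 / 3) := by
  have hP := hF.env.prob
  obtain ⟨M, hM1, hM2, -⟩ := hF.upper
  intro ε hε q hq
  set ζ := min (ε / 2) (1 / 3) with hζ
  have hζ0 : 0 < ζ := lt_min (by linarith) (by norm_num)
  have hζ1 : ζ ≤ 1 / 3 := min_le_right _ _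
  have hζ2 : ζ < ε := (min_le_left _ _).trans_lt (by linarith)
  obtain ⟨C, hC0, hC⟩ := (h ζ hζ0 (by linarith) q hq).exists_nonneg
  obtain ⟨t0, ht0⟩ := eventually_atTop.mp hC.bound
  obtain ⟨s1, hs1, hs2⟩ := pow_small hM1 (show 0 < 1 / 3 + ε by linarith)
    (show 0 < 1 / 3 + ζ by linarith) (by linarith) (by linarith)
  apply of_large (by linarith) hq (fun _ _ => measureReal_le_one)
  refine ⟨C * 2 ^ q, max s1 (max (2 * t0) 2), by positivity, fun v s hs hvs => ?_⟩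
  have a1 : s1 ≤ s := (le_max_left _ _).trans hs
  have a2 : 2 * t0 ≤ s := (le_max_left _ _).trans ((le_max_right _ _).trans hs)
  have a3 : 2 ≤ s := (le_max_right _ _).trans ((le_max_right _ _).trans hs)
  have hmu0 := hF.nonneg (cv v)
  have hmu := hM2 (cv v)
  rw [nm_cv] at hmu
  have hp := hs2 (l1 v) s (by positivity) a1 hvs
  have hs0 : 0 < s ^ (-q) := Real.rpow_pos_of_pos (by linarith) _
  rcases le_or_gt (μ (cv v)) s with hle | hlt
  · have : P.real {ω | tau (fld X ω) Set.univ 0 v < μ (cv v) - s} = 0 := by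
      rw [measureReal_def, ENNReal.toReal_eq_zero_iff]
      left
      rw [← nonpos_iff_eq_zero, ← measure_empty (μ := P)]
      apply measure_mono_ae
      filter_upwards [hF.env.ae_nonneg] with ω hω hlt
      have h1 := tau_nonneg hω Set.univ 0 v
      have h2 : tau (fld X ω) Set.univ 0 v < μ (cv v) - s := hlt
      linarith
    rw [this]; positivity
  · set t := μ (cv v) - s / 2 with ht
    have htm : t ≤ M * l1 v + s := by linarith
    have h1 : t ^ (1 / 3 + ζ) < s / 2 := by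
      have : t ^ (1 / 3 + ζ) ≤ (M * l1 v + s) ^ (1 / 3 + ζ) :=
        Real.rpow_le_rpow (by linarith) htm (by linarith)
      linarith
    have h2 := ht0 t (by linarith)
    rw [Real.norm_of_nonneg ENNReal.toReal_nonneg, Real.norm_of_nonneg
      (Real.rpow_nonneg (by linarith) _)] at h2
    calc P.real {ω | tau (fld X ω) Set.univ 0 v < μ (cv v) - s} ≤ P.real (BO X μ ζ t) := by
          refine measureReal_mono ?_ (measure_ne_top _ _)
          intro ω hω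
          have hω' : tau (fld X ω) Set.univ 0 v < μ (cv v) - s := hω
          exact hF.memBO (by linarith) (by linarith) (by linarith)
      _ ≤ C * t ^ (-q) := h2
      _ ≤ C * (s / 2) ^ (-q) := by
          apply mul_le_mul_of_nonneg_left _ hC0
          exact Real.rpow_le_rpow_of_nonpos (by linarith) (by linarith) (by linarith)
      _ = C * 2 ^ q * s ^ (-q) := by
          rw [div_eq_mul_inv, Real.mul_rpow (by linarith) (by norm_num),
            Real.inv_rpow (by norm_num), Real.rpow_neg (by norm_num : (0 : ℝ) ≤ 2), inv_inv]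
          ring

theorem IsFPP.inner_of_slow (hF : IsFPP P X μ) (h : Slow P X μ (1 / 3)) : Inner P X μ := by
  have hP := hF.env.prob
  obtain ⟨M, hM1, hM2, hM3⟩ := hF.upper
  intro ζ hζ0 hζ1 q hq
  obtain ⟨C, hC0, hC⟩ := h (ζ / 2) (by linarith) (3 * (q + 2)) (by linarith)
  apply IsBigO.of_bound ((401 : ℝ) ^ 2 * C * 2 ^ (3 * (q + 2)))
  filter_upwards [eventually_ge_atTop (2 + M), ev_pow (a := 1 / 3 + ζ) (b := 1 / 3 + ζ / 2) 201 M
    (by linarith) (by linarith), ev_pow (a := 1 / 3 + ζ) (b := 0) 0 (2 * M) (by linarith)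
    (by linarith)] with t h1 h2 h3
  have ht0 : 0 < t := by linarith
  rw [Real.norm_of_nonneg ENNReal.toReal_nonneg, Real.norm_of_nonneg
    (Real.rpow_nonneg (by linarith) _)]
  rw [zero_mul, zero_add] at h3
  set s := t ^ (1 / 3 + ζ) - M with hs
  have hs1 : t ^ (1 / 3 : ℝ) / 2 ≤ s := by
    have : t ^ (1 / 3 : ℝ) ≤ t ^ (1 / 3 + ζ) :=
      Real.rpow_le_rpow_of_exponent_le (by linarith) (by linarith)
    linarith
  have key := box_union (P := P) (S := BI X μ ζ t)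
    (A := fun v => {ω | μ (cv v) + s < tau (fld X ω) Set.univ 0 v}) (R := 200 * t)
    (δ := C * s ^ (-(3 * (q + 2)))) (by positivity) (ae_of_all _ fun ω hω => by
      obtain ⟨v, hv1, hv2⟩ := hF.ofBI (by linarith) hM3 (by linarith) hζ1 hω
      refine ⟨v, ?_, ?_⟩
      · have := hF.lower (cv v)
        rw [nm_cv] at this
        have : 0 < t ^ (1 / 3 + ζ) := Real.rpow_pos_of_pos ht0 _
        linarith
      · change μ (cv v) + s < _
        linarith) (fun v hv => by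
      apply hC
      calc (1 + (l1 v : ℝ)) ^ (1 / 3 + ζ / 2) ≤ (201 * t) ^ (1 / 3 + ζ / 2) := by
            apply Real.rpow_le_rpow (by positivity) (by linarith) (by linarith)
        _ = 201 ^ (1 / 3 + ζ / 2) * t ^ (1 / 3 + ζ / 2) :=
            Real.mul_rpow (by norm_num) ht0.le
        _ ≤ 201 * t ^ (1 / 3 + ζ / 2) := by
            apply mul_le_mul_of_nonneg_right _ (Real.rpow_nonneg ht0.le _)
            calc (201 : ℝ) ^ (1 / 3 + ζ / 2) ≤ 201 ^ (1 : ℝ) :=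
                  Real.rpow_le_rpow_of_exponent_le (by norm_num) (by linarith)
              _ = 201 := Real.rpow_one _
        _ ≤ s := by linarith)
  refine key.trans ?_
  have e1 : (2 * (200 * t) + 1) ^ 2 ≤ 401 ^ 2 * t ^ 2 := by
    rw [← mul_pow]; gcongr; linarith
  have e2 : s ^ (-(3 * (q + 2))) ≤ 2 ^ (3 * (q + 2)) * t ^ (-(q + 2)) := by
    calc s ^ (-(3 * (q + 2))) ≤ (t ^ (1 / 3 : ℝ) / 2) ^ (-(3 * (q + 2))) :=
          Real.rpow_le_rpow_of_nonpos (by positivity) hs1 (by linarith)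
      _ = 2 ^ (3 * (q + 2)) * t ^ (-(q + 2)) := by
          rw [div_eq_mul_inv, Real.mul_rpow (by positivity) (by norm_num),
            Real.inv_rpow (by norm_num), Real.rpow_neg (by norm_num : (0 : ℝ) ≤ 2), inv_inv,
            ← Real.rpow_mul ht0.le, mul_comm]
          congr 2; ring
  calc (2 * (200 * t) + 1) ^ 2 * (C * s ^ (-(3 * (q + 2))))
      ≤ (401 ^ 2 * t ^ 2) * (C * (2 ^ (3 * (q + 2)) * t ^ (-(q + 2)))) := by
        have hs0 : 0 < s := lt_of_lt_of_le (by positivity) hs1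
        have : 0 ≤ s ^ (-(3 * (q + 2))) := Real.rpow_nonneg hs0.le _
        exact mul_le_mul e1 (mul_le_mul_of_nonneg_left e2 hC0) (by positivity) (by positivity)
    _ = 401 ^ 2 * C * 2 ^ (3 * (q + 2)) * (t ^ (2 : ℕ) * t ^ (-(q + 2))) := by ring
    _ = 401 ^ 2 * C * 2 ^ (3 * (q + 2)) * t ^ (-q) := by
        congr 1
        rw [← Real.rpow_natCast t 2, ← Real.rpow_add ht0]
        congr 1; push_cast; ring

theorem IsFPP.outer_of_fast (hF : IsFPP P X μ) (h : Fast P X μ (1 / 3)) : Outer P X μ := by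
  have hP := hF.env.prob
  obtain ⟨M, hM1, hM2, hM3⟩ := hF.upper
  intro ζ hζ0 hζ1 q hq
  obtain ⟨C, hC0, hC⟩ := h (ζ / 2) (by linarith) (3 * (q + 2)) (by linarith)
  apply IsBigO.of_bound ((801 : ℝ) ^ 2 * C * 2 ^ (3 * (q + 2)))
  filter_upwards [eventually_ge_atTop (2 + M), ev_pow (a := 1 / 3 + ζ) (b := 1 / 3 + ζ / 2) 401
    (M + 1) (by linarith) (by linarith), ev_pow (a := 1 / 3 + ζ) (b := 0) 0 (2 * (M + 1))
    (by linarith) (by linarith), ev_pow (a := 1) (b := 1 / 3 + ζ) 1 0 (by linarith)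
    (by linarith)] with t h1 h2 h3 h4
  rw [zero_mul, zero_add] at h3
  rw [Real.rpow_one, one_mul, add_zero] at h4
  have ht0 : 0 < t := by linarith
  rw [Real.norm_of_nonneg ENNReal.toReal_nonneg, Real.norm_of_nonneg
    (Real.rpow_nonneg ht0.le _)]
  have hp0 : 0 < t ^ (1 / 3 + ζ) := Real.rpow_pos_of_pos ht0 _
  set s := t ^ (1 / 3 + ζ) - (M + 1) with hs
  have hs1 : t ^ (1 / 3 : ℝ) / 2 ≤ s := by
    have : t ^ (1 / 3 : ℝ) ≤ t ^ (1 / 3 + ζ) :=
      Real.rpow_le_rpow_of_exponent_le (by linarith) (by linarith)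
    linarith
  have key := box_union (P := P) (S := BO X μ ζ t)
    (A := fun v => {ω | tau (fld X ω) Set.univ 0 v < μ (cv v) - s}) (R := 400 * t)
    (δ := C * s ^ (-(3 * (q + 2)))) (by positivity) (by
      filter_upwards [hF.env.ae_nonneg] with ω hω hmem
      obtain ⟨v, hv1, hv2, hv3⟩ := hF.ofBO (by linarith) hM3 ht0 hω (by linarith) hmem
      refine ⟨v, ?_, ?_⟩
      · have := hF.lower (cv v)
        rw [nm_cv] at this
        linarith
      · change _ < μ (cv v) - s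
        linarith) (fun v hv => by
      apply hC
      calc (1 + (l1 v : ℝ)) ^ (1 / 3 + ζ / 2) ≤ (401 * t) ^ (1 / 3 + ζ / 2) := by
            apply Real.rpow_le_rpow (by positivity) (by linarith) (by linarith)
        _ = 401 ^ (1 / 3 + ζ / 2) * t ^ (1 / 3 + ζ / 2) :=
            Real.mul_rpow (by norm_num) ht0.le
        _ ≤ 401 * t ^ (1 / 3 + ζ / 2) := by
            apply mul_le_mul_of_nonneg_right _ (Real.rpow_nonneg ht0.le _)
            calc (401 : ℝ) ^ (1 / 3 + ζ / 2) ≤ 401 ^ (1 : ℝ) :=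
                  Real.rpow_le_rpow_of_exponent_le (by norm_num) (by linarith)
              _ = 401 := Real.rpow_one _
        _ ≤ s := by linarith)
  refine key.trans ?_
  have e1 : (2 * (400 * t) + 1) ^ 2 ≤ 801 ^ 2 * t ^ 2 := by
    rw [← mul_pow]; gcongr; linarith
  have e2 : s ^ (-(3 * (q + 2))) ≤ 2 ^ (3 * (q + 2)) * t ^ (-(q + 2)) := by
    calc s ^ (-(3 * (q + 2))) ≤ (t ^ (1 / 3 : ℝ) / 2) ^ (-(3 * (q + 2))) :=
          Real.rpow_le_rpow_of_nonpos (by positivity) hs1 (by linarith)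
      _ = 2 ^ (3 * (q + 2)) * t ^ (-(q + 2)) := by
          rw [div_eq_mul_inv, Real.mul_rpow (by positivity) (by norm_num),
            Real.inv_rpow (by norm_num), Real.rpow_neg (by norm_num : (0 : ℝ) ≤ 2), inv_inv,
            ← Real.rpow_mul ht0.le, mul_comm]
          congr 2; ring
  calc (2 * (400 * t) + 1) ^ 2 * (C * s ^ (-(3 * (q + 2))))
      ≤ (801 ^ 2 * t ^ 2) * (C * (2 ^ (3 * (q + 2)) * t ^ (-(q + 2)))) := by
        have hs0 : 0 < s := lt_of_lt_of_le (by positivity) hs1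
        have : 0 ≤ s ^ (-(3 * (q + 2))) := Real.rpow_nonneg hs0.le _
        exact mul_le_mul e1 (mul_le_mul_of_nonneg_left e2 hC0) (by positivity) (by positivity)
    _ = 801 ^ 2 * C * 2 ^ (3 * (q + 2)) * (t ^ (2 : ℕ) * t ^ (-(q + 2))) := by ring
    _ = 801 ^ 2 * C * 2 ^ (3 * (q + 2)) * t ^ (-q) := by
        congr 1
        rw [← Real.rpow_natCast t 2, ← Real.rpow_add ht0]
        congr 1; push_cast; ring

end Pool.Agent.Q231.FP
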