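import Pool.Agent.Q231.FP.Det

set_option autoImplicit false

/-!
# Lattice first-passage percolation: the random weights
-/

namespace Pool.Agent.Q231.FP

open MeasureTheory ProbabilityTheory Filter Topology
open scoped ENNReal

/-- an encoded walk -/
def ext (j : Σ n : ℕ, (Fin (n + 1) → V)) (i : ℕ) : V :=
  j.2 ⟨min i j.1, Nat.lt_succ_of_le (min_le_right _ _)⟩

def Good (B : Set V) (x y : V) (j : Σ n : ℕ, (Fin (n + 1) → V)) : Prop :=
  ext j 0 = x ∧ ext j j.1 = y ∧ (∀ i < j.1, Adj (ext j i) (ext j (i + 1))) ∧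
    ∀ i ≤ j.1, ext j i ∈ B

theorem sums_eq (w : W) (B : Set V) (x y : V) : sums w B x y =
    Set.range (fun j : {j // Good B x y j} =>
      ∑ i ∈ Finset.range j.1.1, w s(ext j.1 i, ext j.1 (i + 1))) := by
  ext s
  constructor
  · rintro ⟨n, p, h0, h1, h2, h3, rfl⟩
    have he : ∀ i, i ≤ n → ext ⟨n, fun k => p k⟩ i = p i := by
      intro i hi
      simp [ext, hi]
    refine ⟨⟨⟨n, fun k => p k⟩, ?_, ?_, ?_, ?_⟩, ?_⟩
    · rw [he 0 (by omega), h0]
    · rw [he n le_rfl, h1]
    · intro i hi
      simp only at hi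
      rw [he i hi.le, he (i + 1) hi]; exact h2 i hi
    · intro i hi
      simp only at hi
      rw [he i hi]; exact h3 i hi
    · simp only
      apply Finset.sum_congr rfl
      intro i hi
      have := Finset.mem_range.mp hi
      rw [he i this.le, he (i + 1) this]
  · rintro ⟨⟨j, h0, h1, h2, h3⟩, rfl⟩
    exact ⟨j.1, ext j, h0, h1, h2, h3, rfl⟩

theorem meas_tau (B : Set V) (x y : V) : Measurable (fun w : W => tau w B x y) := by
  have : (fun w : W => tau w B x y) = fun w : W => ⨅ j : {j // Good B x y j},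
      ∑ i ∈ Finset.range j.1.1, w s(ext j.1 i, ext j.1 (i + 1)) := by
    funext w
    unfold tau
    rw [sums_eq]
    rfl
  rw [this]
  apply Measurable.iInf
  intro j
  fun_prop

variable {Ω : Type*} [MeasurableSpace Ω] {P : Measure Ω} {X : Sym2 V → Ω → ℝ}

/-- independent exponential weights -/
structure IsEnv (P : Measure Ω) (X : Sym2 V → Ω → ℝ) : Prop where
  meas : ∀ e, Measurable (X e)
  indep : iIndepFun X P
  law : ∀ e, Measure.map (X e) P = expMeasure 1

/-- the weights as a point of the space of weights -/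
def fld (X : Sym2 V → Ω → ℝ) (ω : Ω) : W := fun e => X e ω

variable (hX : IsEnv P X)

include hX

theorem IsEnv.prob : IsProbabilityMeasure P := hX.indep.isProbabilityMeasure

theorem IsEnv.mfld : Measurable (fld X) := measurable_pi_iff.2 hX.meas

theorem IsEnv.law_shift (a : V) :
    P.map (fun ω => shift a (fld X ω)) = P.map (fld X) := by
  have := hX.prob
  have hinj : Function.Injective (Sym2.map (· + a) : Sym2 V → Sym2 V) :=
    Sym2.map.injective (add_left_injective a)
  have h1 : iIndepFun (fun e => X (Sym2.map (· + a) e)) P := hX.indep.precomp hinj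
  have e1 := h1.map_fun_eq_infinitePi_map (fun e => hX.meas _)
  have e2 := hX.indep.map_fun_eq_infinitePi_map hX.meas
  simp only [hX.law] at e1 e2
  exact e1.trans e2.symm

theorem IsEnv.prob_shift (a : V) {A : Set W} (hA : MeasurableSet A) :
    P {ω | shift a (fld X ω) ∈ A} = P {ω | fld X ω ∈ A} := by
  have hm : Measurable (fun ω => shift a (fld X ω)) :=
    measurable_pi_iff.2 fun e => hX.meas _
  have h1 : P.map (fun ω => shift a (fld X ω)) A = P {ω | shift a (fld X ω) ∈ A} :=
    Measure.map_apply hm hA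
  have h2 : P.map (fld X) A = P {ω | fld X ω ∈ A} := Measure.map_apply hX.mfld hA
  rw [← h1, hX.law_shift a, h2]

/-- the law of the passage time from `x` to `y` depends on `y - x` only -/
theorem IsEnv.tau_law (x y : V) {A : Set ℝ} (hA : MeasurableSet A) :
    P {ω | tau (fld X ω) Set.univ x y ∈ A} = P {ω | tau (fld X ω) Set.univ 0 (y - x) ∈ A} := by
  have h := hX.prob_shift x (A := {w : W | tau w Set.univ 0 (y - x) ∈ A})
    ((meas_tau _ _ _) hA)
  simp only [Set.mem_ofPred_eq, tau_shift, zero_add, sub_add_cancel] at h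
  exact h

theorem IsEnv.mtau (B : Set V) (x y : V) : Measurable (fun ω => tau (fld X ω) B x y) :=
  (meas_tau B x y).comp hX.mfld

theorem IsEnv.cdf (e : Sym2 V) (x : ℝ) (hx : 0 ≤ x) :
    P.real {ω | X e ω ≤ x} = 1 - Real.exp (-x) := by
  have h1 : (expMeasure 1).real (Set.Iic x) = 1 - Real.exp (-x) := by
    have := isProbabilityMeasure_expMeasure (r := 1) one_pos
    rw [← cdf_eq_real, cdf_expMeasure_eq one_pos, if_pos hx, one_mul]
  rw [← hX.law e] at h1
  rw [← h1, measureReal_def, measureReal_def, Measure.map_apply (hX.meas e) measurableSet_Iic]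
  rfl

theorem IsEnv.tail (e : Sym2 V) (x : ℝ) (hx : 0 ≤ x) :
    P.real {ω | x < X e ω} = Real.exp (-x) := by
  have := hX.prob
  have h := hX.cdf e x hx
  have h2 : {ω | x < X e ω} = {ω | X e ω ≤ x}ᶜ := by
    ext ω; simp
  have hs : MeasurableSet {ω | X e ω ≤ x} := measurableSet_le (hX.meas e) measurable_const
  rw [h2, probReal_compl_eq_one_sub hs, h]
  ring

theorem IsEnv.ae_nonneg : ∀ᵐ ω ∂P, ∀ e, 0 ≤ fld X ω e := by
  have := hX.prob
  rw [ae_all_iff]
  intro e
  have h := hX.tail e 0 le_rfl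
  rw [neg_zero, Real.exp_zero] at h
  have h2 : P {ω | 0 < X e ω} = 1 := by
    rw [measureReal_def] at h
    rwa [ENNReal.toReal_eq_one_iff] at h
  have h3 : ∀ᵐ ω ∂P, 0 < X e ω := by
    have hs : MeasurableSet {ω | 0 < X e ω} := measurableSet_lt measurable_const (hX.meas e)
    rw [← mem_ae_iff_prob_eq_one hs] at h2
    exact h2
  filter_upwards [h3] with ω hω
  exact hω.le

theorem IsEnv.lapl (e : Sym2 V) : mgf (X e) P (-48) ≤ 1 / 8 := by
  have := hX.prob
  have hs : MeasurableSet {ω | X e ω ≤ 1 / 16} := measurableSet_le (hX.meas e) measurable_const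
  have h1 : mgf (X e) P (-48) ≤ ∫ ω, ({ω | X e ω ≤ 1 / 16}.indicator (fun _ => (1 : ℝ)) ω +
      Real.exp (-3)) ∂P := by
    unfold ProbabilityTheory.mgf
    apply integral_mono_of_nonneg
    · exact ae_of_all _ fun _ => (Real.exp_pos _).le
    · exact ((integrable_const (1 : ℝ)).indicator hs).add (integrable_const _)
    · filter_upwards [hX.ae_nonneg] with ω hω
      simp only [Set.indicator_apply, Set.mem_setOf_eq]
      split_ifs with h
      · have : Real.exp (-48 * X e ω) ≤ 1 := by
          rw [Real.exp_le_one_iff]; have := hω e; unfold fld at this; linarith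
        linarith [Real.exp_pos (-3)]
      · rw [zero_add, Real.exp_le_exp]
        push_neg at h
        linarith
  have hi : Integrable (fun ω => {ω | X e ω ≤ 1 / 16}.indicator (fun _ => (1 : ℝ)) ω) P :=
    (integrable_const (1 : ℝ)).indicator hs
  rw [integral_add hi (integrable_const _), integral_indicator_const _ hs, integral_const,
    hX.cdf e (1 / 16) (by norm_num)] at h1
  have h2 : 1 - Real.exp (-(1 / 16)) ≤ 1 / 16 := by
    have := Real.add_one_le_exp (-(1 / 16 : ℝ)); linarith
  have h3 : Real.exp (-3) ≤ 1 / 16 := by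
    rw [Real.exp_neg, one_div]
    apply inv_anti₀ (by norm_num)
    have := Real.exp_one_gt_d9
    calc (16 : ℝ) ≤ 2.7 ^ 3 := by norm_num
      _ ≤ Real.exp 1 ^ 3 := by gcongr; linarith
      _ = Real.exp 3 := by rw [← Real.exp_nat_mul]; norm_num
  simp only [probReal_univ, smul_eq_mul, mul_one, one_mul] at h1
  linarith

theorem IsEnv.low_sum (F : Finset (Sym2 V)) :
    P.real {ω | ∑ e ∈ F, X e ω ≤ (F.card : ℝ) / 200} ≤ (4 / 25 : ℝ) ^ F.card := by
  have := hX.prob
  have hint : Integrable (fun ω => Real.exp (-48 * (∑ e ∈ F, X e) ω)) P := by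
    apply Integrable.of_bound (C := 1)
    · apply Measurable.aestronglyMeasurable
      have := hX.meas
      fun_prop
    · filter_upwards [hX.ae_nonneg] with ω hω
      rw [Real.norm_eq_abs, abs_of_pos (Real.exp_pos _), Real.exp_le_one_iff, Finset.sum_apply]
      have : 0 ≤ ∑ e ∈ F, X e ω := Finset.sum_nonneg fun e _ => hω e
      linarith
  have h1 := measure_le_le_exp_mul_mgf (μ := P) (X := ∑ e ∈ F, X e) (t := -48)
    ((F.card : ℝ) / 200) (by norm_num) hint
  rw [hX.indep.mgf_sum hX.meas] at h1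
  have h2 : ∏ e ∈ F, ProbabilityTheory.mgf (X e) P (-48) ≤ (1 / 8 : ℝ) ^ F.card := by
    rw [← Finset.prod_const]
    exact Finset.prod_le_prod (fun _ _ => mgf_nonneg) fun e _ => hX.lapl e
  have h3 : Real.exp (- -48 * ((F.card : ℝ) / 200)) = Real.exp (6 / 25) ^ F.card := by
    rw [← Real.exp_nat_mul]; congr 1; ring
  have h4 : Real.exp (6 / 25) ≤ 32 / 25 := by
    have := Real.exp_bound' (x := 6 / 25) (by norm_num) (by norm_num) (n := 3) (by norm_num)
    refine this.trans ?_
    norm_num [Finset.sum_range_succ, Nat.factorial]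
  simp only [Finset.sum_apply] at h1
  refine h1.trans ?_
  rw [h3]
  calc Real.exp (6 / 25) ^ F.card * ∏ e ∈ F, ProbabilityTheory.mgf (X e) P (-48)
      ≤ (32 / 25) ^ F.card * (1 / 8) ^ F.card := by
        apply mul_le_mul _ h2 (Finset.prod_nonneg fun _ _ => mgf_nonneg) (by positivity)
        exact pow_le_pow_left₀ (Real.exp_pos _).le h4 _
    _ = (4 / 25 : ℝ) ^ F.card := by rw [← mul_pow]; norm_num

omit hX in
/-- neighbours -/
def nb (v : V) : Finset V := {v + (1, 0), v + (-1, 0), v + (0, 1), v + (0, -1)}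

omit hX in
theorem mem_nb {v u : V} (h : Adj v u) : u ∈ nb v := by
  obtain ⟨a, b⟩ := v
  obtain ⟨c, d⟩ := u
  unfold Adj at h
  simp only [nb, Finset.mem_insert, Finset.mem_singleton, Prod.mk_add_mk, Prod.mk.injEq] at *
  rcases abs_cases (c - a) with ⟨h1, h2⟩ | ⟨h1, h2⟩ <;>
    rcases abs_cases (d - b) with ⟨h3, h4⟩ | ⟨h3, h4⟩ <;> rw [h1, h3] at h <;> omega

omit hX in
theorem card_nb (v : V) : (nb v).card ≤ 4 := Finset.card_le_four

omit hX in
open Classical in
/-- lists of the edges of walks -/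
noncomputable def WL : ℕ → V → Finset (List (Sym2 V))
  | 0, _ => {[]}
  | n + 1, v => (nb v).biUnion (fun u => (WL n u).image (fun l => s(v, u) :: l))

omit hX in
theorem card_WL (n : ℕ) (v : V) : (WL n v).card ≤ 4 ^ n := by
  classical
  induction n generalizing v with
  | zero => simp [WL]
  | succ n ih =>
    unfold WL
    calc _ ≤ ∑ u ∈ nb v, ((WL n u).image (fun l => s(v, u) :: l)).card :=
          Finset.card_biUnion_le
      _ ≤ ∑ u ∈ nb v, 4 ^ n := Finset.sum_le_sum fun u _ => Finset.card_image_le.trans (ih u)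
      _ = (nb v).card * 4 ^ n := by rw [Finset.sum_const, smul_eq_mul]
      _ ≤ 4 * 4 ^ n := Nat.mul_le_mul_right _ (card_nb v)
      _ = 4 ^ (n + 1) := by ring

omit hX in
theorem mem_WL (n : ℕ) : ∀ p : ℕ → V, (∀ i < n, Adj (p i) (p (i + 1))) →
    (List.range n).map (fun i => s(p i, p (i + 1))) ∈ WL n (p 0) := by
  classical
  induction n with
  | zero => intro p _; simp [WL]
  | succ n ih =>
    intro p hp
    have := ih (fun i => p (i + 1)) (fun i hi => hp (i + 1) (by omega))
    unfold WL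
    rw [Finset.mem_biUnion]
    refine ⟨p 1, mem_nb (hp 0 (by omega)), ?_⟩
    rw [Finset.mem_image]
    refine ⟨_, this, ?_⟩
    rw [List.range_succ_eq_map]
    simp [Function.comp_def]

omit hX in
theorem WL_length (n : ℕ) (v : V) (l : List (Sym2 V)) (hl : l ∈ WL n v) : l.length = n := by
  classical
  induction n generalizing v l with
  | zero => simp [WL] at hl; simp [hl]
  | succ n ih =>
    unfold WL at hl
    simp only [Finset.mem_biUnion, Finset.mem_image] at hl
    obtain ⟨w, _, l', hl', rfl⟩ := hl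
    simp [ih w l' hl']

/-- it takes a long time to go far -/
theorem IsEnv.far (n : ℕ) :
    P {ω | ∃ y : V, n ≤ l1 y ∧ tau (fld X ω) Set.univ 0 y < (n : ℝ) / 200} ≤
      ENNReal.ofReal ((16 / 25 : ℝ) ^ n) := by
  classical
  have := hX.prob
  have hsub : P {ω | ∃ y : V, n ≤ l1 y ∧ tau (fld X ω) Set.univ 0 y < (n : ℝ) / 200} ≤
      P (⋃ l ∈ (WL n 0).filter List.Nodup,
        {ω | ∑ e ∈ l.toFinset, X e ω ≤ (l.toFinset.card : ℝ) / 200}) := by
    apply measure_mono_ae
    filter_upwards [hX.ae_nonneg] with ω hω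
    rintro ⟨y, hy, ht⟩
    obtain ⟨m, p, h0, h1, h2, -, h4⟩ := exists_walk (univ_nonempty _ 0 y) ht
    obtain ⟨k, q, q0, q1, q2, q3, q4⟩ := loop_erase hω m p h2
    have hk : n ≤ k := by
      have := l1_walk q2 k le_rfl
      rw [q1, q0, h1, h0, sub_zero] at this
      omega
    have hadj : ∀ i < n, Adj (q i) (q (i + 1)) := fun i hi => q2 i (by omega)
    have hmem := mem_WL n q hadj
    rw [q0, h0] at hmem
    have hinj := edge_inj q3
    have hnd : ((List.range n).map (fun i => s(q i, q (i + 1)))).Nodup := by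
      apply List.Nodup.map_on _ List.nodup_range
      intro i hi j hj hij
      rw [List.mem_range] at hi hj
      exact hinj (by simp; omega) (by simp; omega) hij
    refine Set.mem_iUnion₂.mpr ⟨_, Finset.mem_filter.mpr ⟨hmem, hnd⟩, ?_⟩
    change ∑ e ∈ _, X e ω ≤ _
    rw [List.toFinset_card_of_nodup hnd, List.length_map, List.length_range,
      List.sum_toFinset _ hnd, List.map_map]
    have h5 : ((List.range n).map ((fun e => X e ω) ∘ fun i => s(q i, q (i + 1)))).sum =
        ∑ i ∈ Finset.range n, fld X ω s(q i, q (i + 1)) := by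
      rw [Finset.sum_eq_multiset_sum]
      rfl
    rw [h5]
    have h6 : ∑ i ∈ Finset.range n, fld X ω s(q i, q (i + 1)) ≤
        ∑ i ∈ Finset.range k, fld X ω s(q i, q (i + 1)) :=
      Finset.sum_le_sum_of_subset_of_nonneg (Finset.range_mono hk) fun _ _ _ => hω _
    linarith
  refine hsub.trans ((measure_biUnion_finset_le _ _).trans ?_)
  have hb : ∀ l ∈ (WL n 0).filter List.Nodup,
      P {ω | ∑ e ∈ l.toFinset, X e ω ≤ (l.toFinset.card : ℝ) / 200} ≤
        ENNReal.ofReal ((4 / 25 : ℝ) ^ n) := by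
    intro l hl
    rw [Finset.mem_filter] at hl
    have h1 := hX.low_sum l.toFinset
    have h2 : l.toFinset.card = n := by
      rw [List.toFinset_card_of_nodup hl.2, WL_length n 0 l hl.1]
    rw [h2] at h1 ⊢
    rw [measureReal_def] at h1
    exact (ENNReal.le_ofReal_iff_toReal_le (measure_ne_top _ _) (by positivity)).mpr h1
  calc ∑ l ∈ (WL n 0).filter List.Nodup, P {ω | ∑ e ∈ l.toFinset, X e ω ≤
        (l.toFinset.card : ℝ) / 200}
      ≤ ∑ l ∈ (WL n 0).filter List.Nodup, ENNReal.ofReal ((4 / 25 : ℝ) ^ n) :=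
        Finset.sum_le_sum hb
    _ = ((WL n 0).filter List.Nodup).card * ENNReal.ofReal ((4 / 25 : ℝ) ^ n) := by
        rw [Finset.sum_const, nsmul_eq_mul]
    _ ≤ (4 ^ n : ℕ) * ENNReal.ofReal ((4 / 25 : ℝ) ^ n) := by
        gcongr
        exact (Finset.card_filter_le _ _).trans (card_WL n 0)
    _ = ENNReal.ofReal ((16 / 25 : ℝ) ^ n) := by
        rw [← ENNReal.ofReal_natCast, ← ENNReal.ofReal_mul (by positivity)]
        congr 1
        push_cast
        rw [← mul_pow]; norm_num

/-- crude upper bound -/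
theorem IsEnv.upper (v : V) (s : ℝ) (hs : 0 ≤ s) :
    P {ω | (l1 v : ℝ) * s < tau (fld X ω) Set.univ 0 v} ≤
      ENNReal.ofReal (l1 v * Real.exp (-s)) := by
  have := hX.prob
  obtain ⟨p, h0, h1, h2, -⟩ := exists_path 0 v
  rw [sub_zero] at h1 h2
  have hsub : P {ω | (l1 v : ℝ) * s < tau (fld X ω) Set.univ 0 v} ≤
      P (⋃ i ∈ Finset.range (l1 v), {ω | s < X s(p i, p (i + 1)) ω}) := by
    apply measure_mono_ae
    filter_upwards [hX.ae_nonneg] with ω hω ht
    by_contra hcon
    replace hcon : ∀ i ∈ Finset.range (l1 v), ω ∉ {ω | s < X s(p i, p (i + 1)) ω} :=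
      fun i hi h => hcon (Set.mem_iUnion₂.mpr ⟨i, hi, h⟩)
    have h3 := tau_le hω (B := Set.univ) h0 h1 h2 (fun _ _ => trivial)
    have h4 : ∑ i ∈ Finset.range (l1 v), fld X ω s(p i, p (i + 1)) ≤
        ∑ i ∈ Finset.range (l1 v), s := by
      apply Finset.sum_le_sum
      intro i hi
      exact not_lt.mp (hcon i hi)
    rw [Finset.sum_const, Finset.card_range, nsmul_eq_mul] at h4
    have ht' : (l1 v : ℝ) * s < tau (fld X ω) Set.univ 0 v := ht
    linarith
  refine hsub.trans ((measure_biUnion_finset_le _ _).trans ?_)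
  calc ∑ i ∈ Finset.range (l1 v), P {ω | s < X s(p i, p (i + 1)) ω}
      ≤ ∑ i ∈ Finset.range (l1 v), ENNReal.ofReal (Real.exp (-s)) := by
        apply Finset.sum_le_sum
        intro i _
        have h := hX.tail s(p i, p (i + 1)) s hs
        rw [measureReal_def] at h
        rw [← h, ENNReal.ofReal_toReal (measure_ne_top _ _)]
    _ = ENNReal.ofReal (l1 v * Real.exp (-s)) := by
        rw [Finset.sum_const, Finset.card_range, nsmul_eq_mul,
          ENNReal.ofReal_mul (by positivity), ENNReal.ofReal_natCast]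

end Pool.Agent.Q231.FP
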