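import Pool.Agent.Q231.FP.Weak

set_option autoImplicit false

/-!
# Sparse times suffice
-/

namespace Pool.Agent.Q231.FP

open MeasureTheory ProbabilityTheory Filter Topology Asymptotics
open scoped ENNReal Pointwise

/-- rounding -/
noncomputable def rd (x : ℝ × ℝ) : V := (⌊x.1⌋, ⌊x.2⌋)

theorem rd_near (x : ℝ × ℝ) : nm (cv (rd x) - x) ≤ 2 := by
  have h1 := Int.floor_le x.1
  have h2 := Int.lt_floor_add_one x.1
  have h3 := Int.floor_le x.2
  have h4 := Int.lt_floor_add_one x.2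
  simp only [nm, cv, rd, Prod.fst_sub, Prod.snd_sub]
  rw [abs_of_nonpos (by linarith), abs_of_nonpos (by linarith)]
  linarith

theorem rd_zero : rd 0 = 0 := by simp [rd]

/-- choice of a time of the sequence -/
theorem pick {t : ℕ → ℝ} (ht : Tendsto t atTop atTop)
    (hr : Tendsto (fun k => Real.log (t (k + 1)) / Real.log (t k)) atTop (𝓝 1))
    {η : ℝ} (hη : 0 < η) (hη1 : η < 1) (K0 : ℕ) : ∃ R0 : ℝ, 1 ≤ R0 ∧ ∀ R : ℝ, R0 ≤ R →
      ∃ k : ℕ, K0 ≤ k ∧ t k ≤ R ∧ R < t (k + 1) ∧ R ^ (1 - η) ≤ t k ∧ t (k + 1) ≤ R ^ (1 + η) := by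
  have h1 := (hr.eventually (gt_mem_nhds (show (1 : ℝ) < 1 + η by linarith))).and
    ((ht.eventually_gt_atTop 1).and (eventually_ge_atTop K0))
  obtain ⟨K1, hK1⟩ := eventually_atTop.mp h1
  refine ⟨max (t K1) 1, le_max_right _ _, fun R hR => ?_⟩
  have hR1 : 1 ≤ R := (le_max_right _ _).trans hR
  have hRt : t K1 ≤ R := (le_max_left _ _).trans hR
  have hex : ∃ j, R < t (K1 + j + 1) := by
    obtain ⟨N, hN⟩ := eventually_atTop.mp (ht.eventually_gt_atTop R)
    exact ⟨N, hN _ (by omega)⟩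
  classical
  set j := Nat.find hex with hj
  have hj1 : R < t (K1 + j + 1) := Nat.find_spec hex
  have hj0 : t (K1 + j) ≤ R := by
    rcases Nat.eq_zero_or_pos j with h | h
    · rw [h]; exact hRt
    · have := Nat.find_min hex (m := j - 1) (by omega)
      rw [not_lt, show K1 + (j - 1) + 1 = K1 + j by omega] at this
      exact this
  obtain ⟨a1, a2, a3⟩ := hK1 (K1 + j) (by omega)
  have hl : 0 < Real.log (t (K1 + j)) := Real.log_pos a2
  rw [div_lt_iff₀ hl] at a1
  have ht0 : 0 < t (K1 + j) := by linarith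
  have ht1 : 0 < t (K1 + j + 1) := by linarith
  have hR0 : 0 < R := by linarith
  have hlR : 0 ≤ Real.log R := Real.log_nonneg hR1
  refine ⟨K1 + j, a3, hj0, hj1, ?_, ?_⟩
  · rw [← Real.log_le_log_iff (Real.rpow_pos_of_pos hR0 _) ht0, Real.log_rpow hR0]
    have h2 : Real.log R ≤ Real.log (t (K1 + j + 1)) := Real.log_le_log hR0 hj1.le
    have h3 : Real.log R < (1 + η) * Real.log (t (K1 + j)) := by linarith
    have h4 : (1 - η) * Real.log R ≤ (1 - η) * ((1 + η) * Real.log (t (K1 + j))) :=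
      mul_le_mul_of_nonneg_left h3.le (by linarith)
    have h5 : (1 - η) * ((1 + η) * Real.log (t (K1 + j))) =
        Real.log (t (K1 + j)) - η ^ 2 * Real.log (t (K1 + j)) := by ring
    have h6 : 0 ≤ η ^ 2 * Real.log (t (K1 + j)) := by positivity
    linarith
  · rw [← Real.log_le_log_iff ht1 (Real.rpow_pos_of_pos hR0 _), Real.log_rpow hR0]
    have h2 : Real.log (t (K1 + j)) ≤ Real.log R := Real.log_le_log ht0 hj0
    have h4 : (1 + η) * Real.log (t (K1 + j)) ≤ (1 + η) * Real.log R :=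
      mul_le_mul_of_nonneg_left h2 (by linarith)
    linarith

variable {Ω : Type*} [MeasurableSpace Ω] {P : Measure Ω} {X : Sym2 V → Ω → ℝ} {μ : ℝ × ℝ → ℝ}

/-- the inner half along a sequence -/
def InnerAlong (P : Measure Ω) (X : Sym2 V → Ω → ℝ) (μ : ℝ × ℝ → ℝ) (t : ℕ → ℝ) : Prop :=
  ∀ ζ : ℝ, 0 < ζ → ζ < 2 / 3 → ∀ q : ℝ, 0 < q →
    (fun k : ℕ => (P (BI X μ ζ (t k))).toReal) =O[atTop] (fun k : ℕ => t k ^ (-q))

/-- the outer half along a sequence -/
def OuterAlong (P : Measure Ω) (X : Sym2 V → Ω → ℝ) (μ : ℝ × ℝ → ℝ) (t : ℕ → ℝ) : Prop :=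
  ∀ ζ : ℝ, 0 < ζ → ζ < 2 / 3 → ∀ q : ℝ, 0 < q →
    (fun k : ℕ => (P (BO X μ ζ (t k))).toReal) =O[atTop] (fun k : ℕ => t k ^ (-q))

/-- one level of the subdivision -/
theorem IsFPP.level (hF : IsFPP P X μ) {M : ℝ} (hM : 0 ≤ M)
    (hMl : ∀ x y, |μ x - μ y| ≤ M * nm (x - y)) {v : V} {t l δ₁ δ₂ e₂ : ℝ}
    (hl : 0 < l) (hlA : l ≤ μ (cv v))
    (hpiece : ∀ u : V, μ (cv u) ≤ l + 4 * M →
      P.real {ω | t < tau (fld X ω) Set.univ 0 u} ≤ δ₁)
    (hrest : ∀ u : V, μ (cv u) ≤ 2 * M + μ (cv v) / 2 →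
      P.real {ω | μ (cv u) + e₂ < tau (fld X ω) Set.univ 0 u} ≤ δ₂) :
    P.real {ω | μ (cv v) + (⌊μ (cv v) / l⌋₊ * (t - l) + 2 * M + e₂) <
      tau (fld X ω) Set.univ 0 v} ≤ ⌊μ (cv v) / l⌋₊ * δ₁ + δ₂ := by
  classical
  have hP := hF.env.prob
  set A := μ (cv v) with hA
  have hA0 : 0 < A := by linarith
  set m := ⌊A / l⌋₊ with hm
  have hm1 : 1 ≤ m := by
    rw [hm, Nat.one_le_floor_iff, le_div_iff₀ hl]; linarith
  have hm2 : (m : ℝ) * l ≤ A := by
    have := Nat.floor_le (show 0 ≤ A / l by positivity)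
    rw [← hm, le_div_iff₀ hl] at this
    exact this
  have hm3 : A < (m + 1) * l := by
    have := Nat.lt_floor_add_one (A / l)
    rw [← hm, div_lt_iff₀ hl] at this
    exact this
  have hm1' : (1 : ℝ) ≤ m := by exact_mod_cast hm1
  set y : ℕ → V := fun j => rd (((j : ℝ) * l / A) • cv v) with hy
  have hy0 : y 0 = 0 := by
    simp only [hy, Nat.cast_zero, zero_mul, zero_div, zero_smul, rd_zero]
  have hyj : ∀ j : ℕ, μ (cv (y (j + 1) - y j)) ≤ l + 4 * M := by
    intro j
    have h1 := rd_near ((((j + 1 : ℕ) : ℝ) * l / A) • cv v)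
    have h2 := rd_near (((j : ℝ) * l / A) • cv v)
    have h3 : nm (cv (y (j + 1) - y j) - (l / A) • cv v) ≤ 4 := by
      have h4 := nm_add (cv (y (j + 1)) - (((j + 1 : ℕ) : ℝ) * l / A) • cv v)
        (-(cv (y j) - ((j : ℝ) * l / A) • cv v))
      rw [nm_neg] at h4
      have e : cv (y (j + 1) - y j) - (l / A) • cv v =
          (cv (y (j + 1)) - (((j + 1 : ℕ) : ℝ) * l / A) • cv v) +
            (-(cv (y j) - ((j : ℝ) * l / A) • cv v)) := by
        rw [cv_sub]
        have : (((j + 1 : ℕ) : ℝ) * l / A) • cv v = ((j : ℝ) * l / A) • cv v + (l / A) • cv v := by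
          rw [← add_smul]; congr 1; push_cast; ring
        rw [this]; abel
      rw [e]
      exact h4.trans (by linarith)
    have h5 := (abs_le.mp (hMl (cv (y (j + 1) - y j)) ((l / A) • cv v))).2
    rw [hF.homog _ _ (by positivity), ← hA] at h5
    have h6 : l / A * A = l := by field_simp
    rw [h6] at h5
    nlinarith
  have hrem : μ (cv (v - y m)) ≤ A - m * l + 2 * M := by
    have h1 := rd_near (((m : ℝ) * l / A) • cv v)
    have h3 : nm (cv (v - y m) - (1 - m * l / A) • cv v) ≤ 2 := by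
      have e : cv (v - y m) - (1 - m * l / A) • cv v =
          -(cv (y m) - ((m : ℝ) * l / A) • cv v) := by
        rw [cv_sub, sub_smul, one_smul]; abel
      rw [e, nm_neg]
      exact h1
    have h5 := (abs_le.mp (hMl (cv (v - y m)) ((1 - m * l / A) • cv v))).2
    have h7 : 0 ≤ 1 - m * l / A := by
      rw [sub_nonneg, div_le_one hA0]; exact hm2
    rw [hF.homog _ _ h7, ← hA] at h5
    have h6 : (1 - m * l / A) * A = A - m * l := by field_simp
    rw [h6] at h5
    nlinarith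
  have hrem2 : μ (cv (v - y m)) ≤ 2 * M + A / 2 := by
    have : A - m * l ≤ A / 2 := by
      rcases le_total l (A / 2) with h | h
      · nlinarith
      · nlinarith
    linarith
  set bad : ℕ → Set Ω := fun j => {ω | t < tau (fld X ω) Set.univ (y j) (y (j + 1))} with hbad
  set last : Set Ω := {ω | μ (cv (v - y m)) + e₂ < tau (fld X ω) Set.univ (y m) v} with hlast
  have hb : ∀ j, P.real (bad j) ≤ δ₁ := by
    intro j
    have h1 := hF.env.tau_law (y j) (y (j + 1)) (A := Set.Ioi t) measurableSet_Ioi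
    have h2 := hpiece (y (j + 1) - y j) (hyj j)
    rw [measureReal_def] at h2 ⊢
    refine le_trans (le_of_eq ?_) h2
    exact congrArg ENNReal.toReal h1
  have hlst : P.real last ≤ δ₂ := by
    have h1 := hF.env.tau_law (y m) v (A := Set.Ioi (μ (cv (v - y m)) + e₂)) measurableSet_Ioi
    have h2 := hrest (v - y m) hrem2
    rw [measureReal_def] at h2 ⊢
    refine le_trans (le_of_eq ?_) h2
    exact congrArg ENNReal.toReal h1
  have hsub : P {ω | A + (m * (t - l) + 2 * M + e₂) < tau (fld X ω) Set.univ 0 v} ≤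
      P ((⋃ j ∈ Finset.range m, bad j) ∪ last) := by
    apply measure_mono_ae
    filter_upwards [hF.env.ae_nonneg] with ω hω hlt
    by_contra hcon
    have c1 : ∀ j ∈ Finset.range m, ω ∉ bad j := fun j hj h =>
      hcon (Or.inl (Set.mem_iUnion₂.mpr ⟨j, hj, h⟩))
    have c2 : ω ∉ last := fun h => hcon (Or.inr h)
    have hlt' : A + (m * (t - l) + 2 * M + e₂) < tau (fld X ω) Set.univ 0 v := hlt
    have c2' : tau (fld X ω) Set.univ (y m) v ≤ μ (cv (v - y m)) + e₂ := not_lt.mp c2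
    have s1 := tau_sum hω y m
    rw [hy0] at s1
    have s2 : ∑ j ∈ Finset.range m, tau (fld X ω) Set.univ (y j) (y (j + 1)) ≤
        ∑ j ∈ Finset.range m, t :=
      Finset.sum_le_sum fun j hj => not_lt.mp (c1 j hj)
    rw [Finset.sum_const, Finset.card_range, nsmul_eq_mul] at s2
    have s3 := tau_tri hω 0 (y m) v
    have s4 : (m : ℝ) * (t - l) = m * t - m * l := by ring
    linarith
  have h1 : P.real {ω | A + (m * (t - l) + 2 * M + e₂) < tau (fld X ω) Set.univ 0 v} ≤
      P.real ((⋃ j ∈ Finset.range m, bad j) ∪ last) :=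
    ENNReal.toReal_mono (measure_ne_top _ _) hsub
  refine h1.trans ((measureReal_union_le _ _).trans (add_le_add ?_ hlst))
  refine (measureReal_biUnion_finset_le _ _).trans ?_
  calc ∑ j ∈ Finset.range m, P.real (bad j) ≤ ∑ j ∈ Finset.range m, δ₁ :=
        Finset.sum_le_sum fun j _ => hb j
    _ = m * δ₁ := by rw [Finset.sum_const, Finset.card_range, nsmul_eq_mul]

theorem IsFPP.slow_of_along (hF : IsFPP P X μ) {t : ℕ → ℝ} (ht : Tendsto t atTop atTop)
    (hr : Tendsto (fun k => Real.log (t (k + 1)) / Real.log (t k)) atTop (𝓝 1))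
    (h : InnerAlong P X μ t) : Slow P X μ (1 / 3) := by
  have hP := hF.env.prob
  obtain ⟨M, hM1, hM2, hMl⟩ := hF.upper
  have hM0 : 0 ≤ M := by linarith
  apply hF.slow_of_ptp (by norm_num)
  intro ε' hε' q hq
  set ε := min ε' (1 / 3) with hε
  have hε0 : 0 < ε := lt_min hε' (by norm_num)
  have hε1 : ε ≤ 1 / 3 := min_le_right _ _
  have hεε : ε ≤ ε' := min_le_left _ _
  set η := ε / 8 with hη
  have hη0 : 0 < η := by positivity
  set q' := 5 * (q + 3) with hq'
  have hq'0 : 0 < q' := by positivity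
  obtain ⟨C, hC0, hC⟩ := (h η hη0 (by linarith) q' hq'0).exists_nonneg
  obtain ⟨K0, hK0⟩ := eventually_atTop.mp hC.bound
  obtain ⟨R0, hR01, hR0⟩ := pick ht hr hη0 (by linarith) K0
  obtain ⟨C1, hC10, hC1⟩ := hF.slow_one (1 / 5) (by norm_num) (3 * (q + 1)) (by positivity)
  -- constants for the pieces
  obtain ⟨t0, ht0⟩ := eventually_atTop.mp
    (((ev_pow (a := 1) (b := 1 / 3 + η) 4 0 (by norm_num) (by linarith)).and
    (ev_pow (a := 1 / 3 + η) (b := 0) 0 (4 * M) (by linarith) (by linarith))).and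
    (eventually_ge_atTop 2))
  refine ⟨(C1 + 2 * C) * M ^ (ε / 4), by positivity, ?_⟩
  -- eventual conditions in terms of `N`
  have hev : ∀ᶠ N : ℝ in atTop, 2 ≤ N ∧ R0 ≤ N ^ (1 / 4 : ℝ) ∧ max t0 2 ≤ N ^ (1 / 5 : ℝ) ∧
      1 + 200 * (4 * M + N ^ (1 / 4 : ℝ)) ≤ N ^ (4 / 15 : ℝ) ∧
      4 * N ^ (1 / 3 + 2 * η) + 2 * M ≤ N ^ (1 / 3 + ε / 2) ∧
      2 * Real.log N + 2 ≤ N ^ (ε / 4) := by
    have e1 := (tendsto_rpow_atTop (show (0 : ℝ) < 1 / 4 by norm_num)).eventually_ge_atTop R0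
    have e2 := (tendsto_rpow_atTop (show (0 : ℝ) < 1 / 5 by norm_num)).eventually_ge_atTop
      (max t0 2)
    have e3 := ev_pow (a := 4 / 15) (b := 1 / 4) 200 (1 + 800 * M) (by norm_num) (by norm_num)
    have e4 := ev_pow (a := 1 / 3 + ε / 2) (b := 1 / 3 + 2 * η) 4 (2 * M) (by linarith)
      (by linarith)
    have e5 := (isLittleO_log_rpow_atTop (show (0 : ℝ) < ε / 4 by positivity)).bound
      (show (0 : ℝ) < 1 / 4 by norm_num)
    have e6 := (tendsto_rpow_atTop (show (0 : ℝ) < ε / 4 by positivity)).eventually_ge_atTop 4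
    filter_upwards [eventually_ge_atTop 2, e1, e2, e3, e4, e5, e6] with N n0 n1 n2 n3 n4 n5 n6
    refine ⟨n0, n1, n2, by linarith, n4, ?_⟩
    rw [Real.norm_of_nonneg (Real.log_nonneg (by linarith)),
      Real.norm_of_nonneg (Real.rpow_nonneg (by linarith) _)] at n5
    linarith
  -- the induction over the levels
  have key : ∀ N : ℝ, 2 ≤ N → R0 ≤ N ^ (1 / 4 : ℝ) → max t0 2 ≤ N ^ (1 / 5 : ℝ) →
      1 + 200 * (4 * M + N ^ (1 / 4 : ℝ)) ≤ N ^ (4 / 15 : ℝ) →
      4 * N ^ (1 / 3 + 2 * η) + 2 * M ≤ N ^ (1 / 3 + ε / 2) →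
      ∀ i : ℕ, ∀ v : V, μ (cv v) ≤ 4 * M + 2 ^ i * N ^ (1 / 4 : ℝ) → μ (cv v) ≤ N →
        P.real {ω | μ (cv v) + (i + 1) * N ^ (1 / 3 + ε / 2) < tau (fld X ω) Set.univ 0 v} ≤
          (i + 1) * ((C1 + 2 * C) * N ^ (-(q + 1))) := by
    intro N hN2 hNR hNt hNs hNe i
    have hN0 : 0 < N := by linarith
    have hN1 : 1 ≤ N := by linarith
    have hNq : 0 < N ^ (-(q + 1)) := Real.rpow_pos_of_pos hN0 _
    induction i with
    | zero =>
      intro v hv hvN
      rw [pow_zero, one_mul] at hv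
      have hl := hF.lower (cv v)
      rw [nm_cv] at hl
      have h1 : 1 + (l1 v : ℝ) ≤ N ^ (4 / 15 : ℝ) := by linarith
      have h2 : (1 + (l1 v : ℝ)) ^ ((1 : ℝ) + 1 / 5) ≤ N ^ (1 / 3 + ε / 2) := by
        calc (1 + (l1 v : ℝ)) ^ ((1 : ℝ) + 1 / 5) ≤ (N ^ (4 / 15 : ℝ)) ^ ((1 : ℝ) + 1 / 5) :=
              Real.rpow_le_rpow (by positivity) h1 (by norm_num)
          _ = N ^ ((4 / 15 : ℝ) * (1 + 1 / 5)) := by rw [← Real.rpow_mul hN0.le]
          _ ≤ N ^ (1 / 3 + ε / 2) := by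
              apply Real.rpow_le_rpow_of_exponent_le hN1
              norm_num
              linarith
      have h3 := hC1 v _ h2
      have h4 : (N ^ (1 / 3 + ε / 2)) ^ (-(3 * (q + 1))) ≤ N ^ (-(q + 1)) := by
        rw [← Real.rpow_mul hN0.le]
        apply Real.rpow_le_rpow_of_exponent_le hN1
        nlinarith
      simp only [Nat.cast_zero, zero_add, one_mul]
      calc P.real {ω | μ (cv v) + N ^ (1 / 3 + ε / 2) < tau (fld X ω) Set.univ 0 v}
          ≤ C1 * (N ^ (1 / 3 + ε / 2)) ^ (-(3 * (q + 1))) := h3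
        _ ≤ C1 * N ^ (-(q + 1)) := by gcongr
        _ ≤ (C1 + 2 * C) * N ^ (-(q + 1)) := by
            apply mul_le_mul_of_nonneg_right (by linarith) hNq.le
    | succ i ih =>
      intro v hv hvN
      set e := N ^ (1 / 3 + ε / 2) with he
      have he0 : 0 < e := Real.rpow_pos_of_pos hN0 _
      rcases le_or_gt (μ (cv v)) (4 * M + 2 ^ i * N ^ (1 / 4 : ℝ)) with hsmall | hbig
      · refine le_trans ?_ ((ih v hsmall hvN).trans ?_)
        · refine measureReal_mono ?_ (measure_ne_top _ _)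
          intro ω hω
          have h1 : μ (cv v) + (((i + 1 : ℕ) : ℝ) + 1) * e < tau (fld X ω) Set.univ 0 v := hω
          have h2 : μ (cv v) + ((i : ℝ) + 1) * e < tau (fld X ω) Set.univ 0 v := by
            push_cast at h1
            linarith
          exact h2
        · apply mul_le_mul_of_nonneg_right _ (by positivity)
          push_cast; linarith
      · set A := μ (cv v) with hA
        have hpow1 : (1 : ℝ) ≤ 2 ^ i := one_le_pow₀ (by norm_num)
        have hN4 : 0 < N ^ (1 / 4 : ℝ) := Real.rpow_pos_of_pos hN0 _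
        have hA4 : N ^ (1 / 4 : ℝ) ≤ A := by nlinarith
        have hA1 : 1 ≤ A := by linarith
        have hA0 : 0 < A := by linarith
        obtain ⟨k, hk1, hk2, -, hk4, -⟩ := hR0 A (by linarith)
        set s := t k with hs
        have hsN : N ^ (1 / 5 : ℝ) ≤ s := by
          calc N ^ (1 / 5 : ℝ) ≤ N ^ ((1 / 4 : ℝ) * (1 - η)) := by
                apply Real.rpow_le_rpow_of_exponent_le hN1
                have : η ≤ 1 / 24 := by rw [hη]; linarith
                linarith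
            _ = (N ^ (1 / 4 : ℝ)) ^ (1 - η) := by rw [← Real.rpow_mul hN0.le]
            _ ≤ A ^ (1 - η) := Real.rpow_le_rpow hN4.le hA4 (by linarith)
            _ ≤ s := hk4
        have hst0 : t0 ≤ s := (le_max_left _ _).trans (hNt.trans hsN)
        obtain ⟨⟨g1, g2⟩, g3⟩ := ht0 s hst0
        rw [Real.rpow_one, add_zero] at g1
        rw [zero_mul, zero_add] at g2
        have hs0 : 0 < s := by linarith
        set l := s - 2 * s ^ (1 / 3 + η) with hl
        have hls : s / 2 ≤ l := by rw [hl]; linarith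
        have hlev := hF.level hM0 hMl (v := v) (t := s) (l := l)
          (δ₁ := C * s ^ (-q')) (δ₂ := (i + 1) * ((C1 + 2 * C) * N ^ (-(q + 1))))
          (e₂ := (i + 1) * e) (by linarith) (by
            have : 0 < s ^ (1 / 3 + η) := Real.rpow_pos_of_pos hs0 _
            linarith) (by
            intro u hu
            have h1 := hK0 k hk1
            rw [Real.norm_of_nonneg ENNReal.toReal_nonneg, Real.norm_of_nonneg
              (Real.rpow_nonneg hs0.le _)] at h1
            refine le_trans ?_ h1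
            refine measureReal_mono ?_ (measure_ne_top _ _)
            intro ω hω
            exact hF.memBI (by linarith) (by linarith) (by linarith) hω) (by
            intro u hu
            apply ih u
            · have : 2 ^ (i + 1) * N ^ (1 / 4 : ℝ) = 2 * (2 ^ i * N ^ (1 / 4 : ℝ)) := by ring
              linarith
            · nlinarith)
        have hm2 : ((⌊A / l⌋₊ : ℕ) : ℝ) ≤ 2 * (A / s) := by
          calc ((⌊A / l⌋₊ : ℕ) : ℝ) ≤ A / l := Nat.floor_le (by
                have : 0 < l := by linarith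
                positivity)
            _ ≤ A / (s / 2) := by gcongr
            _ = 2 * (A / s) := by field_simp
        have hcost : ((⌊A / l⌋₊ : ℕ) : ℝ) * (s - l) ≤ 4 * N ^ (1 / 3 + 2 * η) := by
          have e1 : s - l = 2 * s ^ (1 / 3 + η) := by rw [hl]; ring
          rw [e1]
          have e2 : A / s * s ^ (1 / 3 + η) = A * s ^ (-(2 / 3) + η) := by
            rw [div_mul_eq_mul_div, mul_div_assoc]
            congr 1
            nth_rewrite 2 [← Real.rpow_one s]
            rw [← Real.rpow_sub hs0]; congr 1; ring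
          have e3 : s ^ (-(2 / 3) + η) ≤ (A ^ (1 - η)) ^ (-(2 / 3) + η) :=
            Real.rpow_le_rpow_of_nonpos (Real.rpow_pos_of_pos hA0 _) hk4 (by linarith)
          have e4 : A * (A ^ (1 - η)) ^ (-(2 / 3) + η) ≤ N ^ (1 / 3 + 2 * η) := by
            rw [← Real.rpow_mul hA0.le]
            nth_rewrite 1 [← Real.rpow_one A]
            rw [← Real.rpow_add hA0]
            calc A ^ (1 + (1 - η) * (-(2 / 3) + η)) ≤ A ^ (1 / 3 + 2 * η) := by
                  apply Real.rpow_le_rpow_of_exponent_le hA1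
                  nlinarith
              _ ≤ N ^ (1 / 3 + 2 * η) := Real.rpow_le_rpow hA0.le hvN (by linarith)
          calc ((⌊A / l⌋₊ : ℕ) : ℝ) * (2 * s ^ (1 / 3 + η))
              ≤ (2 * (A / s)) * (2 * s ^ (1 / 3 + η)) := by gcongr
            _ = 4 * (A / s * s ^ (1 / 3 + η)) := by ring
            _ = 4 * (A * s ^ (-(2 / 3) + η)) := by rw [e2]
            _ ≤ 4 * (A * (A ^ (1 - η)) ^ (-(2 / 3) + η)) := by gcongr
            _ ≤ 4 * N ^ (1 / 3 + 2 * η) := by linarith
        have hprob : ((⌊A / l⌋₊ : ℕ) : ℝ) * (C * s ^ (-q')) ≤ (C1 + 2 * C) * N ^ (-(q + 1)) := by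
          have e1 : s ^ (-q') ≤ N ^ (-(q + 3)) := by
            calc s ^ (-q') ≤ (N ^ (1 / 5 : ℝ)) ^ (-q') :=
                  Real.rpow_le_rpow_of_nonpos (Real.rpow_pos_of_pos hN0 _) hsN (by linarith)
              _ = N ^ (-(q + 3)) := by
                  rw [← Real.rpow_mul hN0.le]; congr 1; rw [hq']; ring
          have e2 : ((⌊A / l⌋₊ : ℕ) : ℝ) ≤ 2 * N := by
            refine hm2.trans ?_
            have : A / s ≤ A / 1 := by gcongr; linarith
            linarith
          calc ((⌊A / l⌋₊ : ℕ) : ℝ) * (C * s ^ (-q')) ≤ (2 * N) * (C * N ^ (-(q + 3))) := by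
                gcongr
            _ = 2 * C * (N ^ (1 : ℝ) * N ^ (-(q + 3))) := by rw [Real.rpow_one]; ring
            _ = 2 * C * N ^ (-(q + 2)) := by
                rw [← Real.rpow_add hN0]; congr 2; ring
            _ ≤ (C1 + 2 * C) * N ^ (-(q + 1)) := by
                apply mul_le_mul (by linarith) _ (by positivity) (by positivity)
                exact Real.rpow_le_rpow_of_exponent_le hN1 (by linarith)
        have hfin : ((⌊A / l⌋₊ : ℕ) : ℝ) * (C * s ^ (-q')) +
            (i + 1) * ((C1 + 2 * C) * N ^ (-(q + 1))) ≤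
            (((i + 1 : ℕ) : ℝ) + 1) * ((C1 + 2 * C) * N ^ (-(q + 1))) := by
          push_cast
          linarith
        refine le_trans ?_ (hlev.trans hfin)
        refine measureReal_mono ?_ (measure_ne_top _ _)
        intro ω hω
        have h1 : A + (((i + 1 : ℕ) : ℝ) + 1) * e < tau (fld X ω) Set.univ 0 v := hω
        have h2 : A + (((⌊A / l⌋₊ : ℕ) : ℝ) * (s - l) + 2 * M + (i + 1) * e) <
            tau (fld X ω) Set.univ 0 v := by
          push_cast at h1
          linarith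
        exact h2
  -- conclusion
  have hev2 : ∀ᶠ n : ℝ in atTop, M ^ (1 / 3 + ε / 2 + ε / 4) * n ^ (1 / 3 + 3 * ε / 4) ≤
      n ^ (1 / 3 + ε') := by
    have := ev_pow (a := 1 / 3 + ε') (b := 1 / 3 + 3 * ε / 4) (M ^ (1 / 3 + ε / 2 + ε / 4)) 0
      (by linarith) (by linarith)
    filter_upwards [this] with n hn
    linarith
  have hev3 : ∀ᶠ n : ℝ in atTop, _ := (tendsto_id.const_mul_atTop
    (show (0 : ℝ) < M by linarith)).eventually hev
  filter_upwards [hev3, hev2, eventually_ge_atTop 1] with n hn hn2 hn1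
  intro v hv
  obtain ⟨b1, b2, b3, b4, b5, b6⟩ := hn
  set N := M * id n with hN
  simp only [id] at hN
  have hN0 : 0 < N := by linarith
  have hN1 : 1 ≤ N := by linarith
  have hmu := hM2 (cv v)
  rw [nm_cv, hv, ← hN] at hmu
  set i := ⌈Real.log N / Real.log 2⌉₊ with hi
  have hl2 : 0 < Real.log 2 := Real.log_pos (by norm_num)
  have hlN : 0 ≤ Real.log N := Real.log_nonneg hN1
  have hi1 : Real.log N ≤ i * Real.log 2 := by
    have := Nat.le_ceil (Real.log N / Real.log 2)
    rw [div_le_iff₀ hl2] at this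
    exact this
  have hi2 : (i : ℝ) + 1 ≤ 2 * Real.log N + 2 := by
    have h1 := (Nat.ceil_lt_add_one (show 0 ≤ Real.log N / Real.log 2 by positivity)).le
    have h2 : Real.log N / Real.log 2 ≤ 2 * Real.log N := by
      rw [div_le_iff₀ hl2]
      have := Real.log_two_gt_d9
      nlinarith
    linarith
  have hpow : N ≤ 2 ^ i := by
    rw [← Real.log_le_log_iff hN0 (by positivity), Real.log_pow]
    exact hi1
  have hNquart : 1 ≤ N ^ (1 / 4 : ℝ) := Real.one_le_rpow hN1 (by norm_num)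
  have hk := key N b1 b2 b3 b4 b5 i v (by nlinarith) hmu
  have hi3 : (i : ℝ) + 1 ≤ N ^ (ε / 4) := hi2.trans b6
  have hNM : N ^ (ε / 4) = M ^ (ε / 4) * n ^ (ε / 4) := by
    rw [hN, Real.mul_rpow hM0 (by linarith)]
  have hcost : ((i : ℝ) + 1) * N ^ (1 / 3 + ε / 2) ≤ n ^ (1 / 3 + ε') := by
    calc ((i : ℝ) + 1) * N ^ (1 / 3 + ε / 2) ≤ N ^ (ε / 4) * N ^ (1 / 3 + ε / 2) := by gcongr
      _ = N ^ (1 / 3 + ε / 2 + ε / 4) := by rw [← Real.rpow_add hN0]; congr 1; ring
      _ = M ^ (1 / 3 + ε / 2 + ε / 4) * n ^ (1 / 3 + ε / 2 + ε / 4) := by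
          rw [hN, Real.mul_rpow hM0 (by linarith)]
      _ = M ^ (1 / 3 + ε / 2 + ε / 4) * n ^ (1 / 3 + 3 * ε / 4) := by congr 2; ring
      _ ≤ n ^ (1 / 3 + ε') := hn2
  have hprob : ((i : ℝ) + 1) * ((C1 + 2 * C) * N ^ (-(q + 1))) ≤
      (C1 + 2 * C) * M ^ (ε / 4) * n ^ (-q) := by
    have hn0 : 0 < n := by linarith
    have hNn : n ≤ N := by rw [hN]; nlinarith
    calc ((i : ℝ) + 1) * ((C1 + 2 * C) * N ^ (-(q + 1)))
        ≤ (M ^ (ε / 4) * n ^ (ε / 4)) * ((C1 + 2 * C) * n ^ (-(q + 1))) := by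
          apply mul_le_mul (hi3.trans hNM.le) _ (by positivity) (by positivity)
          apply mul_le_mul_of_nonneg_left _ (by positivity)
          exact Real.rpow_le_rpow_of_nonpos hn0 hNn (by linarith)
      _ = (C1 + 2 * C) * M ^ (ε / 4) * (n ^ (ε / 4) * n ^ (-(q + 1))) := by ring
      _ ≤ (C1 + 2 * C) * M ^ (ε / 4) * n ^ (-q) := by
          apply mul_le_mul_of_nonneg_left _ (by positivity)
          rw [← Real.rpow_add hn0]
          exact Real.rpow_le_rpow_of_exponent_le hn1 (by linarith)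
  refine le_trans ?_ (hk.trans hprob)
  refine measureReal_mono ?_ (measure_ne_top _ _)
  intro ω hω
  have h1 : μ (cv v) + n ^ (1 / 3 + ε') < tau (fld X ω) Set.univ 0 v := hω
  have h2 : μ (cv v) + ((i : ℝ) + 1) * N ^ (1 / 3 + ε / 2) < tau (fld X ω) Set.univ 0 v := by
    linarith
  exact h2

end Pool.Agent.Q231.FP
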