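import Pool.Agent.Q231.FP.Sparse

set_option autoImplicit false

/-!
# Sparse times suffice: the outer half
-/

namespace Pool.Agent.Q231.FP

open MeasureTheory ProbabilityTheory Filter Topology Asymptotics
open scoped ENNReal Pointwise

variable {Ω : Type*} [MeasurableSpace Ω] {P : Measure Ω} {X : Sym2 V → Ω → ℝ} {μ : ℝ × ℝ → ℝ}

theorem IsFPP.fast_of_ptp (hF : IsFPP P X μ) {κ : ℝ} (hκ : 0 < κ)
    (h : ∀ ε : ℝ, 0 < ε → ∀ q : ℝ, 0 < q → ∃ C : ℝ, 0 ≤ C ∧ ∀ᶠ n : ℝ in atTop, ∀ v : V,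
      (l1 v : ℝ) = n → P.real {ω | tau (fld X ω) Set.univ 0 v < μ (cv v) - n ^ (κ + ε)} ≤
        C * n ^ (-q)) : Fast P X μ κ := by
  have hP := hF.env.prob
  obtain ⟨M, hM1, hM2, -⟩ := hF.upper
  have hM0' : 0 ≤ M := by linarith
  intro ε hε q hq
  set p := κ + ε + 2 with hp
  obtain ⟨C, hC0, hC⟩ := h ε hε (q * p) (by positivity)
  obtain ⟨n0, hn0⟩ := eventually_atTop.mp hC
  apply of_large (by linarith) hq (fun _ _ => measureReal_le_one)
  refine ⟨C * 2 ^ (q * p), (1 + max n0 1) ^ p + M ^ 2, by positivity, fun v s hs hvs => ?_⟩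
  have hbase : (1 : ℝ) ≤ 1 + max n0 1 := by have := le_max_right n0 1; linarith
  have hb0 : 0 < (1 + max n0 1) ^ p := Real.rpow_pos_of_pos (by linarith) _
  have hs1 : 1 ≤ s := by nlinarith
  have hspos : 0 < s ^ (-q) := Real.rpow_pos_of_pos (by linarith) _
  rcases le_or_gt s ((1 + (l1 v : ℝ)) ^ p) with hA | hB
  · have h1 : 1 + max n0 1 < 1 + (l1 v : ℝ) := by
      by_contra hcon
      push Not at hcon
      have : (1 + (l1 v : ℝ)) ^ p ≤ (1 + max n0 1) ^ p :=
        Real.rpow_le_rpow (by positivity) hcon (by positivity)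
      nlinarith
    have h2 : n0 ≤ (l1 v : ℝ) := by have := le_max_left n0 1; linarith
    have h3 : 1 ≤ (l1 v : ℝ) := by have := le_max_right n0 1; linarith
    have h4 := hn0 (l1 v) h2 v rfl
    have h5 : P.real {ω | tau (fld X ω) Set.univ 0 v < μ (cv v) - s} ≤
        P.real {ω | tau (fld X ω) Set.univ 0 v < μ (cv v) - (l1 v : ℝ) ^ (κ + ε)} := by
      refine measureReal_mono ?_ (measure_ne_top _ _)
      intro ω hω
      have h6 : tau (fld X ω) Set.univ 0 v < μ (cv v) - s := hω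
      have h7 : (l1 v : ℝ) ^ (κ + ε) ≤ (1 + (l1 v : ℝ)) ^ (κ + ε) :=
        Real.rpow_le_rpow (by positivity) (by linarith) (by linarith)
      have h8 : tau (fld X ω) Set.univ 0 v < μ (cv v) - (l1 v : ℝ) ^ (κ + ε) := by linarith
      exact h8
    have h6 : (l1 v : ℝ) ^ (-(q * p)) ≤ 2 ^ (q * p) * s ^ (-q) := by
      calc (l1 v : ℝ) ^ (-(q * p)) ≤ ((1 + (l1 v : ℝ)) / 2) ^ (-(q * p)) :=
            Real.rpow_le_rpow_of_nonpos (by positivity) (by linarith)
              (by have : 0 < q * p := by positivity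
                  linarith)
        _ = 2 ^ (q * p) * ((1 + (l1 v : ℝ)) ^ p) ^ (-q) := by
            rw [div_eq_mul_inv, Real.mul_rpow (by positivity) (by norm_num),
              Real.inv_rpow (by norm_num), Real.rpow_neg (by norm_num : (0 : ℝ) ≤ 2), inv_inv,
              ← Real.rpow_mul (by positivity), mul_comm]
            congr 2; ring
        _ ≤ 2 ^ (q * p) * s ^ (-q) := by
            apply mul_le_mul_of_nonneg_left _ (by positivity)
            exact Real.rpow_le_rpow_of_nonpos (by linarith) hA (by linarith)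
    calc P.real {ω | tau (fld X ω) Set.univ 0 v < μ (cv v) - s}
        ≤ C * (l1 v : ℝ) ^ (-(q * p)) := h5.trans h4
      _ ≤ C * (2 ^ (q * p) * s ^ (-q)) := by gcongr
      _ = (C * 2 ^ (q * p)) * s ^ (-q) := by ring
  · have h1 : (1 + (l1 v : ℝ)) ^ (2 : ℝ) ≤ s := by
      refine le_trans ?_ hB.le
      apply Real.rpow_le_rpow_of_exponent_le
      · have : (0 : ℝ) ≤ l1 v := by positivity
        linarith
      · linarith
    have h1' : (1 + (l1 v : ℝ)) ^ 2 ≤ s := by
      rw [← Real.rpow_natCast]; exact_mod_cast h1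
    have hmu := hM2 (cv v)
    rw [nm_cv] at hmu
    have hle : μ (cv v) ≤ s := by
      refine hmu.trans ?_
      have hM2s : M ^ 2 ≤ s := by linarith
      have hl0 : (0 : ℝ) ≤ l1 v := by positivity
      have hexp : (1 + (l1 v : ℝ)) ^ 2 = 1 + 2 * (l1 v : ℝ) + (l1 v : ℝ) * (l1 v : ℝ) := by ring
      have hMM : M ^ 2 = M * M := by ring
      rcases le_total M (l1 v : ℝ) with hh | hh
      · have h9 : M * (l1 v : ℝ) ≤ (l1 v : ℝ) * (l1 v : ℝ) := mul_le_mul_of_nonneg_right hh hl0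
        rw [hexp] at h1'
        calc M * (l1 v : ℝ) ≤ (l1 v : ℝ) * (l1 v : ℝ) := h9
          _ ≤ 1 + 2 * (l1 v : ℝ) + (l1 v : ℝ) * (l1 v : ℝ) := by linarith
          _ ≤ s := h1'
      · have h9 : M * (l1 v : ℝ) ≤ M * M := mul_le_mul_of_nonneg_left hh hM0'
        rw [hMM] at hM2s
        linarith
    have : P.real {ω | tau (fld X ω) Set.univ 0 v < μ (cv v) - s} = 0 := by
      rw [measureReal_def, ENNReal.toReal_eq_zero_iff]
      left
      rw [← nonpos_iff_eq_zero, ← measure_empty (μ := P)]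
      apply measure_mono_ae
      filter_upwards [hF.env.ae_nonneg] with ω hω hlt
      have h1 := tau_nonneg hω Set.univ 0 v
      have h2 : tau (fld X ω) Set.univ 0 v < μ (cv v) - s := hlt
      linarith
    rw [this]; positivity

theorem IsFPP.fast_of_along (hF : IsFPP P X μ) {t : ℕ → ℝ} (ht : Tendsto t atTop atTop)
    (hr : Tendsto (fun k => Real.log (t (k + 1)) / Real.log (t k)) atTop (𝓝 1))
    (h : OuterAlong P X μ t) (hS : Slow P X μ (1 / 3)) : Fast P X μ (1 / 3) := by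
  have hP := hF.env.prob
  obtain ⟨M, hM1, hM2, hMl⟩ := hF.upper
  have hM0 : 0 ≤ M := by linarith
  apply hF.fast_of_ptp (by norm_num)
  intro ε hε q hq
  set η := min (ε / 8) (1 / 24) with hη
  have hη0 : 0 < η := lt_min (by linarith) (by norm_num)
  have hη1 : η ≤ 1 / 24 := min_le_right _ _
  have hηε : 8 * η ≤ ε := by have := min_le_left (ε / 8) (1 / 24); linarith
  obtain ⟨C, hC0, hC⟩ := (h η hη0 (by linarith) q hq).exists_nonneg
  obtain ⟨K0, hK0⟩ := eventually_atTop.mp hC.bound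
  obtain ⟨R0, hR01, hR0⟩ := pick ht hr hη0 (by linarith) K0
  obtain ⟨C2, hC20, hC2⟩ := hS η hη0 (3 * q) (by positivity)
  refine ⟨C * 200 ^ q + C2 * 2 ^ (3 * q), by positivity, ?_⟩
  have e1 : ∀ᶠ n : ℝ in atTop, (M * n) ^ (1 + η) ≤ n ^ (1 + 2 * η) := by
    filter_upwards [ev_pow (a := 1 + 2 * η) (b := 1 + η) (M ^ (1 + η)) 0 (by linarith)
      (by linarith), eventually_gt_atTop 0] with n h1 h2
    rw [Real.mul_rpow hM0 h2.le]; linarith
  have e2 := ev_pow (a := 1 / 3 + 5 * η) (b := 1 / 3 + 4 * η) 1 (4 * M + 1) (by linarith)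
      (by linarith)
  have e3 : ∀ᶠ n : ℝ in atTop, (401 * n ^ (1 + 2 * η)) ^ (1 / 3 + η) ≤ n ^ (1 / 3 + ε) / 2 := by
    filter_upwards [ev_pow (a := 1 / 3 + ε) (b := 1 / 3 + 4 * η) (2 * 401 ^ (1 / 3 + η)) 0
      (by linarith) (by linarith), eventually_ge_atTop 1] with n h1 h2
    rw [Real.mul_rpow (by norm_num) (Real.rpow_nonneg (by linarith) _),
      ← Real.rpow_mul (by linarith)]
    have : n ^ ((1 + 2 * η) * (1 / 3 + η)) ≤ n ^ (1 / 3 + 4 * η) := by
      apply Real.rpow_le_rpow_of_exponent_le h2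
      nlinarith
    have h3 : (401 : ℝ) ^ (1 / 3 + η) * n ^ ((1 + 2 * η) * (1 / 3 + η)) ≤
        401 ^ (1 / 3 + η) * n ^ (1 / 3 + 4 * η) := by gcongr
    linarith
  have e4 := ev_pow (a := 1 / 3 + ε) (b := 1 / 3 + 5 * η) 2 0 (by linarith) (by linarith)
  have e5 := ev_pow (a := 1 + 2 * η) (b := 0) 0 (1 + 200 * (4 * M + 1)) (by linarith)
    (by linarith)
  filter_upwards [eventually_ge_atTop 2, eventually_ge_atTop (200 * R0), e1, e2, e3, e4, e5]
    with n n2 nR h1 h2 h3 h4 h5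
  intro v hv
  rw [zero_mul, zero_add] at h5
  rw [one_mul] at h2
  rw [add_zero] at h4
  have hn0 : 0 < n := by linarith
  have hn1 : 1 ≤ n := by linarith
  set A := μ (cv v) with hA
  have hlow := hF.lower (cv v)
  rw [nm_cv, hv, ← hA] at hlow
  have hup := hM2 (cv v)
  rw [nm_cv, hv, ← hA] at hup
  have hA0 : 0 < A := by linarith
  have hAR : R0 ≤ A := by linarith
  obtain ⟨k, hk1, hk2, hk3, -, hk5⟩ := hR0 A hAR
  set T := t (k + 1) with hT
  have hT1 : 1 ≤ T := by linarith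
  have hT0 : 0 < T := by linarith
  have hTn : T ≤ n ^ (1 + 2 * η) := by
    refine hk5.trans (le_trans ?_ h1)
    exact Real.rpow_le_rpow hA0.le hup (by linarith)
  have hTp0 : 0 < T ^ (1 / 3 + η) := Real.rpow_pos_of_pos hT0 _
  have hTp : T ^ (1 / 3 + η) ≤ n ^ (1 / 3 + 4 * η) := by
    calc T ^ (1 / 3 + η) ≤ (n ^ (1 + 2 * η)) ^ (1 / 3 + η) :=
          Real.rpow_le_rpow hT0.le hTn (by linarith)
      _ = n ^ ((1 + 2 * η) * (1 / 3 + η)) := by rw [← Real.rpow_mul hn0.le]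
      _ ≤ n ^ (1 / 3 + 4 * η) := by
          apply Real.rpow_le_rpow_of_exponent_le hn1
          nlinarith
  have hTpT : T ^ (1 / 3 + η) ≤ T := by
    calc T ^ (1 / 3 + η) ≤ T ^ (1 : ℝ) := Real.rpow_le_rpow_of_exponent_le hT1 (by linarith)
      _ = T := Real.rpow_one T
  set ρ := T + T ^ (1 / 3 + η) + 2 * M + 1 with hρ
  have hρA : A ≤ ρ := by linarith
  have hρ0 : 0 < ρ := by linarith
  set w : V := rd ((ρ / A) • cv v) with hw
  have hnear := rd_near ((ρ / A) • cv v)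
  rw [← hw] at hnear
  have hmuw : T + T ^ (1 / 3 + η) < μ (cv w) := by
    have h6 := (abs_le.mp (hMl (cv w) ((ρ / A) • cv v))).1
    rw [hF.homog _ _ (by positivity), ← hA] at h6
    have h7 : ρ / A * A = ρ := by field_simp
    rw [h7] at h6
    nlinarith
  have hmud : μ (cv (w - v)) ≤ ρ - A + 2 * M := by
    have h8 : nm (cv (w - v) - (ρ / A - 1) • cv v) ≤ 2 := by
      have e : cv (w - v) - (ρ / A - 1) • cv v = cv w - (ρ / A) • cv v := by
        rw [cv_sub, sub_smul, one_smul]; abel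
      rw [e]; exact hnear
    have h6 := (abs_le.mp (hMl (cv (w - v)) ((ρ / A - 1) • cv v))).2
    have h9 : 0 ≤ ρ / A - 1 := by rw [sub_nonneg, le_div_iff₀ hA0]; linarith
    rw [hF.homog _ _ h9, ← hA] at h6
    have h7 : (ρ / A - 1) * A = ρ - A := by field_simp
    rw [h7] at h6
    nlinarith
  set s := n ^ (1 / 3 + ε) with hs
  have hs0 : 0 < s := Real.rpow_pos_of_pos hn0 _
  have hslow : P.real {ω | μ (cv (w - v)) + s / 2 < tau (fld X ω) Set.univ v w} ≤
      C2 * (s / 2) ^ (-(3 * q)) := by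
    have h6 := hF.env.tau_law v w (A := Set.Ioi (μ (cv (w - v)) + s / 2)) measurableSet_Ioi
    have h7 := hC2 (w - v) (s / 2) (by
      refine le_trans ?_ h3
      apply Real.rpow_le_rpow (by positivity) _ (by linarith)
      have h8 := hF.lower (cv (w - v))
      rw [nm_cv] at h8
      linarith)
    rw [measureReal_def] at h7 ⊢
    refine le_trans (le_of_eq ?_) h7
    exact congrArg ENNReal.toReal h6
  have hout : P.real (BO X μ η T) ≤ C * T ^ (-q) := by
    have h6 := hK0 (k + 1) (by omega)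
    rw [Real.norm_of_nonneg ENNReal.toReal_nonneg, Real.norm_of_nonneg
      (Real.rpow_nonneg hT0.le _)] at h6
    exact h6
  have hsub : P {ω | tau (fld X ω) Set.univ 0 v < A - s} ≤
      P (BO X μ η T ∪ {ω | μ (cv (w - v)) + s / 2 < tau (fld X ω) Set.univ v w}) := by
    apply measure_mono_ae
    filter_upwards [hF.env.ae_nonneg] with ω hω hlt
    by_contra hcon
    have c1 : ω ∉ BO X μ η T := fun hh => hcon (Or.inl hh)
    have c2 : tau (fld X ω) Set.univ v w ≤ μ (cv (w - v)) + s / 2 :=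
      not_lt.mp fun hh => hcon (Or.inr hh)
    have hlt' : tau (fld X ω) Set.univ 0 v < A - s := hlt
    have s3 := tau_tri hω 0 v w
    exact c1 (hF.memBO hT0 hmuw (by linarith))
  have hfin : P.real {ω | tau (fld X ω) Set.univ 0 v < A - s} ≤
      C * T ^ (-q) + C2 * (s / 2) ^ (-(3 * q)) :=
    (ENNReal.toReal_mono (measure_ne_top _ _) hsub).trans
      ((measureReal_union_le _ _).trans (add_le_add hout hslow))
  refine hfin.trans ?_
  have g1 : T ^ (-q) ≤ 200 ^ q * n ^ (-q) := by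
    calc T ^ (-q) ≤ (n / 200) ^ (-q) :=
          Real.rpow_le_rpow_of_nonpos (by positivity) (by linarith) (by linarith)
      _ = 200 ^ q * n ^ (-q) := by
          rw [div_eq_mul_inv, Real.mul_rpow hn0.le (by norm_num),
            Real.inv_rpow (by norm_num), Real.rpow_neg (by norm_num : (0 : ℝ) ≤ 200), inv_inv]
          ring
  have g2 : (s / 2) ^ (-(3 * q)) ≤ 2 ^ (3 * q) * n ^ (-q) := by
    calc (s / 2) ^ (-(3 * q)) = 2 ^ (3 * q) * s ^ (-(3 * q)) := by
          rw [div_eq_mul_inv, Real.mul_rpow hs0.le (by norm_num),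
            Real.inv_rpow (by norm_num), Real.rpow_neg (by norm_num : (0 : ℝ) ≤ 2), inv_inv]
          ring
      _ ≤ 2 ^ (3 * q) * n ^ (-q) := by
          apply mul_le_mul_of_nonneg_left _ (by positivity)
          rw [hs, ← Real.rpow_mul hn0.le]
          apply Real.rpow_le_rpow_of_exponent_le hn1
          nlinarith
  calc C * T ^ (-q) + C2 * (s / 2) ^ (-(3 * q))
      ≤ C * (200 ^ q * n ^ (-q)) + C2 * (2 ^ (3 * q) * n ^ (-q)) := by gcongr
    _ = (C * 200 ^ q + C2 * 2 ^ (3 * q)) * n ^ (-q) := by ring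

theorem IsFPP.both_along (hF : IsFPP P X μ) {t : ℕ → ℝ} (ht : Tendsto t atTop atTop)
    (hr : Tendsto (fun k => Real.log (t (k + 1)) / Real.log (t k)) atTop (𝓝 1)) :
    (Outer P X μ ∧ Inner P X μ) ↔ (OuterAlong P X μ t ∧ InnerAlong P X μ t) := by
  constructor
  · rintro ⟨h1, h2⟩
    exact ⟨fun ζ hζ hζ1 q hq => (h1 ζ hζ hζ1 q hq).comp_tendsto ht,
      fun ζ hζ hζ1 q hq => (h2 ζ hζ hζ1 q hq).comp_tendsto ht⟩
  · rintro ⟨h1, h2⟩
    have hS := hF.slow_of_along ht hr h2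
    exact ⟨hF.outer_of_fast (hF.fast_of_along ht hr h1 hS), hF.inner_of_slow hS⟩

end Pool.Agent.Q231.FP
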