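import Pool.Agent.Q231.FP.Loc

set_option autoImplicit false

/-!
# Subdividing a segment
-/

namespace Pool.Agent.Q231.FP

open MeasureTheory ProbabilityTheory Filter Topology Asymptotics
open scoped ENNReal Pointwise

/-- division points of the segment from `0` to `v` -/
def pt (v : V) (m j : ℕ) : V := (((j : ℤ) * v.1) / (m : ℤ), ((j : ℤ) * v.2) / (m : ℤ))

theorem pt_zero (v : V) (m : ℕ) : pt v m 0 = 0 := by
  simp [pt]

theorem pt_self (v : V) {m : ℕ} (hm : 1 ≤ m) : pt v m m = v := by
  have h : (m : ℤ) ≠ 0 := by omega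
  unfold pt
  rw [Int.mul_ediv_cancel_left _ h, Int.mul_ediv_cancel_left _ h]

theorem frac (a : ℤ) {m : ℕ} (hm : 1 ≤ m) :
    ((a / (m : ℤ) : ℤ) : ℝ) ≤ (a : ℝ) / m ∧ (a : ℝ) / m < ((a / (m : ℤ) : ℤ) : ℝ) + 1 := by
  have hm0 : (0 : ℝ) < m := by exact_mod_cast hm
  have hm1 : (0 : ℤ) < m := by exact_mod_cast hm
  constructor
  · rw [le_div_iff₀ hm0]
    have := Int.ediv_mul_le a (ne_of_gt hm1)
    exact_mod_cast this
  · rw [div_lt_iff₀ hm0]
    have := Int.lt_ediv_add_one_mul_self a hm1
    exact_mod_cast this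

theorem pt_diff (v : V) {m : ℕ} (hm : 1 ≤ m) (i j : ℕ) :
    nm (cv (pt v m j - pt v m i) - (((j : ℝ) - i) / m) • cv v) ≤ 2 := by
  have key : ∀ a : ℤ, |((((j : ℤ) * a) / (m : ℤ) : ℤ) : ℝ) - ((((i : ℤ) * a) / (m : ℤ) : ℤ) : ℝ) -
      ((j : ℝ) - i) / m * a| ≤ 1 := by
    intro a
    have h1 := frac ((j : ℤ) * a) hm
    have h2 := frac ((i : ℤ) * a) hm
    push_cast at h1 h2
    have e : ((j : ℝ) - i) / m * a = (j : ℝ) * a / m - (i : ℝ) * a / m := by ring
    rw [e, abs_le]
    constructor <;> linarith [h1.1, h1.2, h2.1, h2.2]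
  have h1 := key v.1
  have h2 := key v.2
  simp only [nm, cv, pt, Prod.fst_sub, Prod.snd_sub, Prod.smul_fst, Prod.smul_snd, smul_eq_mul,
    Int.cast_sub]
  linarith

theorem pt_upper (v : V) {m : ℕ} (hm : 1 ≤ m) (j : ℕ) :
    (l1 (pt v m (j + 1) - pt v m j) : ℝ) ≤ (l1 v : ℝ) / m + 2 := by
  have h := pt_diff v hm j (j + 1)
  have h2 := nm_add (cv (pt v m (j + 1) - pt v m j) - ((((j + 1 : ℕ) : ℝ) - j) / m) • cv v)
    (((((j + 1 : ℕ) : ℝ) - j) / m) • cv v)
  rw [sub_add_cancel, nm_cv, nm_smul, nm_cv] at h2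
  have e : (((j + 1 : ℕ) : ℝ) - j) / m = 1 / m := by push_cast; ring_nf
  rw [e] at h2 h
  rw [abs_of_nonneg (by positivity)] at h2
  have : 1 / (m : ℝ) * l1 v = l1 v / m := by ring
  linarith

theorem pt_lower (v : V) {m : ℕ} (hm : 1 ≤ m) (i j : ℕ) :
    |(j : ℝ) - i| * ((l1 v : ℝ) / m) - 2 ≤ l1 (pt v m j - pt v m i) := by
  have h := pt_diff v hm i j
  have h2 := nm_add (cv (pt v m j - pt v m i)) (-(cv (pt v m j - pt v m i) -
    (((j : ℝ) - i) / m) • cv v))
  rw [nm_neg, nm_cv, show cv (pt v m j - pt v m i) + -(cv (pt v m j - pt v m i) -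
    (((j : ℝ) - i) / m) • cv v) = (((j : ℝ) - i) / m) • cv v by abel, nm_smul, nm_cv] at h2
  have hm0 : (0 : ℝ) < m := by exact_mod_cast hm
  rw [abs_div, abs_of_pos hm0] at h2
  have : |(j : ℝ) - i| / m * l1 v = |(j : ℝ) - i| * ((l1 v : ℝ) / m) := by ring
  linarith

theorem tau_sum {w : W} (hw : ∀ e, 0 ≤ w e) (x : ℕ → V) (m : ℕ) :
    tau w Set.univ (x 0) (x m) ≤ ∑ j ∈ Finset.range m, tau w Set.univ (x j) (x (j + 1)) := by
  induction m with
  | zero => simp [tau_self hw]
  | succ m ih =>
    rw [Finset.sum_range_succ]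
    linarith [tau_tri hw (x 0) (x m) (x (m + 1))]

variable {Ω : Type*} [MeasurableSpace Ω] {P : Measure Ω} {X : Sym2 V → Ω → ℝ} {μ : ℝ × ℝ → ℝ}

theorem IsEnv.map_tau (hX : IsEnv P X) (x y : V) :
    P.map (fun ω => tau (fld X ω) Set.univ x y) = P.map (fun ω => tau (fld X ω) Set.univ 0 (y - x))
    := by
  ext A hA
  rw [Measure.map_apply (hX.mtau _ _ _) hA, Measure.map_apply (hX.mtau _ _ _) hA]
  exact hX.tau_law x y hA

theorem IsEnv.integral_tau (hX : IsEnv P X) (x y : V) {f : ℝ → ℝ} (hf : Measurable f) :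
    ∫ ω, f (tau (fld X ω) Set.univ x y) ∂P = ∫ ω, f (tau (fld X ω) Set.univ 0 (y - x)) ∂P := by
  rw [← integral_map (φ := fun ω => tau (fld X ω) Set.univ x y) (hX.mtau _ _ _).aemeasurable
    hf.aestronglyMeasurable, hX.map_tau x y,
    integral_map (hX.mtau _ _ _).aemeasurable hf.aestronglyMeasurable]

theorem IsEnv.integrable_tau (hX : IsEnv P X) (x y : V) {f : ℝ → ℝ} (hf : Measurable f)
    (h : Integrable (fun ω => f (tau (fld X ω) Set.univ 0 (y - x))) P) :
    Integrable (fun ω => f (tau (fld X ω) Set.univ x y)) P := by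
  have h1 : Integrable f (P.map (fun ω => tau (fld X ω) Set.univ 0 (y - x))) := by
    rw [integrable_map_measure hf.aestronglyMeasurable (hX.mtau _ _ _).aemeasurable]
    exact h
  rw [← hX.map_tau x y] at h1
  rwa [integrable_map_measure hf.aestronglyMeasurable (hX.mtau _ _ _).aemeasurable] at h1

/-- the box does not matter with high probability -/
theorem IsEnv.box_prob (hX : IsEnv P X) (x y : V) {L g : ℝ} {R : ℕ} (hL : (l1 (y - x) : ℝ) ≤ L)
    (hg : 0 ≤ g) (hR : L * g < R / 200) :
    P.real {ω | tau (fld X ω) Set.univ x y < tau (fld X ω) (box x R) x y} ≤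
      (16 / 25 : ℝ) ^ R + L * Real.exp (-g) := by
  have hP := hX.prob
  have h1 : P {ω | tau (fld X ω) Set.univ x y < tau (fld X ω) (box x R) x y} ≤
      P ({ω | ∃ z : V, R ≤ l1 (z - x) ∧ tau (fld X ω) Set.univ x z < (R : ℝ) / 200} ∪
        {ω | (l1 (y - x) : ℝ) * g < tau (fld X ω) Set.univ x y}) := by
    apply measure_mono_ae
    filter_upwards [hX.ae_nonneg] with ω hω hlt
    by_contra hcon
    have a1 : ¬ ∃ z : V, R ≤ l1 (z - x) ∧ tau (fld X ω) Set.univ x z < (R : ℝ) / 200 :=
      fun h => hcon (Or.inl h)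
    have a2 : ¬ (l1 (y - x) : ℝ) * g < tau (fld X ω) Set.univ x y := fun h => hcon (Or.inr h)
    push Not at a1 a2
    have h3 := local_eq hω (x := x) (y := y) (R := R) (s := (R : ℝ) / 200) (fun z hz => a1 z hz)
      (by
        have : (l1 (y - x) : ℝ) * g ≤ L * g := by gcongr
        linarith)
    have h4 : tau (fld X ω) Set.univ x y < tau (fld X ω) (box x R) x y := hlt
    linarith
  have h2 : P {ω | (l1 (y - x) : ℝ) * g < tau (fld X ω) Set.univ x y} ≤
      ENNReal.ofReal (L * Real.exp (-g)) := by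
    have := hX.tau_law x y (A := Set.Ioi ((l1 (y - x) : ℝ) * g)) measurableSet_Ioi
    refine (le_of_eq this).trans ((hX.upper (y - x) g hg).trans ?_)
    apply ENNReal.ofReal_le_ofReal
    gcongr
  have h3 := h1.trans ((measure_union_le _ _).trans (add_le_add (hX.far' x R) h2))
  have hL0 : 0 ≤ L := le_trans (by positivity) hL
  rw [← ENNReal.ofReal_add (by positivity) (by positivity)] at h3
  rw [measureReal_def]
  exact ENNReal.toReal_le_of_le_ofReal (by positivity) h3

/-- one step of the bootstrap, in quantitative form -/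
theorem IsFPP.step (hF : IsFPP P X μ) {M : ℝ} (hMl : ∀ x y, |μ x - μ y| ≤ M * nm (x - y))
    (hM : 0 ≤ M) (v : V) {m : ℕ} (hm : 1 ≤ m) {L g b a a0 x β : ℝ} {R K : ℕ}
    (hL : (l1 v : ℝ) / m + 2 ≤ L) (hLR : L ≤ R) (hg : 0 ≤ g) (hR : L * g < R / 200) (hK0 : 0 < K)
    (hK : 4 * (R : ℝ) + 2 < K * ((l1 v : ℝ) / m)) (hb : 0 < b)
    (hint : ∀ u : V, Integrable (fun ω => max (tau (fld X ω) Set.univ 0 u - μ (cv u)) 0) P)
    (hmean : ∀ u : V, (l1 u : ℝ) ≤ L →
      ∫ ω, max (tau (fld X ω) Set.univ 0 u - μ (cv u)) 0 ∂P ≤ a0)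
    (ha : a0 + b * ((16 / 25 : ℝ) ^ R + L * Real.exp (-g)) ≤ a)
    (hβ : ∀ u : V, (l1 u : ℝ) ≤ L →
      P.real {ω | μ (cv u) + b < tau (fld X ω) Set.univ 0 u} ≤ β) :
    P.real {ω | μ (cv v) + 2 * M * m + 2 * m * a + K * (b * x) < tau (fld X ω) Set.univ 0 v} ≤
      m * (((16 / 25 : ℝ) ^ R + L * Real.exp (-g)) + β) + K * Real.exp (-x) := by
  classical
  have hP := hF.env.prob
  have hX := hF.env
  set δ := (16 / 25 : ℝ) ^ R + L * Real.exp (-g) with hδ
  set y : ℕ → V := pt v m with hy
  have hlen : ∀ j, (l1 (y (j + 1) - y j) : ℝ) ≤ L := fun j => (pt_upper v hm j).trans hL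
  set Y : ℕ → W → ℝ := fun j w =>
    min (max (tau w (box (y j) R) (y j) (y (j + 1)) - μ (cv (y (j + 1) - y j))) 0) b with hY
  have hYm : ∀ j, Measurable (Y j) := fun j =>
    (((meas_tau _ _ _).sub_const _).max measurable_const).min measurable_const
  have hYd : ∀ j, Dep (edg (y j) R) (Y j) := by
    intro j w w' h
    simp only [hY]
    rw [show tau w (box (y j) R) (y j) (y (j + 1)) = tau w' (box (y j) R) (y j) (y (j + 1)) from
      dep_tau (y j) R (y j) (y (j + 1)) w w' h]
  have hY0 : ∀ j w, 0 ≤ Y j w := fun j w => le_min (le_max_right _ _) hb.le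
  have hYb : ∀ j w, Y j w ≤ b := fun j w => min_le_right _ _
  set bad1 : ℕ → Set Ω := fun j =>
    {ω | tau (fld X ω) Set.univ (y j) (y (j + 1)) < tau (fld X ω) (box (y j) R) (y j) (y (j + 1))}
    with hbad1
  have hb1 : ∀ j, P.real (bad1 j) ≤ δ := fun j => hX.box_prob _ _ (hlen j) hg hR
  set bad2 : ℕ → Set Ω := fun j =>
    {ω | μ (cv (y (j + 1) - y j)) + b < tau (fld X ω) Set.univ (y j) (y (j + 1))} with hbad2
  have hb2 : ∀ j, P.real (bad2 j) ≤ β := by
    intro j
    have h1 := hX.tau_law (y j) (y (j + 1)) (A := Set.Ioi (μ (cv (y (j + 1) - y j)) + b))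
      measurableSet_Ioi
    have h2 := hβ (y (j + 1) - y j) (hlen j)
    rw [measureReal_def] at h2 ⊢
    refine le_trans (le_of_eq ?_) h2
    exact congrArg ENNReal.toReal h1
  have hmY : ∀ j, ∫ ω, Y j (fld X ω) ∂P ≤ a := by
    intro j
    have hms : MeasurableSet (bad1 j) := measurableSet_lt (hX.mtau _ _ _) (hX.mtau _ _ _)
    have hfm : Measurable (fun t : ℝ => max (t - μ (cv (y (j + 1) - y j))) 0) := by fun_prop
    have hi1 : Integrable (fun ω => max (tau (fld X ω) Set.univ (y j) (y (j + 1)) -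
        μ (cv (y (j + 1) - y j))) 0) P :=
      hX.integrable_tau _ _ hfm (hint _)
    have hi2 : Integrable (fun ω => (bad1 j).indicator (fun _ => b) ω) P :=
      (integrable_const b).indicator hms
    calc ∫ ω, Y j (fld X ω) ∂P
        ≤ ∫ ω, (max (tau (fld X ω) Set.univ (y j) (y (j + 1)) -
            μ (cv (y (j + 1) - y j))) 0 + (bad1 j).indicator (fun _ => b) ω) ∂P := by
          apply integral_mono_of_nonneg
          · exact ae_of_all _ fun ω => hY0 _ _
          · exact hi1.add hi2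
          · refine ae_of_all _ fun ω => ?_
            simp only [Set.indicator_apply]
            split_ifs with hmem
            · have := hYb j (fld X ω)
              have := le_max_right (tau (fld X ω) Set.univ (y j) (y (j + 1)) -
                μ (cv (y (j + 1) - y j))) 0
              linarith
            · have h1 : tau (fld X ω) (box (y j) R) (y j) (y (j + 1)) ≤
                  tau (fld X ω) Set.univ (y j) (y (j + 1)) := not_lt.mp hmem
              rw [add_zero]
              refine (min_le_left _ _).trans ?_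
              exact max_le_max (by linarith) le_rfl
      _ = ∫ ω, max (tau (fld X ω) Set.univ (y j) (y (j + 1)) -
            μ (cv (y (j + 1) - y j))) 0 ∂P + P.real (bad1 j) * b := by
          rw [integral_add hi1 hi2, integral_indicator_const _ hms, smul_eq_mul]
      _ ≤ a0 + δ * b := by
          rw [hX.integral_tau (y j) (y (j + 1)) hfm]
          exact add_le_add (hmean _ (hlen j)) (mul_le_mul_of_nonneg_right (hb1 j) hb.le)
      _ ≤ a := by linarith
  -- the residue classes
  set J : ℕ → Finset ℕ := fun r => (Finset.range m).filter (fun j => j % K = r) with hJ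
  set bad3 : ℕ → Set Ω := fun r =>
    {ω | 2 * (J r).card * a + b * x ≤ ∑ j ∈ J r, Y j (fld X ω)} with hbad3
  have hb3 : ∀ r, P.real (bad3 r) ≤ Real.exp (-x) := by
    intro r
    apply hX.chernoff (J r) (fun j => edg (y j) R) Y _ hYm hYd hb hY0 hYb fun j _ => hmY j
    intro i hi j hj hij
    apply edg_disjoint
    have hi' := (Finset.mem_filter.mp hi).2
    have hj' := (Finset.mem_filter.mp hj).2
    have hdist : (K : ℝ) ≤ |(j : ℝ) - i| := by
      have h1 : (K : ℤ) ∣ (j : ℤ) - i := by
        have : (i : ℤ) ≡ j [ZMOD K] := by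
          rw [Int.ModEq]; exact_mod_cast hi'.trans hj'.symm
        exact this.dvd
      have h2 : (K : ℤ) ≤ |(j : ℤ) - i| := by
        have hne : (j : ℤ) - i ≠ 0 := by
          intro h; apply hij; omega
        exact Int.le_of_dvd (abs_pos.mpr hne) ((dvd_abs _ _).mpr h1)
      exact_mod_cast h2
    have h3 := pt_lower v hm i j
    have h4 : (K : ℝ) * ((l1 v : ℝ) / m) ≤ |(j : ℝ) - i| * ((l1 v : ℝ) / m) := by gcongr
    have h5 : (4 * R : ℝ) < l1 (y j - y i) := by rw [hy]; linarith
    exact_mod_cast h5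
  -- the union of the bad events
  have hsub : P {ω | μ (cv v) + 2 * M * m + 2 * m * a + K * (b * x) <
      tau (fld X ω) Set.univ 0 v} ≤ P ((⋃ j ∈ Finset.range m, (bad1 j ∪ bad2 j)) ∪
        ⋃ r ∈ Finset.range K, bad3 r) := by
    apply measure_mono_ae
    filter_upwards [hX.ae_nonneg] with ω hω hlt
    by_contra hcon
    have c1 : ∀ j ∈ Finset.range m, ω ∉ bad1 j := fun j hj h =>
      hcon (Or.inl (Set.mem_iUnion₂.mpr ⟨j, hj, Or.inl h⟩))
    have c2 : ∀ j ∈ Finset.range m, ω ∉ bad2 j := fun j hj h =>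
      hcon (Or.inl (Set.mem_iUnion₂.mpr ⟨j, hj, Or.inr h⟩))
    have c3 : ∀ r ∈ Finset.range K, ω ∉ bad3 r := fun r hr h =>
      hcon (Or.inr (Set.mem_iUnion₂.mpr ⟨r, hr, h⟩))
    have hlt' : μ (cv v) + 2 * M * m + 2 * m * a + K * (b * x) <
      tau (fld X ω) Set.univ 0 v := hlt
    have s1 := tau_sum hω y m
    rw [show y 0 = 0 from pt_zero v m, show y m = v from pt_self v hm] at s1
    have s2 : ∀ j ∈ Finset.range m, tau (fld X ω) Set.univ (y j) (y (j + 1)) ≤
        (μ (cv v) / m + 2 * M) + Y j (fld X ω) := by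
      intro j hj
      have d2 : tau (fld X ω) Set.univ (y j) (y (j + 1)) ≤ μ (cv (y (j + 1) - y j)) + b :=
        not_lt.mp (c2 j hj)
      have d3 : tau (fld X ω) Set.univ (y j) (y (j + 1)) ≤
          tau (fld X ω) (box (y j) R) (y j) (y (j + 1)) ∨
          (sums (fld X ω) (box (y j) R) (y j) (y (j + 1))) = ∅ := by
        rcases Set.eq_empty_or_nonempty (sums (fld X ω) (box (y j) R) (y j) (y (j + 1))) with h | h
        · exact Or.inr h
        · exact Or.inl (tau_mono hω (Set.subset_univ _) h)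
      have d4 : μ (cv (y (j + 1) - y j)) ≤ μ (cv v) / m + 2 * M := by
        have e1 := (abs_le.mp (hMl (cv (y (j + 1) - y j))
          (((((j + 1 : ℕ) : ℝ) - j) / m) • cv v))).2
        have e2 := pt_diff v hm j (j + 1)
        have e3 : (((j + 1 : ℕ) : ℝ) - j) / m = 1 / m := by push_cast; ring_nf
        rw [e3] at e1 e2
        rw [hF.homog _ _ (by positivity)] at e1
        have e4 : M * nm (cv (y (j + 1) - y j) - (1 / (m : ℝ)) • cv v) ≤ M * 2 := by
          gcongr
        have e5 : 1 / (m : ℝ) * μ (cv v) = μ (cv v) / m := by ring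
        linarith
      have d5 : tau (fld X ω) Set.univ (y j) (y (j + 1)) - μ (cv (y (j + 1) - y j)) ≤
          Y j (fld X ω) := by
        apply le_min _ (by linarith)
        refine le_trans ?_ (le_max_left _ _)
        have d6 : tau (fld X ω) Set.univ (y j) (y (j + 1)) ≤
            tau (fld X ω) (box (y j) R) (y j) (y (j + 1)) := by
          rcases d3 with h | h
          · exact h
          · exfalso
            have hne : (sums (fld X ω) (box (y j) R) (y j) (y (j + 1))).Nonempty := by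
              apply sums_nonempty
              intro z hz
              have hz2 : l1 (y (j + 1) - y j) ≤ R := by
                have h1 := (hlen j).trans hLR
                exact_mod_cast h1
              simp only [l1, Prod.fst_sub, Prod.snd_sub] at hz2
              have : z ∈ box (y j) R := by
                simp only [box, Finset.mem_product, Finset.mem_Icc]
                omega
              exact_mod_cast this
            rw [h] at hne
            exact Set.not_nonempty_empty hne
        linarith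
      linarith
    have s3 : ∑ j ∈ Finset.range m, tau (fld X ω) Set.univ (y j) (y (j + 1)) ≤
        μ (cv v) + 2 * M * m + ∑ j ∈ Finset.range m, Y j (fld X ω) := by
      refine (Finset.sum_le_sum s2).trans ?_
      rw [Finset.sum_add_distrib, Finset.sum_const, Finset.card_range, nsmul_eq_mul]
      have hm0 : (0 : ℝ) < m := by exact_mod_cast hm
      have : (m : ℝ) * (μ (cv v) / m + 2 * M) = μ (cv v) + 2 * M * m := by field_simp
      linarith
    have s4 : ∑ j ∈ Finset.range m, Y j (fld X ω) =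
        ∑ r ∈ Finset.range K, ∑ j ∈ J r, Y j (fld X ω) := by
      rw [hJ]
      exact (Finset.sum_fiberwise_of_maps_to (fun j _ => Finset.mem_range.mpr (Nat.mod_lt _ hK0))
        _).symm
    have s5 : ∑ r ∈ Finset.range K, ∑ j ∈ J r, Y j (fld X ω) ≤
        ∑ r ∈ Finset.range K, (2 * (J r).card * a + b * x) :=
      Finset.sum_le_sum fun r hr => (not_le.mp (c3 r hr)).le
    have s6 : ∑ r ∈ Finset.range K, (2 * ((J r).card : ℝ) * a + b * x) =
        2 * m * a + K * (b * x) := by
      rw [Finset.sum_add_distrib, Finset.sum_const, Finset.card_range, nsmul_eq_mul,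
        ← Finset.sum_mul, ← Finset.mul_sum]
      have : ∑ r ∈ Finset.range K, ((J r).card : ℝ) = m := by
        have := Finset.card_eq_sum_card_fiberwise (f := fun j => j % K) (s := Finset.range m)
          (t := Finset.range K) (fun j _ => by
            simp only [Finset.coe_range, Set.mem_Iio]
            exact Nat.mod_lt _ hK0)
        rw [Finset.card_range] at this
        exact_mod_cast this.symm
      rw [this]
    linarith
  have h1 : P.real {ω | μ (cv v) + 2 * M * m + 2 * m * a + K * (b * x) <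
      tau (fld X ω) Set.univ 0 v} ≤ P.real ((⋃ j ∈ Finset.range m, (bad1 j ∪ bad2 j)) ∪
        ⋃ r ∈ Finset.range K, bad3 r) :=
    ENNReal.toReal_mono (measure_ne_top _ _) hsub
  refine h1.trans ((measureReal_union_le _ _).trans (add_le_add ?_ ?_))
  · refine (measureReal_biUnion_finset_le _ _).trans ?_
    calc ∑ j ∈ Finset.range m, P.real (bad1 j ∪ bad2 j) ≤ ∑ j ∈ Finset.range m, (δ + β) := by
          apply Finset.sum_le_sum
          intro j _
          exact (measureReal_union_le _ _).trans (add_le_add (hb1 j) (hb2 j))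
      _ = m * (δ + β) := by rw [Finset.sum_const, Finset.card_range, nsmul_eq_mul]
  · refine (measureReal_biUnion_finset_le _ _).trans ?_
    calc ∑ r ∈ Finset.range K, P.real (bad3 r) ≤ ∑ r ∈ Finset.range K, Real.exp (-x) :=
          Finset.sum_le_sum fun r _ => hb3 r
      _ = K * Real.exp (-x) := by simp

end Pool.Agent.Q231.FP
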