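import Pool.Agent.Q231.FP.Mean

set_option autoImplicit false

/-!
# Polynomial decay of the probability of slow passage times improves itself
-/

namespace Pool.Agent.Q231.FP

open MeasureTheory ProbabilityTheory Filter Topology Asymptotics
open scoped ENNReal Pointwise

variable {Ω : Type*} [MeasurableSpace Ω] {P : Measure Ω} {X : Sym2 V → Ω → ℝ} {μ : ℝ × ℝ → ℝ}

/-- mean excess over the natural scale -/
theorem IsFPP.tail_mean (hF : IsFPP P X μ) {κ : ℝ} (hκ : 0 ≤ κ) (hS : Slow P X μ κ) (ε : ℝ)
    (hε : 0 < ε) : ∃ C : ℝ, 0 ≤ C ∧ ∀ v : V,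
      Integrable (fun ω => max (tau (fld X ω) Set.univ 0 v - μ (cv v) -
        (1 + (l1 v : ℝ)) ^ (κ + ε)) 0) P ∧
      ∫ ω, max (tau (fld X ω) Set.univ 0 v - μ (cv v) - (1 + (l1 v : ℝ)) ^ (κ + ε)) 0 ∂P ≤ C := by
  have hP := hF.env.prob
  obtain ⟨C, hC0, hC⟩ := hS ε hε 2 (by norm_num)
  refine ⟨1 + C, by positivity, fun v => ?_⟩
  set s0 := (1 + (l1 v : ℝ)) ^ (κ + ε) with hs0
  have hs1 : 1 ≤ s0 := Real.one_le_rpow (by have : (0 : ℝ) ≤ l1 v := by positivity
                                            linarith) (by linarith)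
  have hm : Measurable (fun ω => max (tau (fld X ω) Set.univ 0 v - μ (cv v) - s0) 0) :=
    (((hF.env.mtau _ _ _).sub_const _).sub_const _).max measurable_const
  have h1 := lintegral_eq_lintegral_meas_lt P
    (f := fun ω => max (tau (fld X ω) Set.univ 0 v - μ (cv v) - s0) 0)
    (ae_of_all _ fun ω => le_max_right _ _) hm.aemeasurable
  have h2 : ∫⁻ t in Set.Ioi (0 : ℝ),
      P {ω | t < max (tau (fld X ω) Set.univ 0 v - μ (cv v) - s0) 0} ≤
      ENNReal.ofReal 1 + ENNReal.ofReal C := by
    have hun : Set.Ioi (0 : ℝ) = Set.Ioc 0 1 ∪ Set.Ioi 1 :=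
      (Set.Ioc_union_Ioi_eq_Ioi (by norm_num)).symm
    rw [hun]
    refine (lintegral_union_le _ _ _).trans (add_le_add ?_ ?_)
    · calc ∫⁻ t in Set.Ioc (0 : ℝ) 1,
            P {ω | t < max (tau (fld X ω) Set.univ 0 v - μ (cv v) - s0) 0}
          ≤ ∫⁻ t in Set.Ioc (0 : ℝ) 1, 1 := lintegral_mono fun t => prob_le_one
        _ = ENNReal.ofReal 1 := by simp
    · calc ∫⁻ t in Set.Ioi (1 : ℝ),
            P {ω | t < max (tau (fld X ω) Set.univ 0 v - μ (cv v) - s0) 0}
          ≤ ∫⁻ t in Set.Ioi (1 : ℝ), ENNReal.ofReal (C * t ^ (-2 : ℝ)) := by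
            apply setLIntegral_mono' measurableSet_Ioi
            intro t ht
            have ht' : (1 : ℝ) < t := ht
            have h3 := hC v (s0 + t) (by linarith)
            have h3' : C * (s0 + t) ^ (-2 : ℝ) ≤ C * t ^ (-2 : ℝ) :=
              mul_le_mul_of_nonneg_left (Real.rpow_le_rpow_of_nonpos (by linarith) (by linarith)
                (by norm_num)) hC0
            rw [measureReal_def] at h3
            have h4 := (ENNReal.le_ofReal_iff_toReal_le (measure_ne_top P _)
              (by have : 0 ≤ t ^ (-2 : ℝ) := Real.rpow_nonneg (by linarith) _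
                  positivity)).mpr (h3.trans h3')
            refine le_trans (measure_mono ?_) h4
            intro ω hω
            have h5 : t < max (tau (fld X ω) Set.univ 0 v - μ (cv v) - s0) 0 := hω
            rcases lt_max_iff.mp h5 with h6 | h6
            · have h7 : μ (cv v) + (s0 + t) < tau (fld X ω) Set.univ 0 v := by linarith
              exact h7
            · linarith
        _ = ENNReal.ofReal C := by
            rw [← ofReal_integral_eq_lintegral_ofReal]
            · rw [integral_const_mul, integral_Ioi_rpow_of_lt (by norm_num) (by norm_num)]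
              congr 1
              rw [Real.one_rpow]
              norm_num
            · exact (integrableOn_Ioi_rpow_of_lt (by norm_num) (by norm_num)).const_mul C
            · rw [EventuallyLE, ae_restrict_iff' measurableSet_Ioi]
              refine ae_of_all _ fun t ht => ?_
              have ht' : (1 : ℝ) < t := ht
              have : 0 ≤ t ^ (-2 : ℝ) := Real.rpow_nonneg (by linarith) _
              simp only [Pi.zero_apply]
              positivity
  rw [← h1, ← ENNReal.ofReal_add (by norm_num) hC0] at h2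
  have hint : Integrable (fun ω => max (tau (fld X ω) Set.univ 0 v - μ (cv v) - s0) 0) P := by
    refine ⟨hm.aestronglyMeasurable, ?_⟩
    rw [hasFiniteIntegral_iff_ofReal
      (f := fun ω => max (tau (fld X ω) Set.univ 0 v - μ (cv v) - s0) 0)
      (ae_of_all _ fun ω => le_max_right _ _)]
    exact h2.trans_lt ENNReal.ofReal_lt_top
  refine ⟨hint, ?_⟩
  have h3 : ENNReal.ofReal (∫ ω, max (tau (fld X ω) Set.univ 0 v - μ (cv v) - s0) 0 ∂P) ≤
      ENNReal.ofReal (1 + C) := by
    rw [ofReal_integral_eq_lintegral_ofReal hint (ae_of_all _ fun ω => le_max_right _ _)]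
    exact h2
  exact (ENNReal.ofReal_le_ofReal_iff (by positivity)).mp h3

/-- slow passage times have polynomially small probability -/
def Weak (P : Measure Ω) (X : Sym2 V → Ω → ℝ) (μ : ℝ × ℝ → ℝ) (χ : ℝ) : Prop :=
  ∃ a : ℝ, 0 < a ∧ ∃ C : ℝ, 0 ≤ C ∧ ∀ v : V,
    P.real {ω | μ (cv v) + (1 + (l1 v : ℝ)) ^ χ < tau (fld X ω) Set.univ 0 v} ≤
      C * (1 + (l1 v : ℝ)) ^ (-a)

/-- one round: the exponent `κ` is replaced by `max χ (κ - a)` -/
theorem IsFPP.dev_of_weak (hF : IsFPP P X μ) {χ κ a C : ℝ} (hχ : 0 ≤ χ) (hκ : 0 ≤ κ)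
    (hC0 : 0 ≤ C) (hw : ∀ v : V,
      P.real {ω | μ (cv v) + (1 + (l1 v : ℝ)) ^ χ < tau (fld X ω) Set.univ 0 v} ≤
        C * (1 + (l1 v : ℝ)) ^ (-a)) (hS : Slow P X μ κ) :
    MeanDev P X μ (max χ (κ - a)) := by
  have hP := hF.env.prob
  intro ε hε
  obtain ⟨C', hC'0, hC'⟩ := hF.tail_mean hκ hS ε hε
  refine ⟨2 * (1 + C + C'), by positivity, fun v => ?_⟩
  obtain ⟨hi, hle⟩ := hC' v
  have hb : (1 : ℝ) ≤ 1 + (l1 v : ℝ) := by
    have : (0 : ℝ) ≤ l1 v := by positivity
    linarith
  have hb0 : (0 : ℝ) < 1 + (l1 v : ℝ) := by linarith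
  set s1 := (1 + (l1 v : ℝ)) ^ χ with hs1
  set s2 := (1 + (l1 v : ℝ)) ^ (κ + ε) with hs2
  set E := (1 + (l1 v : ℝ)) ^ (max χ (κ - a) + ε) with hE
  have hE1 : 1 ≤ E := Real.one_le_rpow hb (by have := le_max_left χ (κ - a); linarith)
  have hs1E : s1 ≤ E := Real.rpow_le_rpow_of_exponent_le hb
    (by have := le_max_left χ (κ - a); linarith)
  have hs20 : 0 < s2 := Real.rpow_pos_of_pos hb0 _
  have hs10 : 0 < s1 := Real.rpow_pos_of_pos hb0 _
  set B : Set Ω := {ω | μ (cv v) + s1 < tau (fld X ω) Set.univ 0 v} with hB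
  have hBm : MeasurableSet B := measurableSet_lt measurable_const (hF.env.mtau _ _ _)
  have hi1 : Integrable (fun ω => max (tau (fld X ω) Set.univ 0 v - μ (cv v)) 0) P := by
    have hs : Integrable (fun ω => tau (fld X ω) Set.univ 0 v - μ (cv v)) P :=
      (hF.integrable v).sub (integrable_const _)
    exact hs.pos_part
  have hi3 : Integrable (fun ω => B.indicator (fun _ => s2) ω) P :=
    (integrable_const _).indicator hBm
  have hi2 : Integrable (fun ω => s1 + B.indicator (fun _ => s2) ω) P :=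
    (integrable_const _).add hi3
  have hi4 : Integrable (fun ω => (s1 + B.indicator (fun _ => s2) ω) +
      max (tau (fld X ω) Set.univ 0 v - μ (cv v) - s2) 0) P := hi2.add hi
  have h1 : ∫ ω, max (tau (fld X ω) Set.univ 0 v - μ (cv v)) 0 ∂P ≤
      ∫ ω, ((s1 + B.indicator (fun _ => s2) ω) +
        max (tau (fld X ω) Set.univ 0 v - μ (cv v) - s2) 0) ∂P := by
    apply integral_mono hi1 hi4
    intro ω
    simp only [Set.indicator_apply]
    split_ifs with h
    · have a1 := le_max_left (tau (fld X ω) Set.univ 0 v - μ (cv v) - s2) 0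
      have a2 := le_max_right (tau (fld X ω) Set.univ 0 v - μ (cv v) - s2) 0
      exact max_le (by linarith) (by linarith)
    · have h2 : tau (fld X ω) Set.univ 0 v ≤ μ (cv v) + s1 := not_lt.mp h
      have a2 := le_max_right (tau (fld X ω) Set.univ 0 v - μ (cv v) - s2) 0
      exact max_le (by linarith) (by linarith)
  rw [integral_add hi2 hi, integral_add (integrable_const _) hi3,
    integral_indicator_const _ hBm] at h1
  simp only [integral_const, probReal_univ, smul_eq_mul, one_mul] at h1
  have h2 : P.real B * s2 ≤ C * E := by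
    calc P.real B * s2 ≤ (C * (1 + (l1 v : ℝ)) ^ (-a)) * s2 :=
          mul_le_mul_of_nonneg_right (hw v) hs20.le
      _ = C * (1 + (l1 v : ℝ)) ^ (κ - a + ε) := by
          rw [mul_assoc, hs2, ← Real.rpow_add hb0]; congr 2; ring
      _ ≤ C * E := by
          apply mul_le_mul_of_nonneg_left _ hC0
          exact Real.rpow_le_rpow_of_exponent_le hb
            (by have := le_max_right χ (κ - a); linarith)
  have h3 : ∫ ω, max (tau (fld X ω) Set.univ 0 v - μ (cv v)) 0 ∂P ≤ (1 + C + C') * E := by
    have : C' ≤ C' * E := le_mul_of_one_le_right hC'0 hE1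
    linarith
  have h4 : ∀ ω, |tau (fld X ω) Set.univ 0 v - μ (cv v)| =
      2 * max (tau (fld X ω) Set.univ 0 v - μ (cv v)) 0 -
        (tau (fld X ω) Set.univ 0 v - μ (cv v)) := by
    intro ω
    rcases le_total 0 (tau (fld X ω) Set.univ 0 v - μ (cv v)) with h | h
    · rw [abs_of_nonneg h, max_eq_left h]; ring
    · rw [abs_of_nonpos h, max_eq_right h]; ring
  simp_rw [h4]
  have hs : Integrable (fun ω => tau (fld X ω) Set.univ 0 v - μ (cv v)) P :=
    (hF.integrable v).sub (integrable_const _)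
  rw [integral_sub (hi1.const_mul 2) hs,
    integral_const_mul, integral_sub (hF.integrable v) (integrable_const _)]
  have h5 := hF.mean_ge v
  simp only [integral_const, probReal_univ, smul_eq_mul, one_mul]
  linarith

/-- self-improvement: polynomially small probability at the exponent `χ` implies
superpolynomially small probability at all larger exponents -/
theorem IsFPP.slow_of_weak (hF : IsFPP P X μ) {χ : ℝ} (hχ0 : 0 < χ) (hχ1 : χ < 1)
    (hw : Weak P X μ χ) : Slow P X μ χ := by
  obtain ⟨a, ha, C, hC0, hC⟩ := hw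
  have hall : ∀ i : ℕ, Slow P X μ (max χ (1 - i * a)) := by
    intro i
    induction i with
    | zero =>
      have : max χ (1 - ((0 : ℕ) : ℝ) * a) = 1 := by
        rw [Nat.cast_zero, zero_mul, sub_zero]; exact max_eq_right hχ1.le
      rw [this]
      exact hF.slow_one
    | succ i ih =>
      have h1 := hF.dev_of_weak hχ0.le (le_max_of_le_left hχ0.le) hC0 hC ih
      have h2 : max χ (max χ (1 - i * a) - a) = max χ (1 - ((i + 1 : ℕ) : ℝ) * a) := by
        push_cast
        rcases le_total χ (1 - i * a) with h | h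
        · rw [max_eq_right h]; congr 1; ring
        · rw [max_eq_left h, max_eq_left (by linarith), max_eq_left (by nlinarith)]
      rw [h2] at h1
      apply hF.slow_of_meanDev (lt_max_of_lt_left hχ0) _ h1
      apply max_lt hχ1
      push_cast
      have : 0 < ((i : ℝ) + 1) * a := by positivity
      linarith
  obtain ⟨i, hi⟩ := exists_nat_gt ((1 - χ) / a)
  have := hall i
  rw [div_lt_iff₀ ha] at hi
  rwa [max_eq_left (by linarith)] at this

/-- the inner half with some polynomial rate -/
def InnerPoly (P : Measure Ω) (X : Sym2 V → Ω → ℝ) (μ : ℝ × ℝ → ℝ) : Prop :=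
  ∀ ζ : ℝ, 0 < ζ → ζ < 2 / 3 → ∃ a : ℝ, 0 < a ∧
    (fun t : ℝ => (P (BI X μ ζ t)).toReal) =O[atTop] (fun t : ℝ => t ^ (-a))

theorem IsFPP.inner_of_poly (hF : IsFPP P X μ) (h : InnerPoly P X μ) : Inner P X μ := by
  have hP := hF.env.prob
  obtain ⟨M, hM1, hM2, -⟩ := hF.upper
  apply hF.inner_of_slow
  have key : ∀ ζ : ℝ, 0 < ζ → ζ < 1 / 3 → Slow P X μ (1 / 3 + 2 * ζ) := by
    intro ζ hζ0 hζ1
    apply hF.slow_of_weak (by linarith) (by linarith)
    obtain ⟨a, ha, hO⟩ := h ζ hζ0 (by linarith)
    obtain ⟨C, hC0, hC⟩ := hO.exists_nonneg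
    obtain ⟨t0, ht0⟩ := eventually_atTop.mp hC.bound
    obtain ⟨s1, hs1, hs2⟩ := pow_small hM1 (show 0 < 1 / 3 + 2 * ζ by linarith)
      (show 0 < 1 / 3 + ζ by linarith) (by linarith) (by linarith)
    -- the estimate for large `v`
    have hlarge := of_large (κ := 1 / 3 + 2 * ζ) (q := a)
      (f := fun v s => if s = (1 + (l1 v : ℝ)) ^ (1 / 3 + 2 * ζ) then
        P.real {ω | μ (cv v) + s < tau (fld X ω) Set.univ 0 v} else 0) (by linarith) ha
      (fun v s => by split_ifs; exacts [measureReal_le_one, zero_le_one])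
      ⟨C, max s1 (max t0 2), hC0, fun v s hs hvs => by
        have a1 : s1 ≤ s := (le_max_left _ _).trans hs
        have a2 : t0 ≤ s := (le_max_left _ _).trans ((le_max_right _ _).trans hs)
        have a3 : 2 ≤ s := (le_max_right _ _).trans ((le_max_right _ _).trans hs)
        split_ifs with hif
        · have hmu0 := hF.nonneg (cv v)
          have hmu := hM2 (cv v)
          rw [nm_cv] at hmu
          have hp := hs2 (l1 v) s (by positivity) a1 hvs
          set t := μ (cv v) + s with ht
          have h1 : t ^ (1 / 3 + ζ) ≤ s := by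
            have : t ^ (1 / 3 + ζ) ≤ (M * l1 v + s) ^ (1 / 3 + ζ) :=
              Real.rpow_le_rpow (by positivity) (by linarith) (by linarith)
            linarith
          have h2 := ht0 t (by linarith)
          rw [Real.norm_of_nonneg ENNReal.toReal_nonneg, Real.norm_of_nonneg
            (Real.rpow_nonneg (by linarith) _)] at h2
          calc P.real {ω | t < tau (fld X ω) Set.univ 0 v} ≤ P.real (BI X μ ζ t) := by
                refine measureReal_mono ?_ (measure_ne_top _ _)
                intro ω hω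
                exact hF.memBI (by linarith) (by linarith) (by linarith) hω
            _ ≤ C * t ^ (-a) := h2
            _ ≤ C * s ^ (-a) := by
                apply mul_le_mul_of_nonneg_left _ hC0
                exact Real.rpow_le_rpow_of_nonpos (by linarith) (by linarith) (by linarith)
        · have : 0 ≤ s ^ (-a) := Real.rpow_nonneg (by linarith) _
          positivity⟩
    obtain ⟨C', hC'0, hC'⟩ := hlarge
    refine ⟨(1 / 3 + 2 * ζ) * a, by positivity, C', hC'0, fun v => ?_⟩
    have h1 := hC' v ((1 + (l1 v : ℝ)) ^ (1 / 3 + 2 * ζ)) le_rfl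
    simp only [if_true] at h1
    refine h1.trans (le_of_eq ?_)
    rw [← Real.rpow_mul (by positivity)]
    congr 2; ring
  intro ε hε q hq
  set ζ := min (ε / 4) (1 / 4) with hζ
  have hζ0 : 0 < ζ := lt_min (by linarith) (by norm_num)
  have hζ1 : ζ ≤ 1 / 4 := min_le_right _ _
  have hζ2 : ζ ≤ ε / 4 := min_le_left _ _
  obtain ⟨C, hC0, hC⟩ := key ζ hζ0 (by linarith) (ε / 2) (by linarith) q hq
  refine ⟨C, hC0, fun v s hs => hC v s (le_trans ?_ hs)⟩
  apply Real.rpow_le_rpow_of_exponent_le
  · have : (0 : ℝ) ≤ l1 v := by positivity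
    linarith
  · linarith

theorem IsFPP.inner_iff_poly (hF : IsFPP P X μ) : Inner P X μ ↔ InnerPoly P X μ :=
  ⟨fun h ζ h0 h1 => ⟨1, one_pos, h ζ h0 h1 1 one_pos⟩, hF.inner_of_poly⟩

end Pool.Agent.Q231.FP
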